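import Pool.Agent.TH948.BD.Defs
import Pool.Agent.TH965.Final

set_option autoImplicit false
set_option linter.unusedSectionVars false

/-!
# Deterministic sum over the `r`-sets which meet a hyperedge in two vertices (job BD-1)
-/

namespace Pool.Agent.TH948.BD

open Finset
open scoped Classical
open Pool.Agent.TH965.Spread Pool.Agent.TH948.KK

namespace J1

variable {n : ℕ}

lemma card_of_mem {r : ℕ} {A : Finset (Finset (Fin n))} (hA : A ⊆ rsets n r)
    {g : Finset (Fin n)} (hg : g ∈ A) : g.card = r := (mem_powersetCard.1 (hA hg)).2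

lemma mem_shad {A : Finset (Finset (Fin n))} {x y : Fin n} :
    s(x, y) ∈ shad A ↔ x ≠ y ∧ ∃ g ∈ A, x ∈ g ∧ y ∈ g := by
  simp only [shad, mem_biUnion, mem_prs]
  constructor
  · rintro ⟨g, hg, hx, hy, hxy⟩
    exact ⟨hxy, g, hg, hx, hy⟩
  · rintro ⟨hxy, g, hg, hx, hy⟩
    exact ⟨g, hg, hx, hy, hxy⟩

/-! ### covered sets -/

lemma card_union_two {g V : Finset (Fin n)} {a b : Fin n} (hab : a ≠ b) (ha : a ∈ g) (hb : b ∈ g)
    (ha' : a ∈ V) (hb' : b ∈ V) : (g ∪ V).card + 2 ≤ g.card + V.card := by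
  have h1 := card_union_add_card_inter g V
  have h2 : ({a, b} : Finset (Fin n)) ⊆ g ∩ V := by
    intro x hx
    rw [mem_insert, mem_singleton] at hx
    rcases hx with rfl | rfl
    · exact mem_inter.2 ⟨ha, ha'⟩
    · exact mem_inter.2 ⟨hb, hb'⟩
  have h3 := card_le_card h2
  rw [card_pair hab] at h3
  omega

lemma card_union_one {g V : Finset (Fin n)} {a : Fin n} (ha : a ∈ g) (ha' : a ∈ V) :
    (g ∪ V).card + 1 ≤ g.card + V.card := by
  have h1 := card_union_add_card_inter g V
  have h3 : 0 < (g ∩ V).card := card_pos.2 ⟨a, mem_inter.2 ⟨ha, ha'⟩⟩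
  omega

lemma step {r : ℕ} {A : Finset (Finset (Fin n))} (hr : 2 ≤ r) (hA : A ⊆ rsets n r)
    {h : Finset (Fin n)} {F : Finset (Finset (Fin n))} (hFA : F ⊆ A) (hhF : h ∈ F)
    {i : Finset (Fin n)} (hi : prs i ⊆ shad A) (h2 : 2 ≤ (i ∩ h).card)
    (hnot : ¬ i ⊆ F.biUnion id) :
    ∃ F' ⊆ A, F ⊆ F' ∧ F'.card ≤ F.card + 2 ∧
      (F'.biUnion id).card + (r - 1) * F.card + 1 ≤ (F.biUnion id).card + (r - 1) * F'.card := by
  obtain ⟨z, hzi, hzV⟩ := not_subset.1 hnot
  obtain ⟨y, hy, y', hy', hyy⟩ := one_lt_card.1 h2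
  rw [mem_inter] at hy hy'
  set V := F.biUnion id with hV
  have hhV : h ⊆ V := fun x hx => mem_biUnion.2 ⟨h, hhF, hx⟩
  have hyV := hhV hy.2
  have hyV' := hhV hy'.2
  have hzy : z ≠ y := fun e => hzV (e ▸ hyV)
  have hzy' : z ≠ y' := fun e => hzV (e ▸ hyV')
  obtain ⟨-, g, hgA, hzg, hyg⟩ := mem_shad.1 (hi (mem_prs.2 ⟨hzi, hy.1, hzy⟩))
  obtain ⟨-, g', hgA', hzg', hyg'⟩ := mem_shad.1 (hi (mem_prs.2 ⟨hzi, hy'.1, hzy'⟩))
  have hgF : g ∉ F := fun e => hzV (mem_biUnion.2 ⟨g, e, hzg⟩)
  have hgF' : g' ∉ F := fun e => hzV (mem_biUnion.2 ⟨g', e, hzg'⟩)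
  have hcg := card_of_mem hA hgA
  have hcg' := card_of_mem hA hgA'
  obtain ⟨q, rfl⟩ : ∃ q, r = q + 1 := ⟨r - 1, by omega⟩
  rw [Nat.add_sub_cancel]
  by_cases hgg : g = g'
  · subst hgg
    refine ⟨insert g F, insert_subset hgA hFA, subset_insert _ _, ?_, ?_⟩
    · rw [card_insert_of_notMem hgF]; omega
    · rw [card_insert_of_notMem hgF, biUnion_insert, ← hV]
      have h3 := card_union_two hyy hyg hyg' hyV hyV'
      have h4 : q * (F.card + 1) = q * F.card + q := by ring
      rw [id_eq]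
      omega
  · have hgI : g' ∉ insert g F := by
      rw [mem_insert]
      rintro (e | e)
      · exact hgg e.symm
      · exact hgF' e
    refine ⟨insert g' (insert g F), insert_subset hgA' (insert_subset hgA hFA),
      (subset_insert _ _).trans (subset_insert _ _), ?_, ?_⟩
    · rw [card_insert_of_notMem hgI, card_insert_of_notMem hgF]
    · rw [card_insert_of_notMem hgI, card_insert_of_notMem hgF, biUnion_insert, biUnion_insert,
        ← hV, id_eq, id_eq]
      have h3 := card_union_one hyg hyV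
      have h4 := card_union_two (g := g') (V := g ∪ V) hzy' hzg' hyg' (mem_union_left _ hzg)
        (mem_union_right _ hyV')
      have h5 : q * (F.card + 1 + 1) = q * F.card + q + q := by ring
      omega

lemma covered {r D : ℕ} {A : Finset (Finset (Fin n))} (hr : 2 ≤ r) (hA : A ⊆ rsets n r)
    (hT : Typ r D A) {h : Finset (Fin n)} (hh : h ∈ A) :
    ∃ U : Finset (Fin n), U.card ≤ 3 * r ∧
      ∀ i : Finset (Fin n), prs i ⊆ shad A → 2 ≤ (i ∩ h).card → i ⊆ U := by
  have hch := card_of_mem hA hh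
  by_cases hall : ∀ i : Finset (Fin n), prs i ⊆ shad A → 2 ≤ (i ∩ h).card → i ⊆ h
  · exact ⟨h, by omega, hall⟩
  · push Not at hall
    obtain ⟨i1, hi1, hi2, hi3⟩ := hall
    have hb : ({h} : Finset (Finset (Fin n))).biUnion id = h := by simp
    obtain ⟨F1, hF1A, hF1, hc1, hv1⟩ := step hr hA (h := h) (F := {h})
      (singleton_subset_iff.2 hh) (mem_singleton_self _) hi1 hi2 (by rwa [hb])
    rw [hb, card_singleton, hch] at hv1
    rw [card_singleton] at hc1
    have hv1' : (F1.biUnion id).card ≤ (r - 1) * F1.card := by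
      rw [mul_one] at hv1
      omega
    refine ⟨F1.biUnion id, ?_, fun i h1 h2 => ?_⟩
    · calc (F1.biUnion id).card ≤ (r - 1) * F1.card := hv1'
        _ ≤ (r - 1) * 3 := Nat.mul_le_mul_left _ (by omega)
        _ ≤ 3 * r := by omega
    · by_contra hcon
      obtain ⟨F2, hF2A, -, hc2, hv2⟩ := step hr hA (h := h) (F := F1) hF1A
        (hF1 (mem_singleton_self _)) h1 h2 hcon
      have h5 := hT.2 F2 hF2A (by omega)
      omega

/-! ### balls -/

/-- closed ball of radius one -/
noncomputable def B1 (A : Finset (Finset (Fin n))) (x : Fin n) : Finset (Fin n) :=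
  univ.filter fun y => y = x ∨ s(x, y) ∈ shad A

lemma mem_B1 {A : Finset (Finset (Fin n))} {x y : Fin n} :
    y ∈ B1 A x ↔ y = x ∨ s(x, y) ∈ shad A := by
  simp [B1]

lemma B1_self {A : Finset (Finset (Fin n))} (x : Fin n) : x ∈ B1 A x := mem_B1.2 (Or.inl rfl)

lemma B1_symm {A : Finset (Finset (Fin n))} {x y : Fin n} (h : y ∈ B1 A x) : x ∈ B1 A y := by
  rw [mem_B1] at h ⊢
  rcases h with h | h
  · exact Or.inl h.symm
  · exact Or.inr (by rwa [Sym2.eq_swap])

lemma B1_card {r D : ℕ} {A : Finset (Finset (Fin n))} (hA : A ⊆ rsets n r) (hT : Typ r D A)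
    (x : Fin n) : (B1 A x).card ≤ r * D + 1 := by
  have h1 : B1 A x ⊆ insert x ((A.filter (fun g => x ∈ g)).biUnion id) := by
    intro y hy
    rw [mem_B1] at hy
    rw [mem_insert]
    rcases hy with hy | hy
    · exact Or.inl hy
    · obtain ⟨-, g, hg, hx, hy'⟩ := mem_shad.1 hy
      exact Or.inr (mem_biUnion.2 ⟨g, mem_filter.2 ⟨hg, hx⟩, hy'⟩)
  refine (card_le_card h1).trans ((card_insert_le _ _).trans ?_)
  have h2 : ((A.filter (fun g => x ∈ g)).biUnion id).card ≤ (A.filter (fun g => x ∈ g)).card * r :=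
    card_biUnion_le_card_mul _ _ _ fun g hg => (card_of_mem hA (mem_filter.1 hg).1).le
  have h3 := Nat.mul_le_mul_right r (hT.1 x)
  rw [mul_comm D r] at h3
  omega

/-- ball of radius two -/
noncomputable def B2 (A : Finset (Finset (Fin n))) (x : Fin n) : Finset (Fin n) :=
  (B1 A x).biUnion (B1 A)

lemma B2_card {r D : ℕ} {A : Finset (Finset (Fin n))} (hA : A ⊆ rsets n r) (hT : Typ r D A)
    (x : Fin n) : (B2 A x).card ≤ (r * D + 1) ^ 2 := by
  refine (card_biUnion_le_card_mul _ _ _ fun g _ => B1_card hA hT g).trans ?_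
  rw [pow_two]
  exact Nat.mul_le_mul_right _ (B1_card hA hT x)

/-- disjoint balls -/
def PD (A : Finset (Finset (Fin n))) (T : Finset (Fin n)) : Prop :=
  ∀ t ∈ T, ∀ t' ∈ T, t ≠ t' → Disjoint (B1 A t) (B1 A t')

lemma exists_T {r : ℕ} {A : Finset (Finset (Fin n))} {h i : Finset (Fin n)} (hh : h ∈ A)
    (hi : i.card = r) (h2 : 2 ≤ (i ∩ h).card) :
    ∃ x0 ∈ h, ∃ T ⊆ i, x0 ∈ T ∧ PD A T ∧ T.card < r ∧ ∀ u ∈ i, ∃ t ∈ T, u ∈ B2 A t := by
  obtain ⟨x0, hx0, y0, hy0, hxy⟩ := one_lt_card.1 h2
  rw [mem_inter] at hx0 hy0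
  set TT := i.powerset.filter (fun T => x0 ∈ T ∧ PD A T) with hTT
  have hne : TT.Nonempty := by
    refine ⟨{x0}, ?_⟩
    rw [hTT, mem_filter, mem_powerset, singleton_subset_iff]
    refine ⟨hx0.1, mem_singleton_self _, ?_⟩
    intro t ht t' ht' hne
    rw [mem_singleton] at ht ht'
    exact absurd (ht.trans ht'.symm) hne
  obtain ⟨T, hTmem, hmax⟩ := exists_max_image TT Finset.card hne
  rw [hTT, mem_filter, mem_powerset] at hTmem
  obtain ⟨hTi, hx0T, hPD⟩ := hTmem
  refine ⟨x0, hx0.2, T, hTi, hx0T, hPD, ?_, ?_⟩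
  · rw [← hi]
    refine card_lt_card (Finset.ssubset_iff_subset_ne.2 ⟨hTi, ?_⟩)
    intro hTeq
    have h3 : y0 ∈ T := by rw [hTeq]; exact hy0.1
    have h4 := hPD x0 hx0T y0 h3 hxy
    have h5 : y0 ∈ B1 A x0 := mem_B1.2 (Or.inr (mem_shad.2 ⟨hxy, h, hh, hx0.2, hy0.2⟩))
    exact (disjoint_left.1 h4) h5 (B1_self y0)
  · intro u hu
    by_cases huT : u ∈ T
    · exact ⟨u, huT, mem_biUnion.2 ⟨u, B1_self u, B1_self u⟩⟩
    · have h3 : insert u T ∉ TT := by
        intro h4
        have := hmax _ h4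
        rw [card_insert_of_notMem huT] at this
        omega
      rw [hTT, mem_filter, mem_powerset] at h3
      have h4 : ¬ PD A (insert u T) := fun h5 =>
        h3 ⟨insert_subset hu hTi, mem_insert_of_mem hx0T, h5⟩
      have h5 : ∃ t ∈ T, ¬ Disjoint (B1 A u) (B1 A t) := by
        by_contra hcon
        push Not at hcon
        apply h4
        intro t ht t' ht' hne
        rw [mem_insert] at ht ht'
        rcases ht with rfl | ht
        · rcases ht' with rfl | ht'
          · exact absurd rfl hne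
          · exact hcon t' ht'
        · rcases ht' with rfl | ht'
          · exact (hcon t ht).symm
          · exact hPD t ht t' ht' hne
      obtain ⟨t, ht, hd⟩ := h5
      obtain ⟨w, hw1, hw2⟩ := not_disjoint_iff.1 hd
      exact ⟨t, ht, mem_biUnion.2 ⟨w, hw2, B1_symm hw1⟩⟩

/-! ### uncovered pairs -/

/-- the graph of uncovered pairs -/
def UG (A : Finset (Finset (Fin n))) (i : Finset (Fin n)) : SimpleGraph (Fin n) where
  Adj u v := u ∈ i ∧ v ∈ i ∧ u ≠ v ∧ s(u, v) ∉ shad A
  symm := ⟨fun u v ⟨h1, h2, h3, h4⟩ => ⟨h2, h1, h3.symm, by rwa [Sym2.eq_swap]⟩⟩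
  loopless := ⟨fun u ⟨_, _, h3, _⟩ => h3 rfl⟩

lemma unc {A : Finset (Finset (Fin n))} {T i : Finset (Fin n)} (hT : T ⊆ i) (hPD : PD A T)
    (hne : T.Nonempty) (hlt : T.card < i.card) (hII : ¬ prs i ⊆ shad A) :
    i.card * (T.card - 1) + 1 ≤ 2 * (prs i \ shad A).card := by
  have hpos : 0 < T.card := card_pos.2 hne
  by_cases hc1 : T.card = 1
  · rw [hc1]
    have h1 : 0 < (prs i \ shad A).card := by
      rw [card_pos]
      obtain ⟨e, he1, he2⟩ := not_subset.1 hII
      exact ⟨e, mem_sdiff.2 ⟨he1, he2⟩⟩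
    omega
  · have hedge : (UG A i).edgeFinset.card ≤ (prs i \ shad A).card := by
      refine card_le_card fun e he => ?_
      rw [SimpleGraph.mem_edgeFinset] at he
      induction e using Sym2.ind with
      | _ u v =>
        rw [SimpleGraph.mem_edgeSet] at he
        obtain ⟨h1, h2, h3, h4⟩ := he
        exact mem_sdiff.2 ⟨mem_prs.2 ⟨h1, h2, h3⟩, h4⟩
    have hsum := (UG A i).sum_degrees_eq_twice_card_edges
    have hle : ∑ v ∈ i, (UG A i).degree v ≤ ∑ v, (UG A i).degree v :=
      sum_le_sum_of_subset (subset_univ _)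
    -- at most one ball contains a given vertex
    have hone : ∀ u : Fin n, (T.filter (fun t => u ∈ B1 A t)).card ≤ 1 := by
      intro u
      refine card_le_one.2 fun t ht t' ht' => ?_
      rw [mem_filter] at ht ht'
      by_contra hne
      exact (disjoint_left.1 (hPD t ht.1 t' ht'.1 hne)) ht.2 ht'.2
    have hfil : ∀ u : Fin n, T.card - 1 ≤ (T.filter (fun t => u ∉ B1 A t)).card := by
      intro u
      have h1 := card_filter_add_card_filter_not (s := T) (fun t => u ∈ B1 A t)
      have h2 := hone u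
      omega
    have hadj : ∀ u ∈ i, ∀ t ∈ T, u ∉ B1 A t → (UG A i).Adj u t := by
      intro u hu t ht hut
      refine ⟨hu, hT ht, fun e => hut (e ▸ B1_self _), fun hsh => hut (mem_B1.2 (Or.inr ?_))⟩
      rwa [Sym2.eq_swap]
    have hdeg : ∀ u ∈ i, T.card - 1 ≤ (UG A i).degree u := by
      intro u hu
      refine (hfil u).trans ?_
      rw [← SimpleGraph.card_neighborFinset_eq_degree]
      refine card_le_card fun t ht => ?_
      rw [mem_filter] at ht
      rw [SimpleGraph.mem_neighborFinset]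
      exact hadj u hu t ht.1 ht.2
    obtain ⟨u, hui, huT⟩ := exists_mem_notMem_of_card_lt_card hlt
    have hpos2 : 0 < (T.filter (fun t => u ∉ B1 A t)).card := by
      have := hfil u
      omega
    obtain ⟨t, ht⟩ := card_pos.1 hpos2
    rw [mem_filter] at ht
    have hdt : T.card ≤ (UG A i).degree t := by
      rw [← SimpleGraph.card_neighborFinset_eq_degree]
      have h1 : insert u (T.erase t) ⊆ (UG A i).neighborFinset t := by
        intro v hv
        rw [SimpleGraph.mem_neighborFinset]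
        rw [mem_insert, mem_erase] at hv
        rcases hv with rfl | hv
        · exact (hadj _ hui t ht.1 ht.2).symm
        · refine hadj t (hT ht.1) v hv.2 fun hb => ?_
          exact (disjoint_left.1 (hPD t ht.1 v hv.2 (Ne.symm hv.1))) (B1_self t) hb
      have h2 := card_le_card h1
      rw [card_insert_of_notMem (fun h => huT (mem_of_mem_erase h)), card_erase_of_mem ht.1] at h2
      omega
    have hti := hT ht.1
    have hfin : i.card * (T.card - 1) + 1 ≤ ∑ v ∈ i, (UG A i).degree v := by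
      rw [← add_sum_erase _ _ hti]
      have h1 : (i.erase t).card * (T.card - 1) ≤ ∑ v ∈ i.erase t, (UG A i).degree v := by
        rw [← smul_eq_mul]
        exact card_nsmul_le_sum _ _ _ fun v hv => hdeg v (mem_of_mem_erase hv)
      rw [card_erase_of_mem hti] at h1
      have h2 : i.card * (T.card - 1) = (i.card - 1) * (T.card - 1) + (T.card - 1) := by
        have h3 : i.card = (i.card - 1) + 1 := by omega
        conv_lhs => rw [h3]
        ring
      omega
    omega

/-! ### counting -/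

/-- sets near a small set -/
noncomputable def Sc (A : Finset (Finset (Fin n))) (h : Finset (Fin n)) (r c : ℕ) :
    Finset (Finset (Fin n)) :=
  (rsets n r).filter (fun i => ∃ x0 ∈ h, ∃ T : Finset (Fin n), x0 ∈ T ∧ T.card = c ∧
    i ⊆ T.biUnion (B2 A))

lemma Sc_card {r D c : ℕ} {A : Finset (Finset (Fin n))} (hA : A ⊆ rsets n r)
    (hT : Typ r D A) {h : Finset (Fin n)} (hh : h ∈ A) (hc1 : 1 ≤ c) (hcr : c ≤ r) :
    (Sc A h r c).card ≤ r * (n ^ (c - 1) * (r * (r * D + 1) ^ 2) ^ r) := by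
  have hsub : Sc A h r c ⊆ h.biUnion fun x0 =>
      ((univ : Finset (Fin n)).powersetCard (c - 1)).biUnion fun T' =>
        powersetCard r ((insert x0 T').biUnion (B2 A)) := by
    intro i hi
    rw [Sc, mem_filter] at hi
    obtain ⟨hir, x0, hx0, T, hx0T, hTc, hiT⟩ := hi
    refine mem_biUnion.2 ⟨x0, hx0, mem_biUnion.2 ⟨T.erase x0, ?_, ?_⟩⟩
    · rw [mem_powersetCard]
      exact ⟨subset_univ _, by rw [card_erase_of_mem hx0T, hTc]⟩
    · rw [mem_powersetCard, insert_erase hx0T]
      exact ⟨hiT, (mem_powersetCard.1 hir).2⟩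
  refine (card_le_card hsub).trans ?_
  rw [← card_of_mem hA hh]
  refine card_biUnion_le_card_mul _ _ _ fun x0 _ => ?_
  rw [card_of_mem hA hh]
  refine (card_biUnion_le_card_mul _ _ ((r * (r * D + 1) ^ 2) ^ r) fun T' hT' => ?_).trans ?_
  · rw [card_powersetCard]
    refine (Nat.choose_le_pow _ _).trans (Nat.pow_le_pow_left ?_ _)
    refine (card_biUnion_le_card_mul _ _ _ fun x _ => B2_card hA hT x).trans ?_
    refine Nat.mul_le_mul_right _ ((card_insert_le _ _).trans ?_)
    rw [(mem_powersetCard.1 hT').2]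
    omega
  · refine Nat.mul_le_mul_right _ ?_
    rw [card_powersetCard, card_univ, Fintype.card_fin]
    exact Nat.choose_le_pow _ _

end J1

open J1

theorem sum_le {n r D : ℕ} (hr : 2 ≤ r) {p : ℝ} (hp0 : 0 ≤ p) (hp1 : p ≤ 1)
    {A : Finset (Finset (Fin n))} (hA : A ⊆ rsets n r) (hT : Typ r D A) (hN : NumCond n r D p)
    {h : Finset (Fin n)} (hh : h ∈ A) :
    ∑ i ∈ (rsets n r).filter (fun i => i ∉ A ∧ 2 ≤ (i ∩ h).card), p ^ (prs i \ shad A).card
      ≤ 8 ^ r + 1 := by
  set S := (rsets n r).filter (fun i => i ∉ A ∧ 2 ≤ (i ∩ h).card) with hS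
  rw [← sum_filter_add_sum_filter_not S (fun i => prs i ⊆ shad A)]
  refine add_le_add ?_ ?_
  · -- covered sets
    obtain ⟨U, hU1, hU2⟩ := covered hr hA hT hh
    have h1 : ∑ i ∈ S.filter (fun i => prs i ⊆ shad A), p ^ (prs i \ shad A).card =
        ((S.filter (fun i => prs i ⊆ shad A)).card : ℝ) := by
      rw [card_eq_sum_ones, Nat.cast_sum]
      refine sum_congr rfl fun i hi => ?_
      rw [sdiff_eq_empty_iff_subset.2 (mem_filter.1 hi).2, card_empty, pow_zero, Nat.cast_one]
    rw [h1]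
    have h2 : S.filter (fun i => prs i ⊆ shad A) ⊆ U.powerset := by
      intro i hi
      rw [mem_filter, hS, mem_filter] at hi
      exact mem_powerset.2 (hU2 i hi.2 hi.1.2.2)
    have h3 := card_le_card h2
    rw [card_powerset] at h3
    have h4 : (2 : ℕ) ^ U.card ≤ 8 ^ r := by
      calc (2 : ℕ) ^ U.card ≤ 2 ^ (3 * r) := Nat.pow_le_pow_right (by norm_num) hU1
        _ = 8 ^ r := by rw [pow_mul]; norm_num
    exact_mod_cast h3.trans h4
  · -- the others
    set II := S.filter (fun i => ¬ prs i ⊆ shad A) with hII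
    let Q : ℕ → Finset (Fin n) → Prop := fun c i =>
      i ∈ Sc A h r c ∧ r * (c - 1) + 1 ≤ 2 * (prs i \ shad A).card
    have hex : ∀ i ∈ II, ∃ c ∈ Icc 1 (r - 1), Q c i := by
      intro i hi
      rw [hII, mem_filter, hS, mem_filter] at hi
      obtain ⟨⟨hir, -, hi2⟩, hi3⟩ := hi
      have hic := (mem_powersetCard.1 hir).2
      obtain ⟨x0, hx0, T, hTi, hx0T, hPD, hTr, hcov⟩ := exists_T hh hic hi2
      have hTne : T.Nonempty := ⟨x0, hx0T⟩
      have hTpos := card_pos.2 hTne
      refine ⟨T.card, mem_Icc.2 ⟨hTpos, by omega⟩, ?_, ?_⟩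
      · rw [Sc, mem_filter]
        refine ⟨hir, x0, hx0, T, hx0T, rfl, fun u hu => ?_⟩
        obtain ⟨t, ht, hut⟩ := hcov u hu
        exact mem_biUnion.2 ⟨t, ht, hut⟩
      · have := unc hTi hPD hTne (by omega) hi3
        rwa [hic] at this
    have hw : ∀ i, 0 ≤ p ^ (prs i \ shad A).card := fun i => pow_nonneg hp0 _
    calc ∑ i ∈ II, p ^ (prs i \ shad A).card
        ≤ ∑ i ∈ II, ∑ c ∈ Icc 1 (r - 1), (if Q c i then p ^ (prs i \ shad A).card else 0) := by
          refine sum_le_sum fun i hi => ?_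
          obtain ⟨c, hc, hQ⟩ := hex i hi
          calc p ^ (prs i \ shad A).card = if Q c i then p ^ (prs i \ shad A).card else 0 := by
                rw [if_pos hQ]
            _ ≤ _ := single_le_sum (f := fun c => if Q c i then p ^ (prs i \ shad A).card else 0)
                (fun c _ => by
                  show (0 : ℝ) ≤ if Q c i then p ^ (prs i \ shad A).card else 0
                  split_ifs
                  · exact hw i
                  · exact le_rfl) hc
      _ = ∑ c ∈ Icc 1 (r - 1), ∑ i ∈ II, (if Q c i then p ^ (prs i \ shad A).card else 0) :=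
          sum_comm
      _ ≤ ∑ c ∈ Icc 1 (r - 1), 1 / (r : ℝ) := by
          refine sum_le_sum fun c hc => ?_
          rw [mem_Icc] at hc
          rw [← sum_filter]
          set m0 := (r * (c - 1) + 2) / 2 with hm0
          have hm0' : r * (c - 1) + 1 ≤ 2 * m0 := by omega
          calc ∑ i ∈ II.filter (fun i => Q c i), p ^ (prs i \ shad A).card
              ≤ ∑ i ∈ II.filter (fun i => Q c i), p ^ m0 := by
                refine sum_le_sum fun i hi => ?_
                have hQ := (mem_filter.1 hi).2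
                refine pow_le_pow_of_le_one hp0 hp1 ?_
                have := hQ.2
                omega
            _ = ((II.filter (fun i => Q c i)).card : ℝ) * p ^ m0 := by
                rw [sum_const, nsmul_eq_mul]
            _ ≤ ((r : ℝ) * (n : ℝ) ^ (c - 1) * ((r : ℝ) * ((r : ℝ) * D + 1) ^ 2) ^ r) * p ^ m0 := by
                refine mul_le_mul_of_nonneg_right ?_ (pow_nonneg hp0 _)
                have h1 : II.filter (fun i => Q c i) ⊆ Sc A h r c := fun i hi =>
                  (mem_filter.1 hi).2.1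
                have h2 := (card_le_card h1).trans (Sc_card hA hT hh hc.1 (by omega))
                have h3 : ((II.filter (fun i => Q c i)).card : ℝ) ≤
                    ((r * (n ^ (c - 1) * (r * (r * D + 1) ^ 2) ^ r) : ℕ) : ℝ) := by
                  exact_mod_cast h2
                refine h3.trans (le_of_eq ?_)
                push_cast
                ring
            _ ≤ 1 / (r : ℝ) := hN c m0 hc.1 (by omega) hm0'
      _ ≤ 1 := by
          rw [sum_const, Nat.card_Icc, nsmul_eq_mul]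
          have hr0 : (0 : ℝ) < r := by exact_mod_cast (by omega : 0 < r)
          rw [mul_one_div, div_le_one hr0]
          exact_mod_cast (by omega : r - 1 + 1 - 1 ≤ r)

end Pool.Agent.TH948.BD
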