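import Mathlib
import Pool.Agent.TH881.RK.Defs
import Pool.Agent.TH881.RQ.Low

/-! The bilinear form for prime tuples (job 4002, for helper881). -/

set_option autoImplicit false

namespace Pool.Agent.TH11.J4002

open Finset Filter Topology
open Pool.Agent.TH881
open Pool.Agent.TH881.RG
open Pool.Agent.TH881.RQ
open Pool.Agent.TH881.RK
open Pool.Agent.H373R2.T7

lemma lp_nonneg (n : ℕ) : 0 ≤ lp n := by
  unfold Pool.Agent.TH881.RK.lp
  split_ifs
  · exact Real.log_natCast_nonneg n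
  · exact le_rfl

/-- Chebyshev's bound for shifted sums -/
lemma rowk (X n : ℕ) (hn : n ≤ X) : ∑ k ∈ Icc 1 X, lp (k + n) ≤ 4 * X := by
  classical
  have h1 : ∑ k ∈ Icc 1 X, lp (k + n) = ∑ q ∈ (Icc 1 X).image (fun k => k + n), lp q := by
    rw [sum_image (fun k _ k' _ h => Nat.add_right_cancel h)]
  rw [h1]
  have h3 : Chebyshev.theta (((2 * X : ℕ) : ℝ)) ≤ 4 * X := by
    have h4 := Chebyshev.theta_le_log4_mul_x (x := ((2 * X : ℕ) : ℝ)) (Nat.cast_nonneg _)
    have h5 : Real.log 4 ≤ 2 := by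
      have h6 : Real.log 4 = 2 * Real.log 2 := by
        rw [show (4 : ℝ) = 2 ^ 2 by norm_num, Real.log_pow]
        push_cast
        ring
      rw [h6]
      have := Real.log_two_lt_d9
      linarith
    have h6 := mul_le_mul_of_nonneg_right h5 (Nat.cast_nonneg (2 * X) : (0 : ℝ) ≤ ((2 * X : ℕ) : ℝ))
    push_cast at h4 h6 ⊢
    linarith
  refine le_trans ?_ h3
  rw [Chebyshev.theta_eq_sum_Icc, Nat.floor_natCast, sum_filter]
  have h4 : ∀ q ∈ Icc 0 (2 * X), (if q.Prime then Real.log (q : ℝ) else 0) = lp q := fun q _ => rfl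
  rw [sum_congr rfl h4]
  apply sum_le_sum_of_subset_of_nonneg
  · intro q hq
    rw [mem_image] at hq
    obtain ⟨N, hN, rfl⟩ := hq
    rw [mem_Icc] at hN ⊢
    omega
  · intro q _ _
    exact lp_nonneg q

open Classical in
/-- the number of the `u` with `u + a` a unit -/
lemma card_u (w : ℕ) (a : ZMod (Wp w)) :
    ((univ.filter (fun u : ZMod (Wp w) => IsUnit (u + a))).card : ℝ) = Wp w * Vz w := by
  have key : (univ.filter (fun u : ZMod (Wp w) => IsUnit (u + a))).card = (UU w).card := by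
    refine Finset.card_bij (fun t _ => t + a) ?_ ?_ ?_
    · intro t ht
      rw [mem_filter] at ht
      exact mem_UU.2 ht.2
    · intro t _ t' _ h
      exact add_right_cancel h
    · intro u hu
      refine ⟨u - a, ?_, sub_add_cancel _ _⟩
      rw [mem_filter]
      refine ⟨mem_univ _, ?_⟩
      rw [sub_add_cancel]
      exact mem_UU.1 hu
  exact ((congrArg (fun n : ℕ => (n : ℝ)) key).trans (card_UU w)).trans (totient_Wp w)

open Classical in
lemma card_gk (m w : ℕ) (a : ZMod (Wp w)) :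
    ((univ.filter (fun t : Fin m → ZMod (Wp w) => gk t a)).card : ℝ) = (Wp w * Vz w) ^ m := by
  have h1 : univ.filter (fun t : Fin m → ZMod (Wp w) => gk t a) =
      Fintype.piFinset (fun _ : Fin m => univ.filter (fun u : ZMod (Wp w) => IsUnit (u + a))) := by
    ext t
    rw [mem_filter, Fintype.mem_piFinset]
    constructor
    · rintro ⟨_, h⟩ j
      rw [mem_filter]
      exact ⟨mem_univ _, h j⟩
    · intro h
      exact ⟨mem_univ _, fun j => (mem_filter.1 (h j)).2⟩
  rw [h1, Fintype.card_piFinset, prod_const, card_univ, Fintype.card_fin]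
  push_cast
  rw [card_u]

open Classical in
/-- the main term on the box -/
lemma rowm (w X : ℕ) (hX : Wp w ≤ X) (a : ZMod (Wp w)) :
    ∑ k ∈ Icc 1 X, (if IsUnit ((k : ZMod (Wp w)) + a) then (Vz w)⁻¹ else 0) ≤ 2 * X := by
  have hW : (0 : ℝ) < Wp w := by exact_mod_cast Wp_pos w
  have hV0 := Vz_pos w
  rw [← sum_filter, sum_const, nsmul_eq_mul]
  have h1 : (((Icc 1 X).filter (fun k : ℕ => IsUnit ((k : ZMod (Wp w)) + a))).card : ℝ) ≤
      ∑ t ∈ univ.filter (fun u : ZMod (Wp w) => IsUnit (u + a)), ((cls w (Icc 1 X) t).card : ℝ) := by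
    have h2 : ((Icc 1 X).filter (fun k : ℕ => IsUnit ((k : ZMod (Wp w)) + a))).card =
        ∑ t ∈ univ.filter (fun u : ZMod (Wp w) => IsUnit (u + a)), (cls w (Icc 1 X) t).card := by
      rw [card_eq_sum_card_fiberwise (f := fun n : ℕ => (n : ZMod (Wp w)))
        (t := univ.filter (fun u : ZMod (Wp w) => IsUnit (u + a))) (by
        intro N hN
        rw [mem_coe, mem_filter] at hN
        rw [mem_coe, mem_filter]
        exact ⟨mem_univ _, hN.2⟩)]
      apply sum_congr rfl
      intro t ht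
      rw [mem_filter] at ht
      congr 1
      ext N
      rw [mem_filter, mem_filter, mem_cls]
      constructor
      · rintro ⟨⟨h3, _⟩, h4⟩
        exact ⟨h3, h4⟩
      · rintro ⟨h3, h4⟩
        exact ⟨⟨h3, by rw [h4]; exact ht.2⟩, h4⟩
    rw [h2, Nat.cast_sum]
  have h2 : ∑ t ∈ univ.filter (fun u : ZMod (Wp w) => IsUnit (u + a)),
      ((cls w (Icc 1 X) t).card : ℝ) ≤
      ∑ t ∈ univ.filter (fun u : ZMod (Wp w) => IsUnit (u + a)), ((X : ℝ) / Wp w + 1) :=
    sum_le_sum (fun t _ => cls_card_le w 0 X (Icc 1 X) (by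
      intro n hn
      rw [mem_Icc] at hn
      rw [mem_Ioc]
      omega) t)
  rw [sum_const, nsmul_eq_mul, card_u] at h2
  have h3 : (Wp w * Vz w) * ((X : ℝ) / Wp w + 1) * (Vz w)⁻¹ = X + Wp w := by
    field_simp
  have h4 := mul_le_mul_of_nonneg_right (h1.trans h2) (inv_nonneg.2 hV0.le)
  rw [h3] at h4
  have h5 : (Wp w : ℝ) ≤ X := by exact_mod_cast hX
  linarith

open Classical in
/-- the difference of the weight and its model -/
noncomputable def dk (m w : ℕ) (N : Fin m → ℕ) (n : ℕ) : ℝ :=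
  (∏ j, lp (N j + n)) -
    (if gk (fun j => (N j : ZMod (Wp w))) (n : ZMod (Wp w)) then (Vz w)⁻¹ ^ m else 0)

open Classical in
lemma gk_prod (m w : ℕ) (N : Fin m → ℕ) (a : ZMod (Wp w)) :
    (if gk (fun j => (N j : ZMod (Wp w))) a then (Vz w)⁻¹ ^ m else 0) =
      ∏ j, (if IsUnit ((N j : ZMod (Wp w)) + a) then (Vz w)⁻¹ else 0) := by
  by_cases h : gk (fun j => (N j : ZMod (Wp w))) a
  · rw [if_pos h]
    have h1 : ∀ j ∈ (univ : Finset (Fin m)),
        (if IsUnit ((N j : ZMod (Wp w)) + a) then (Vz w)⁻¹ else 0) = (Vz w)⁻¹ := by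
      intro j _
      rw [if_pos (h j)]
    rw [prod_congr rfl h1, prod_const, card_univ, Fintype.card_fin]
  · rw [if_neg h]
    unfold gk at h
    push Not at h
    obtain ⟨j, hj⟩ := h
    exact (prod_eq_zero (mem_univ j) (if_neg hj)).symm

/-- a product of logarithms on a class without units vanishes -/
lemma prod_zero (m w : ℕ) (N : Fin m → ℕ) (n : ℕ) (hn : w < n)
    (h : ¬ gk (fun j => (N j : ZMod (Wp w))) (n : ZMod (Wp w))) : ∏ j, lp (N j + n) = 0 := by
  unfold gk at h
  push Not at h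
  obtain ⟨j, hj⟩ := h
  refine prod_eq_zero (mem_univ j) ?_
  unfold Pool.Agent.TH881.RK.lp
  rw [if_neg]
  intro hp
  apply hj
  have h2 : IsUnit (((N j + n : ℕ)) : ZMod (Wp w)) := by
    rw [ZMod.isUnit_iff_coprime, Nat.Prime.coprime_iff_not_dvd hp, prime_dvd_Wp hp]
    omega
  push_cast at h2
  exact h2

open Classical in
theorem bilK (pr : Bool) (m : ℕ) (hm : 1 ≤ m) (hMix : StMixK pr m) (ε : ℝ) (hε : 0 < ε) :
    ∃ w0 : ℕ, ∀ w : ℕ, w0 ≤ w → ∃ X0 : ℕ, ∀ X : ℕ, X0 ≤ X →
    ∀ K : Finset ℕ, (∀ n ∈ K, isArg pr n ∧ √(X : ℝ) < n ∧ n ≤ X) →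
    ∀ E ⊆ Fintype.piFinset (fun _ : Fin m => Icc 1 X),
      |∑ N ∈ E, ∑ n ∈ K, ((∏ j, lp (N j + n)) -
        (if gk (fun j => (N j : ZMod (Wp w))) (n : ZMod (Wp w)) then (Vz w)⁻¹ ^ m else 0))| ≤
        ε * ((X : ℝ) ^ m * ((X : ℝ) / (if pr = true then Real.log X else 1))) := by
  obtain ⟨C, hC⟩ : ∃ C : ℝ, C = 2 * 4 ^ m := ⟨_, rfl⟩
  have hC0 : 0 < C := by rw [hC]; positivity
  obtain ⟨κ, hκd⟩ : ∃ κ : ℝ, κ = min 1 (ε / (2 * C)) := ⟨_, rfl⟩
  have hκ0 : 0 < κ := by rw [hκd]; positivity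
  have hκ1 : κ ≤ 1 := by rw [hκd]; exact min_le_left _ _
  have hκ2 : κ * C ≤ ε / 2 := by
    have h1 : κ ≤ ε / (2 * C) := by rw [hκd]; exact min_le_right _ _
    rw [le_div_iff₀ (by positivity)] at h1
    linarith
  obtain ⟨e, hed⟩ : ∃ e : ℝ, e = min (1 / 2) (ε / 4) := ⟨_, rfl⟩
  have he0 : 0 < e := by rw [hed]; positivity
  have he1 : e ≤ 1 / 2 := by rw [hed]; exact min_le_left _ _
  have he2 : e ≤ ε / 4 := by rw [hed]; exact min_le_right _ _
  obtain ⟨w0, hmix⟩ := hMix κ e hκ0 he0 (by linarith)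
  refine ⟨w0, fun w hw => ?_⟩
  obtain ⟨X1, hX1⟩ := hmix w hw
  obtain ⟨X2, hX2⟩ := KN_class pr w κ hκ0
  refine ⟨X1 + X2 + Wp w + w ^ 2 + 3, ?_⟩
  intro X hX K hK E hE
  change |∑ N ∈ E, ∑ n ∈ K, dk m w N n| ≤ ε * ((X : ℝ) ^ m * tot pr X)
  have hW : (0 : ℝ) < Wp w := by exact_mod_cast Wp_pos w
  have hXr : (3 : ℝ) ≤ X := by exact_mod_cast (by omega : 3 ≤ X)
  have hX0 : (0 : ℝ) < X := by linarith
  have hL0 : 0 < Real.log (X : ℝ) := Real.log_pos (by linarith)
  have hwX : (w : ℝ) ≤ √(X : ℝ) := by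
    apply Real.le_sqrt_of_sq_le
    have h1 : w ^ 2 ≤ X := by omega
    exact_mod_cast h1
  have hV0 := Vz_pos w
  have hppq0 : 0 < ppq pr w X := by
    unfold ppq
    have h1 := AA_card_pos pr w
    apply div_pos hX0
    apply mul_pos h1
    split_ifs
    · exact hL0
    · exact one_pos
  have hKcls : ∀ b ∈ K, (b : ZMod (Wp w)) ∈ AA pr w := fun b hb =>
    arg_class pr w X b hwX (hK b hb).1 (hK b hb).2.1
  have hKw : ∀ b ∈ K, w < b := fun b hb => by
    have := hwX.trans_lt (hK b hb).2.1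
    exact_mod_cast this
  have hKN : K ⊆ KN pr X := by
    intro b hb
    rw [mem_KN]
    exact hK b hb
  -- the decomposition of `K`
  have hdec : ∑ N ∈ E, ∑ n ∈ K, dk m w N n = ∑ a ∈ AA pr w, ∑ N ∈ E, ∑ n ∈ cls w K a, dk m w N n := by
    symm
    rw [sum_comm]
    symm
    apply sum_congr rfl
    intro N _
    rw [← sum_fiberwise_of_maps_to (s := K) (t := AA pr w) (g := fun n : ℕ => (n : ZMod (Wp w))) (fun n hn => hKcls n hn)]
    apply sum_congr rfl
    intro a _
    apply sum_congr _ (fun _ _ => rfl)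
    ext n
    rw [mem_filter, mem_cls]
  -- rows
  have hrow : ∀ n ∈ K, ∑ N ∈ E, |dk m w N n| ≤ C * (X : ℝ) ^ m := by
    intro n hn
    have h1 : ∑ N ∈ E, |dk m w N n| ≤ ∑ N ∈ Fintype.piFinset (fun _ : Fin m => Icc 1 X),
        ((∏ j, lp (N j + n)) +
          ∏ j, (if IsUnit ((N j : ZMod (Wp w)) + (n : ZMod (Wp w))) then (Vz w)⁻¹ else 0)) := by
      refine le_trans (sum_le_sum_of_subset_of_nonneg hE fun N _ _ => abs_nonneg _) ?_
      apply sum_le_sum
      intro N _
      unfold dk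
      rw [gk_prod]
      have h2 : 0 ≤ ∏ j, lp (N j + n) := prod_nonneg fun j _ => lp_nonneg _
      have h3 : 0 ≤ ∏ j, (if IsUnit ((N j : ZMod (Wp w)) + (n : ZMod (Wp w))) then (Vz w)⁻¹ else 0) := by
        apply prod_nonneg
        intro j _
        split_ifs
        · exact inv_nonneg.2 hV0.le
        · exact le_rfl
      rw [abs_le]
      constructor <;> linarith
    refine h1.trans ?_
    rw [sum_add_distrib]
    have h2 : ∑ N ∈ Fintype.piFinset (fun _ : Fin m => Icc 1 X), ∏ j, lp (N j + n) ≤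
        (4 * (X : ℝ)) ^ m := by
      have e1 := prod_univ_sum (fun _ : Fin m => Icc 1 X) (fun _ k => lp (k + n))
      rw [← e1, prod_const, card_univ, Fintype.card_fin]
      exact pow_le_pow_left₀ (sum_nonneg fun k _ => lp_nonneg _) (rowk X n (hK n hn).2.2) m
    have h3 : ∑ N ∈ Fintype.piFinset (fun _ : Fin m => Icc 1 X),
        ∏ j, (if IsUnit ((N j : ZMod (Wp w)) + (n : ZMod (Wp w))) then (Vz w)⁻¹ else 0) ≤
        (2 * (X : ℝ)) ^ m := by
      have e1 := prod_univ_sum (fun _ : Fin m => Icc 1 X)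
        (fun _ k => (if IsUnit ((k : ZMod (Wp w)) + (n : ZMod (Wp w))) then (Vz w)⁻¹ else 0))
      rw [← e1, prod_const, card_univ, Fintype.card_fin]
      refine pow_le_pow_left₀ (sum_nonneg fun k _ => ?_) (rowm w X (by omega) _) m
      split_ifs
      · exact inv_nonneg.2 hV0.le
      · exact le_rfl
    have h4 : (2 * (X : ℝ)) ^ m ≤ (4 * (X : ℝ)) ^ m := pow_le_pow_left₀ (by positivity) (by linarith) m
    rw [hC]
    have h5 : (4 * (X : ℝ)) ^ m = 4 ^ m * (X : ℝ) ^ m := mul_pow _ _ _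
    rw [h5] at h2 h4
    linarith
  -- the classes with few elements
  have hsmall : ∀ a ∈ AA pr w, ((cls w K a).card : ℝ) < κ * ppq pr w X →
      |∑ N ∈ E, ∑ n ∈ cls w K a, dk m w N n| ≤ (κ * C) * ((X : ℝ) ^ m * ppq pr w X) := by
    intro a _ hca
    rw [sum_comm]
    refine (abs_sum_le_sum_abs _ _).trans ?_
    have h1 : ∀ n ∈ cls w K a, |∑ N ∈ E, dk m w N n| ≤ C * (X : ℝ) ^ m := by
      intro n hn
      rw [mem_cls] at hn
      exact (abs_sum_le_sum_abs _ _).trans (hrow n hn.1)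
    calc ∑ n ∈ cls w K a, |∑ N ∈ E, dk m w N n| ≤ ∑ n ∈ cls w K a, C * (X : ℝ) ^ m := sum_le_sum h1
      _ = (cls w K a).card * (C * (X : ℝ) ^ m) := by rw [sum_const, nsmul_eq_mul]
      _ ≤ (κ * ppq pr w X) * (C * (X : ℝ) ^ m) := mul_le_mul_of_nonneg_right hca.le (by positivity)
      _ = _ := by ring
  -- the classes with many elements
  have hlarge : ∀ a ∈ AA pr w, κ * ppq pr w X ≤ ((cls w K a).card : ℝ) →
      |∑ N ∈ E, ∑ n ∈ cls w K a, dk m w N n| ≤ e * ((X : ℝ) ^ m * (cls w K a).card) := by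
    intro a _ hca
    have h1 : ∑ N ∈ E, ∑ n ∈ cls w K a, dk m w N n =
        ∑ t : Fin m → ZMod (Wp w), ∑ N ∈ E.filter (fun N => (fun j => (N j : ZMod (Wp w))) = t),
          ∑ n ∈ cls w K a, dk m w N n := by
      rw [sum_fiberwise]
    have h2 : ∀ t : Fin m → ZMod (Wp w), gk t a →
        |∑ N ∈ E.filter (fun N => (fun j => (N j : ZMod (Wp w))) = t), ∑ n ∈ cls w K a, dk m w N n| ≤
        e * (((X : ℝ) / Wp w) ^ m * ((Vz w)⁻¹ ^ m * (cls w K a).card)) := by
      intro t ht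
      have hrep : ∀ j, ∃ t' : ℕ, 0 < t' ∧ t' ≤ 0 + Wp w ∧ (t' : ZMod (Wp w)) = t j :=
        fun j => exists_rep w 0 (t j)
      choose t' ht1 ht2 ht3 using hrep
      have ht3' : (fun j => (t' j : ZMod (Wp w))) = t := funext ht3
      have h3 := hX1 X (by omega) t' (fun j => ⟨ht1 j, by have := ht2 j; omega⟩) (cls w K a)
        (fun n hn => hK n (mem_cls.1 hn).1)
        (fun n hn n' hn' => by rw [← ZMod.natCast_eq_natCast_iff, (mem_cls.1 hn).2, (mem_cls.1 hn').2])
        (fun n hn => by rw [ht3', (mem_cls.1 hn).2]; exact ht) hca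
        (E.filter (fun N => (fun j => (N j : ZMod (Wp w))) = t)) (by
          intro N hN
          rw [mem_filter] at hN
          rw [Fintype.mem_piFinset]
          intro j
          have h4 := (Fintype.mem_piFinset.1 (hE hN.1)) j
          rw [mem_Icc] at h4
          unfold It
          rw [mem_filter, mem_Ioc]
          refine ⟨by omega, ?_⟩
          rw [← ZMod.natCast_eq_natCast_iff, ht3]
          exact congrFun hN.2 j)
      have h4 : ∑ N ∈ E.filter (fun N => (fun j => (N j : ZMod (Wp w))) = t), ∑ n ∈ cls w K a, dk m w N n =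
          ∑ N ∈ E.filter (fun N => (fun j => (N j : ZMod (Wp w))) = t), ∑ n ∈ cls w K a, ∏ j, lp (N j + n) -
          (E.filter (fun N => (fun j => (N j : ZMod (Wp w))) = t)).card *
            ((Vz w)⁻¹ ^ m * (cls w K a).card) := by
        have h5 : ∑ N ∈ E.filter (fun N => (fun j => (N j : ZMod (Wp w))) = t), ∑ n ∈ cls w K a, dk m w N n =
            ∑ N ∈ E.filter (fun N => (fun j => (N j : ZMod (Wp w))) = t),
              (∑ n ∈ cls w K a, ∏ j, lp (N j + n) - (Vz w)⁻¹ ^ m * (cls w K a).card) := by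
          apply sum_congr rfl
          intro N hN
          rw [mul_comm, ← nsmul_eq_mul, ← sum_const, ← sum_sub_distrib]
          apply sum_congr rfl
          intro n hn
          unfold dk
          rw [(mem_filter.1 hN).2, (mem_cls.1 hn).2, if_pos ht]
        rw [h5, sum_sub_distrib, sum_const, nsmul_eq_mul]
      rw [h4]
      exact h3
    have h3 : ∀ t : Fin m → ZMod (Wp w), ¬ gk t a →
        ∑ N ∈ E.filter (fun N => (fun j => (N j : ZMod (Wp w))) = t), ∑ n ∈ cls w K a, dk m w N n = 0 := by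
      intro t ht
      apply sum_eq_zero
      intro N hN
      apply sum_eq_zero
      intro n hn
      have h4 : ¬ gk (fun j => (N j : ZMod (Wp w))) (n : ZMod (Wp w)) := by
        rw [(mem_filter.1 hN).2, (mem_cls.1 hn).2]
        exact ht
      unfold dk
      rw [if_neg h4, prod_zero m w N n (hKw n (mem_cls.1 hn).1) h4, sub_zero]
    rw [h1, ← sum_filter_add_sum_filter_not univ (fun t => gk t a),
      sum_eq_zero (s := univ.filter (fun t => ¬ gk t a)) (fun t ht => h3 t (mem_filter.1 ht).2), add_zero]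
    refine (abs_sum_le_sum_abs _ _).trans ?_
    calc ∑ t ∈ univ.filter (fun t => gk t a),
          |∑ N ∈ E.filter (fun N => (fun j => (N j : ZMod (Wp w))) = t), ∑ n ∈ cls w K a, dk m w N n|
        ≤ ∑ t ∈ univ.filter (fun t : Fin m → ZMod (Wp w) => gk t a),
            e * (((X : ℝ) / Wp w) ^ m * ((Vz w)⁻¹ ^ m * (cls w K a).card)) := by
          apply sum_le_sum
          intro t ht
          rw [mem_filter] at ht
          exact h2 t ht.2
      _ = e * ((X : ℝ) ^ m * (cls w K a).card) := by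
          rw [sum_const, nsmul_eq_mul, card_gk]
          have h4 : (Wp w * Vz w) ^ m * (((X : ℝ) / Wp w) ^ m * (Vz w)⁻¹ ^ m) = (X : ℝ) ^ m := by
            rw [← mul_pow, ← mul_pow]
            congr 1
            field_simp
          calc (Wp w * Vz w) ^ m * (e * (((X : ℝ) / Wp w) ^ m * ((Vz w)⁻¹ ^ m * (cls w K a).card)))
              = e * (((Wp w * Vz w) ^ m * (((X : ℝ) / Wp w) ^ m * (Vz w)⁻¹ ^ m)) * (cls w K a).card) := by
                ring
            _ = _ := by rw [h4]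
  -- the total number of arguments
  have hKtot : (K.card : ℝ) ≤ 2 * tot pr X := by
    rw [← sum_cls_AA pr w K hKcls, ← AA_ppq pr w X]
    calc ∑ t ∈ AA pr w, ((cls w K t).card : ℝ) ≤ ∑ t ∈ AA pr w, 2 * ppq pr w X := by
          apply sum_le_sum
          intro a ha
          have h1 := hX2 X (by omega) a ha
          have h2 : ((cls w K a).card : ℝ) ≤ (cls w (KN pr X) a).card := by
            exact_mod_cast card_le_card (cls_mono hKN a)
          have h3 : (1 + κ) * ppq pr w X ≤ 2 * ppq pr w X := mul_le_mul_of_nonneg_right (by linarith) hppq0.le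
          linarith
      _ = _ := by
          rw [sum_const, nsmul_eq_mul]
          ring
  have htot0 : 0 < tot pr X := by
    rw [← AA_ppq pr w X]
    exact mul_pos (AA_card_pos pr w) hppq0
  have hXm : (0 : ℝ) < (X : ℝ) ^ m := by positivity
  rw [hdec]
  refine (abs_sum_le_sum_abs _ _).trans ?_
  calc ∑ a ∈ AA pr w, |∑ N ∈ E, ∑ n ∈ cls w K a, dk m w N n|
      ≤ ∑ a ∈ AA pr w, (e * ((X : ℝ) ^ m * (cls w K a).card) + (κ * C) * ((X : ℝ) ^ m * ppq pr w X)) := by
        apply sum_le_sum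
        intro a ha
        have h1 : 0 ≤ e * ((X : ℝ) ^ m * (cls w K a).card) := by positivity
        have h2 : 0 ≤ (κ * C) * ((X : ℝ) ^ m * ppq pr w X) := by positivity
        rcases lt_or_ge ((cls w K a).card : ℝ) (κ * ppq pr w X) with h | h
        · have := hsmall a ha h
          linarith
        · have := hlarge a ha h
          linarith
    _ = e * ((X : ℝ) ^ m * K.card) + (κ * C) * ((X : ℝ) ^ m * ((AA pr w).card * ppq pr w X)) := by
        rw [sum_add_distrib, ← mul_sum, ← mul_sum, sum_cls_AA pr w K hKcls, sum_const, nsmul_eq_mul]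
        ring
    _ ≤ e * ((X : ℝ) ^ m * (2 * tot pr X)) + (ε / 2) * ((X : ℝ) ^ m * tot pr X) := by
        apply add_le_add
        · exact mul_le_mul_of_nonneg_left (mul_le_mul_of_nonneg_left hKtot hXm.le) he0.le
        · rw [AA_ppq]
          exact mul_le_mul_of_nonneg_right hκ2 (by positivity)
    _ ≤ ε * ((X : ℝ) ^ m * tot pr X) := by
        have h1 : 2 * e * ((X : ℝ) ^ m * tot pr X) ≤ (ε / 2) * ((X : ℝ) ^ m * tot pr X) :=
          mul_le_mul_of_nonneg_right (by linarith) (by positivity)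
        linarith

end Pool.Agent.TH11.J4002
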