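import Pool.Agent.TH722.FI.Defs

set_option autoImplicit false

namespace Pool.Agent.TH11.FIRED

open MeasureTheory Set Filter Pool.Agent.TH722.FI
open scoped Topology ENNReal

theorem mp_subtype {X : Type*} [MeasurableSpace X] (μ : Measure X) {Z0 : Set X}
    (hZ : MeasurableSet Z0) (hZ1 : ∀ᵐ x ∂μ, x ∈ Z0) :
    MeasurePreserving (Subtype.val : Z0 → X) (μ.comap Subtype.val) μ := by
  refine ⟨measurable_subtype_coe, ?_⟩
  rw [map_comap_subtype_coe hZ, Measure.restrict_eq_self_of_ae_mem hZ1]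

theorem mp_lift {X : Type*} [MeasurableSpace X] (μ : Measure X) {Z0 : Set X}
    (hZ : MeasurableSet Z0) (hZ1 : ∀ᵐ x ∂μ, x ∈ Z0) {F : X → X} (hF : MeasurePreserving F μ μ)
    (f : Z0 → Z0) (hf : ∀ z, (f z : X) = F z) :
    MeasurePreserving f (μ.comap Subtype.val) (μ.comap Subtype.val) := by
  have hj := mp_subtype μ hZ hZ1
  have hfm : Measurable f := by
    have : f = fun z => ⟨F z, (hf z) ▸ (f z).2⟩ := by
      funext z; exact Subtype.ext (hf z)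
    rw [this]
    exact (hF.measurable.comp measurable_subtype_coe).subtype_mk
  refine ⟨hfm, ?_⟩
  ext B hB
  have hB1 : MeasurableSet (Subtype.val '' B : Set X) := hZ.subtype_image hB
  have e1 : Subtype.val ⁻¹' (Subtype.val '' B : Set X) = B :=
    Set.preimage_image_eq B Subtype.val_injective
  have e2 : f ⁻¹' B = Subtype.val ⁻¹' (F ⁻¹' (Subtype.val '' B : Set X)) := by
    conv_lhs => rw [← e1]
    ext z
    simp only [mem_preimage]
    rw [hf]
  rw [Measure.map_apply hfm hB, e2,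
    hj.measure_preimage (hF.measurable hB1).nullMeasurableSet,
    hF.measure_preimage hB1.nullMeasurableSet]
  conv_rhs => rw [← e1]
  rw [hj.measure_preimage hB1.nullMeasurableSet]

theorem reduction.{u} {r : ℕ} {X Y : Type u} [MeasurableSpace X] [StandardBorelSpace X]
    [MeasurableSpace Y] [StandardBorelSpace Y] (μ : Measure X) (ν : Measure Y)
    [IsProbabilityMeasure μ] [IsProbabilityMeasure ν]
    [MulAction (FreeGroup (Fin r)) X] [MulAction (FreeGroup (Fin r)) Y]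
    (hX : ∀ g : FreeGroup (Fin r), MeasurePreserving (fun x : X => g • x) μ μ)
    (hY : ∀ g : FreeGroup (Fin r), MeasurePreserving (fun y : Y => g • y) ν ν)
    (freeX : ∀ᵐ x ∂μ, ∀ g : FreeGroup (Fin r), g • x = x → g = 1)
    (freeY : ∀ᵐ y ∂ν, ∀ g : FreeGroup (Fin r), g • y = y → g = 1)
    (Φ : X → Y) (Ψ : Y → X) (hΦ : MeasurePreserving Φ μ ν) (hΨ : MeasurePreserving Ψ ν μ)
    (h1 : ∀ᵐ x ∂μ, Ψ (Φ x) = x) (h2 : ∀ᵐ y ∂ν, Φ (Ψ y) = y)
    (horb : ∀ᵐ x ∂μ, Φ '' MulAction.orbit (FreeGroup (Fin r)) x =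
      MulAction.orbit (FreeGroup (Fin r)) (Φ x))
    (α : FreeGroup (Fin r) → X → FreeGroup (Fin r)) (hα : ∀ᵐ x ∂μ, ∀ g, α g x • Φ x = Φ (g • x))
    (β : FreeGroup (Fin r) → Y → FreeGroup (Fin r)) (hβ : ∀ᵐ y ∂ν, ∀ g, β g y • Ψ y = Ψ (g • y))
    (p : ℝ≥0∞) (hα2 : ∀ g, MemLp (fun x => ((α g x).norm : ℝ)) p μ)
    (hβ2 : ∀ g, MemLp (fun y => ((β g y).norm : ℝ)) p ν) :
    ∃ (Z : Type u) (_ : MeasurableSpace Z) (_ : StandardBorelSpace Z) (m : Measure Z)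
      (_ : IsProbabilityMeasure m) (T U : FreeGroup (Fin r) → Z → Z) (j : Z → X) (k : Z → Y)
      (a b : Fin r → Z → FreeGroup (Fin r)),
      FreeAct m T ∧ FreeAct m U ∧ (∀ g z, ∃ h, T g z = U h z) ∧ (∀ g z, ∃ h, U g z = T h z) ∧
      MeasurePreserving j m μ ∧ MeasurePreserving k m ν ∧
      (∀ g z, j (T g z) = g • j z) ∧ (∀ g z, k (U g z) = g • k z) ∧
      (∀ B : Set Z, MeasurableSet B → ∃ B1 : Set X, MeasurableSet B1 ∧ B =ᵐ[m] j ⁻¹' B1) ∧
      (∀ B : Set Z, MeasurableSet B → ∃ B1 : Set Y, MeasurableSet B1 ∧ B =ᵐ[m] k ⁻¹' B1) ∧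
      (∀ i z, T (FreeGroup.of i) z = U (b i z) z) ∧ (∀ i z, U (FreeGroup.of i) z = T (a i z) z) ∧
      (∀ i, MemLp (fun z => ((b i z).norm : ℝ)) p m) ∧
      (∀ i, MemLp (fun z => ((a i z).norm : ℝ)) p m) := by
  haveI : Countable (FreeGroup (Fin r)) := inferInstance
  -- the good set
  let A0 : X → Prop := fun x => Ψ (Φ x) = x ∧ (∀ g : FreeGroup (Fin r), g • x = x → g = 1) ∧
    Φ '' MulAction.orbit (FreeGroup (Fin r)) x = MulAction.orbit (FreeGroup (Fin r)) (Φ x) ∧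
    (∀ g, α g x • Φ x = Φ (g • x)) ∧ (∀ g : FreeGroup (Fin r), g • Φ x = Φ x → g = 1) ∧
    (∀ g : FreeGroup (Fin r), Φ (Ψ (g • Φ x)) = g • Φ x) ∧
    (∀ g, β g (Φ x) • Ψ (Φ x) = Ψ (g • Φ x))
  have hA0 : ∀ᵐ x ∂μ, A0 x := by
    have e1 : ∀ᵐ x ∂μ, ∀ g : FreeGroup (Fin r), g • Φ x = Φ x → g = 1 :=
      hΦ.quasiMeasurePreserving.ae freeY
    have e2 : ∀ᵐ x ∂μ, ∀ g, β g (Φ x) • Ψ (Φ x) = Ψ (g • Φ x) :=
      hΦ.quasiMeasurePreserving.ae hβ
    have e3 : ∀ᵐ y ∂ν, ∀ g : FreeGroup (Fin r), Φ (Ψ (g • y)) = g • y :=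
      ae_all_iff.mpr fun g => (hY g).quasiMeasurePreserving.ae h2
    have e4 : ∀ᵐ x ∂μ, ∀ g : FreeGroup (Fin r), Φ (Ψ (g • Φ x)) = g • Φ x :=
      hΦ.quasiMeasurePreserving.ae e3
    filter_upwards [h1, freeX, horb, hα, e1, e4, e2] with x a1 a2 a3 a4 a5 a6 a7
    exact ⟨a1, a2, a3, a4, a5, a6, a7⟩
  -- measurable invariant conull subset
  let A1 : Set X := (toMeasurable μ {x | ¬ A0 x})ᶜ
  have hA1m : MeasurableSet A1 := (measurableSet_toMeasurable _ _).compl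
  have hA1 : ∀ x ∈ A1, A0 x := by
    intro x hx
    by_contra hn
    exact hx (subset_toMeasurable μ _ hn)
  have hA1c : ∀ᵐ x ∂μ, x ∈ A1 := by
    rw [ae_iff]
    have : {a | a ∉ A1} = toMeasurable μ {x | ¬ A0 x} := by
      ext x; simp [A1]
    rw [this, measure_toMeasurable]
    exact hA0
  let Z0 : Set X := ⋂ g : FreeGroup (Fin r), (fun x : X => g • x) ⁻¹' A1
  have hZ0m : MeasurableSet Z0 := MeasurableSet.iInter fun g => (hX g).measurable hA1m
  have hZ0c : ∀ᵐ x ∂μ, x ∈ Z0 := by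
    have : ∀ᵐ x ∂μ, ∀ g : FreeGroup (Fin r), g • x ∈ A1 :=
      ae_all_iff.mpr fun g => (hX g).quasiMeasurePreserving.ae hA1c
    filter_upwards [this] with x hx
    exact mem_iInter.mpr hx
  have hZ0 : ∀ x ∈ Z0, ∀ g : FreeGroup (Fin r), A0 (g • x) := fun x hx g =>
    hA1 _ (mem_iInter.mp hx g)
  have hZ0' : ∀ x ∈ Z0, A0 x := by
    intro x hx
    have := hZ0 x hx 1
    rwa [one_smul] at this
  have hinv : ∀ x ∈ Z0, ∀ g : FreeGroup (Fin r), g • x ∈ Z0 := by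
    intro x hx g
    refine mem_iInter.mpr fun h => ?_
    change h • g • x ∈ A1
    rw [← mul_smul]
    exact mem_iInter.mp hx (h * g)
  have hU : ∀ x ∈ Z0, ∀ g : FreeGroup (Fin r), Ψ (g • Φ x) ∈ Z0 := by
    intro x hx g
    have hx0 := hZ0' x hx
    have : g • Φ x ∈ Φ '' MulAction.orbit (FreeGroup (Fin r)) x := by
      rw [hx0.2.2.1]; exact ⟨g, rfl⟩
    obtain ⟨w, ⟨h, hw⟩, hw2⟩ := this
    change h • x = w at hw
    rw [← hw2, ← hw, (hZ0 x hx h).1]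
    exact hinv x hx h
  have hj := mp_subtype μ hZ0m hZ0c
  haveI hprob : IsProbabilityMeasure (μ.comap (Subtype.val : Z0 → X)) := by
    constructor
    have := hj.measure_preimage (MeasurableSet.univ (α := X)).nullMeasurableSet
    rw [preimage_univ] at this
    rw [this]; exact measure_univ
  have hk := hΦ.comp hj
  refine ⟨Z0, inferInstance, hZ0m.standardBorel, μ.comap Subtype.val, hprob,
    fun g z => ⟨g • z.1, hinv z.1 z.2 g⟩, fun g z => ⟨Ψ (g • Φ z.1), hU z.1 z.2 g⟩,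
    Subtype.val, Φ ∘ Subtype.val, fun i z => β (FreeGroup.of i) (Φ z.1),
    fun i z => α (FreeGroup.of i) z.1, ?_, ?_, ?_, ?_, hj, hk, ?_, ?_, ?_, ?_, ?_, ?_, ?_, ?_⟩
  · refine ⟨?_, ?_, ?_, ?_⟩
    · intro z; exact Subtype.ext (one_smul _ _)
    · intro g h z; exact Subtype.ext (mul_smul _ _ _)
    · intro g
      exact mp_lift μ hZ0m hZ0c (hX g) _ (fun z => rfl)
    · intro g z h
      exact (hZ0' z.1 z.2).2.1 g (congrArg Subtype.val h)
  · refine ⟨?_, ?_, ?_, ?_⟩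
    · intro z
      apply Subtype.ext
      change Ψ ((1 : FreeGroup (Fin r)) • Φ z.1) = z.1
      rw [one_smul, (hZ0' z.1 z.2).1]
    · intro g h z
      apply Subtype.ext
      change Ψ ((g * h) • Φ z.1) = Ψ (g • Φ (Ψ (h • Φ z.1)))
      rw [(hZ0' z.1 z.2).2.2.2.2.2.1 h, mul_smul]
    · intro g
      exact mp_lift μ hZ0m hZ0c ((hΨ.comp (hY g)).comp hΦ) _ (fun z => rfl)
    · intro g z h
      have e := congrArg Subtype.val h
      change Ψ (g • Φ z.1) = z.1 at e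
      have e2 := (hZ0' z.1 z.2).2.2.2.2.2.1 g
      rw [e] at e2
      exact (hZ0' z.1 z.2).2.2.2.2.1 g e2.symm
  · intro g z
    refine ⟨α g z.1, Subtype.ext ?_⟩
    change g • z.1 = Ψ (α g z.1 • Φ z.1)
    rw [(hZ0' z.1 z.2).2.2.2.1 g, (hZ0 z.1 z.2 g).1]
  · intro g z
    refine ⟨β g (Φ z.1), Subtype.ext ?_⟩
    change Ψ (g • Φ z.1) = β g (Φ z.1) • z.1
    have := (hZ0' z.1 z.2).2.2.2.2.2.2 g
    rw [(hZ0' z.1 z.2).1] at this
    exact this.symm
  · intro g z; rfl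
  · intro g z
    exact (hZ0' z.1 z.2).2.2.2.2.2.1 g
  · intro B hB
    refine ⟨Subtype.val '' B, hZ0m.subtype_image hB, ?_⟩
    exact Filter.EventuallyEq.of_eq (Set.preimage_image_eq B Subtype.val_injective).symm
  · intro B hB
    refine ⟨Ψ ⁻¹' (Subtype.val '' B), hΨ.measurable (hZ0m.subtype_image hB), ?_⟩
    have : (Φ ∘ Subtype.val) ⁻¹' (Ψ ⁻¹' (Subtype.val '' B : Set X)) = B := by
      conv_rhs => rw [← Set.preimage_image_eq B Subtype.val_injective]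
      ext z
      simp only [mem_preimage, Function.comp]
      rw [(hZ0' z.1 z.2).1]
    exact Filter.EventuallyEq.of_eq this.symm
  · intro i z
    apply Subtype.ext
    change (FreeGroup.of i) • z.1 = Ψ (α (FreeGroup.of i) z.1 • Φ z.1)
    rw [(hZ0' z.1 z.2).2.2.2.1, (hZ0 z.1 z.2 _).1]
  · intro i z
    apply Subtype.ext
    change Ψ ((FreeGroup.of i) • Φ z.1) = β (FreeGroup.of i) (Φ z.1) • z.1
    have := (hZ0' z.1 z.2).2.2.2.2.2.2 (FreeGroup.of i)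
    rw [(hZ0' z.1 z.2).1] at this
    exact this.symm
  · intro i
    exact (hα2 (FreeGroup.of i)).comp_measurePreserving hj
  · intro i
    exact (hβ2 (FreeGroup.of i)).comp_measurePreserving hk

end Pool.Agent.TH11.FIRED
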