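import Pool.Agent.TH37.SD.Stmts2

/-!
# The relatively free group of rank five discriminates the variety (job SD-E3)
-/

set_option autoImplicit false

namespace Pool.Agent.TH11.SDE3

open Pool.Agent.TH54.BU Pool.Agent.TH37.SD RegularWreathProduct

/-- `g'` in `WR C'` restricts to `g` in `WR C` along `ι` -/
def Rel {C C' : Type} [Group C] [Group C'] (ι : C →* C') (g : WR C) (g' : WR C') : Prop :=
  g'.right = ι g.right ∧ ∀ c : C, g'.left (ι c) = g.left c

lemma rel_one {C C' : Type} [Group C] [Group C'] (ι : C →* C') : Rel ι (1 : WR C) (1 : WR C') := by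
  refine ⟨?_, fun c => ?_⟩
  · simp
  · simp

lemma rel_mul {C C' : Type} [Group C] [Group C'] (ι : C →* C') {g h : WR C} {g' h' : WR C'}
    (H1 : Rel ι g g') (H2 : Rel ι h h') : Rel ι (g * h) (g' * h') := by
  refine ⟨?_, fun c => ?_⟩
  · rw [mul_right, mul_right, H1.1, H2.1, map_mul]
  · rw [mul_left, mul_left, Pi.mul_apply, Pi.mul_apply, H1.2, H1.1]
    show g.left c * h'.left ((ι g.right)⁻¹ * ι c) = g.left c * h.left (g.right⁻¹ * c)
    rw [← map_inv, ← map_mul, H2.2]

lemma rel_inv {C C' : Type} [Group C] [Group C'] (ι : C →* C') {g : WR C} {g' : WR C'}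
    (H1 : Rel ι g g') : Rel ι g⁻¹ g'⁻¹ := by
  refine ⟨?_, fun c => ?_⟩
  · rw [inv_right, inv_right, H1.1, map_inv]
  · rw [inv_left, inv_left]
    show (g'.left (g'.right * ι c))⁻¹ = (g.left (g.right * c))⁻¹
    rw [H1.1, ← map_mul, H1.2]

lemma rel_lift {C C' X : Type} [Group C] [Group C'] (ι : C →* C') (e : X → WR C) (E : X → WR C')
    (H : ∀ i, Rel ι (e i) (E i)) (w : FreeGroup X) :
    Rel ι (FreeGroup.lift e w) (FreeGroup.lift E w) := by
  induction w using FreeGroup.induction_on with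
  | C1 => rw [map_one, map_one]; exact rel_one ι
  | of x => rw [FreeGroup.lift_apply_of, FreeGroup.lift_apply_of]; exact H x
  | inv_of x h => rw [map_inv, map_inv]; exact rel_inv ι h
  | mul x y hx hy => rw [map_mul, map_mul]; exact rel_mul ι hx hy

/-- the embedding of the free group of rank four in the free group of rank five -/
def k4 : FreeGroup (Fin 4) →* FreeGroup (Fin 5) := FreeGroup.map Fin.castSucc

/-- the elements -/
def ff (n : ℕ) : FreeGroup (Fin 5) :=
  k4 (TW n) * (k4 (XW n) * FreeGroup.of (Fin.last 4) * (k4 (XW n))⁻¹)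

/-- the function on `C'` -/
noncomputable def bet {C C' : Type} [Group C] [Group C'] (ι : C →* C') {s : ℕ} (e : Fin s → WR C)
    (g : Fin s → C') (y : C') : Multiplicative ℂ :=
  open Classical in
  if h : ∃ q : Fin s × C, y = (g q.1)⁻¹ * ι q.2 then
    (e h.choose.1).left ((e h.choose.1).right * h.choose.2) else 1

lemma bet_eq {C C' : Type} [Group C] [Group C'] (ι : C →* C') (hι : Function.Injective ι) {s : ℕ}
    (e : Fin s → WR C) (g : Fin s → C') (hg : ∀ i j : Fin s, i ≠ j → g j * (g i)⁻¹ ∉ ι.range)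
    (i : Fin s) (c : C) : bet ι e g ((g i)⁻¹ * ι c) = (e i).left ((e i).right * c) := by
  have h : ∃ q : Fin s × C, (g i)⁻¹ * ι c = (g q.1)⁻¹ * ι q.2 := ⟨(i, c), rfl⟩
  unfold bet
  rw [dif_pos h]
  have h1 := h.choose_spec
  generalize h.choose = q at h1 ⊢
  obtain ⟨j, d⟩ := q
  have h1' : (g i)⁻¹ * ι c = (g j)⁻¹ * ι d := h1
  show (e j).left ((e j).right * d) = (e i).left ((e i).right * c)
  have h2 : i = j := by
    by_contra hne
    refine hg i j hne ⟨d * c⁻¹, ?_⟩
    have h3 : ι d = g j * ((g i)⁻¹ * ι c) := by rw [h1']; group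
    rw [map_mul, map_inv, h3]
    group
  subst h2
  rw [hι (mul_left_cancel h1')]

lemma bet_tw {C C' : Type} [Group C] [Group C'] (ι : C →* C') (hι : Function.Injective ι) {s : ℕ}
    (e : Fin s → WR C) (g : Fin s → C') (hg : ∀ i j : Fin s, i ≠ j → g j * (g i)⁻¹ ∉ ι.range)
    (z : C) (hz : ∀ a : C, a * z = z * a) (hz' : ∀ a : C', a * ι z = ι z * a) (ζ : ℂ)
    (he : ∀ i, Tw z ζ (e i)) : Tw (ι z) ζ (⟨bet ι e g, 1⟩ : WR C') := by
  intro y
  show Multiplicative.toAdd (bet ι e g (ι z * y)) = ζ * Multiplicative.toAdd (bet ι e g y)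
  by_cases h : ∃ q : Fin s × C, y = (g q.1)⁻¹ * ι q.2
  · obtain ⟨⟨i, c⟩, rfl⟩ := h
    have h1 : ι z * ((g i)⁻¹ * ι c) = (g i)⁻¹ * ι (z * c) := by
      rw [map_mul, ← mul_assoc, ← hz', mul_assoc]
    show Multiplicative.toAdd (bet ι e g (ι z * ((g i)⁻¹ * ι c))) =
      ζ * Multiplicative.toAdd (bet ι e g ((g i)⁻¹ * ι c))
    rw [h1, bet_eq ι hι e g hg, bet_eq ι hι e g hg, ← mul_assoc, hz, mul_assoc, he i]
  · have h' : ¬ ∃ q : Fin s × C, ι z * y = (g q.1)⁻¹ * ι q.2 := by
      rintro ⟨⟨i, c⟩, hq⟩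
      refine h ⟨(i, z⁻¹ * c), ?_⟩
      show y = (g i)⁻¹ * ι (z⁻¹ * c)
      have h2 : y = (ι z)⁻¹ * ((g i)⁻¹ * ι c) := by
        rw [eq_inv_mul_iff_mul_eq]; exact hq
      rw [h2, map_mul, map_inv, eq_inv_mul_iff_mul_eq, eq_inv_mul_iff_mul_eq]
      have h3 := hz' (g i * ((ι z)⁻¹ * ((g i)⁻¹ * ι c)))
      rw [← h3]
      have h4 := hz' (g i)
      have h5 := hz' ((g i)⁻¹ * ι c)
      calc g i * ((ι z)⁻¹ * ((g i)⁻¹ * ι c)) * ι z
          = g i * ((ι z)⁻¹ * (((g i)⁻¹ * ι c) * ι z)) := by group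
        _ = g i * ((ι z)⁻¹ * (ι z * ((g i)⁻¹ * ι c))) := by rw [h5]
        _ = ι c := by group
    unfold bet
    rw [dif_neg h, dif_neg h']
    simp

theorem disc : DiscStmt := by
  intro p _ _ ζ _ hEL s ws hws
  refine ⟨fun i => ff i, fun w hw hlaw => ?_⟩
  refine hws w hw ?_
  intro C _ z hz e he
  obtain ⟨C', _, ι, b, hι, hz', hT, hX⟩ := hEL s C z hz (fun i => (e i).right)
  set g : Fin s → C' := fun i => FreeGroup.lift b (XW i) with hg
  let β : WR C' := ⟨bet ι e g, 1⟩
  let e' : Fin 5 → WR C' := Fin.lastCases β (fun i => inl (b i))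
  have he'1 : ∀ i : Fin 4, e' i.castSucc = inl (b i) := fun i => Fin.lastCases_castSucc _
  have he'2 : e' (Fin.last 4) = β := Fin.lastCases_last
  have hk : ∀ v, FreeGroup.lift e' (k4 v) = inl (FreeGroup.lift b v) := by
    intro v
    have h : (FreeGroup.lift e').comp k4 = (inl : C' →* WR C').comp (FreeGroup.lift b) := by
      ext i <;> simp [k4, he'1]
    exact DFunLike.congr_fun h v
  have h1 := hlaw C' (ι z) hz' e' (fun i => by
    refine Fin.lastCases ?_ (fun j => ?_) i
    · rw [he'2]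
      exact bet_tw ι hι e g hX z hz.cen hz'.cen ζ he
    · rw [he'1]
      intro x
      simp)
  have h2 : FreeGroup.lift e' (FreeGroup.lift (fun i : Fin s => ff i) w) =
      FreeGroup.lift (fun i : Fin s => FreeGroup.lift e' (ff i)) w := by
    have h : (FreeGroup.lift e').comp (FreeGroup.lift (fun i : Fin s => ff i)) =
        FreeGroup.lift (fun i : Fin s => FreeGroup.lift e' (ff i)) := by
      ext i <;> simp
    exact DFunLike.congr_fun h w
  have h3 : ∀ i : Fin s, Rel ι (e i) (FreeGroup.lift e' (ff i)) := by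
    intro i
    have h4 : FreeGroup.lift e' (ff i) = inl (ι (e i).right) * (inl (g i) * β * (inl (g i))⁻¹) := by
      unfold ff
      rw [map_mul, map_mul, map_mul, map_inv, hk, hk, FreeGroup.lift_apply_of, he'2, hT]
    rw [h4]
    refine ⟨?_, fun c => ?_⟩
    · simp [β]
    · have h5 := bet_eq ι hι e g hX i ((e i).right⁻¹ * c)
      rw [map_mul, map_inv] at h5
      simp only [mul_left, left_inl, right_inl, inv_left, Pi.mul_apply, Pi.one_apply, Pi.inv_apply,
        one_mul, mul_one, inv_one]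
      show bet ι e g ((g i)⁻¹ * ((ι (e i).right)⁻¹ * ι c)) = (e i).left c
      rw [h5]
      congr 1
      group
  have h6 := rel_lift ι e _ h3 w
  rw [← h2, h1] at h6
  refine RegularWreathProduct.ext ?_ ?_
  · funext c
    rw [← h6.2 c]
    rfl
  · refine hι ?_
    rw [← h6.1, one_right, one_right, map_one]

end Pool.Agent.TH11.SDE3
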