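import Mathlib
import Pool.Agent.TH109.M.Defs

set_option autoImplicit false
open scoped Classical
namespace Pool.Agent.TH109.M.J
open Pool.Agent.Helper943.LM (UA wpow)
open Pool.Agent.TH109.M
variable {G : Type} [Group G]

namespace FD11

theorem alt_zero {ι M : Type} [AddCommGroup M] (F : ι → List ι → M) (bs : List ι)
    (h : ∀ a ∈ bs, ∀ l, F a l = 0) : alt F bs = 0 := by
  induction bs generalizing F with
  | nil => rfl
  | cons b bs ih =>
    simp only [alt]
    rw [h b (by simp) bs, ih _ (fun a ha l => h a (by simp [ha]) _), sub_zero]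

theorem detA_diag {K : Type} [CommRing K] (n : ℕ) (X : Fin n → G → K) (b : Fin n → G)
    (h : ∀ k l, k ≠ l → X k (b l) = 0) :
    detA (List.ofFn X) (List.ofFn b) = ∏ k, X k (b k) := by
  induction n with
  | zero => simp [detA]
  | succ n ih =>
    rw [List.ofFn_succ, List.ofFn_succ, Fin.prod_univ_succ]
    simp only [detA, alt]
    rw [ih, alt_zero, sub_zero]
    · intro a ha l
      rw [List.mem_ofFn] at ha
      obtain ⟨k, rfl⟩ := ha
      rw [h 0 k.succ (Fin.succ_ne_zero k).symm, zero_mul]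
    · intro k l hkl
      exact h k.succ l.succ (fun e => hkl (Fin.succ_injective _ e))

theorem cupd_tr {K : Type} [CommRing K] (Xs : List (G → K)) (b : G)
    (h : ∀ X ∈ Xs, ∀ g, X (b * g) = X b + X g) (l : List G) :
    cupd Xs (l.map (b * ·)) = cupd Xs l := by
  induction Xs generalizing l with
  | nil => cases l <;> simp [cupd]
  | cons X Xs ih =>
    match l with
    | [] => rfl
    | [g] => rfl
    | g :: k :: l =>
      have := ih (fun X hX => h X (by simp [hX])) (k :: l)
      simp only [List.map_cons] at this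
      simp only [List.map_cons, cupd]
      rw [this, h X (by simp), h X (by simp)]
      ring

theorem rank_lemma {K Λ : Type} [Field K] [Fintype Λ] {P : Type} [Fintype P] (u : Λ → List G → K)
    (c : Λ → Ch G) (κ : List G → P)
    (hκ : ∀ J J', ∀ l ∈ (c J).support, ∀ l' ∈ (c J').support, κ l = κ l' → ∀ I, u I l = u I l')
    (hp : ∀ I J, pa (u I) (c J) = if I = J then 1 else 0) :
    Fintype.card Λ ≤ Fintype.card P := by
  let A : Matrix Λ P K := fun I p =>
    if h : ∃ l, (∃ J, l ∈ (c J).support) ∧ κ l = p then u I h.choose else 0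
  let Bm : Matrix P Λ K := fun p J =>
    ∑ l ∈ (c J).support with κ l = p, ((c J l : ℤ) : K)
  have hA : ∀ I J, ∀ l ∈ (c J).support, A I (κ l) = u I l := by
    intro I J l hl
    have hex : ∃ l', (∃ J, l' ∈ (c J).support) ∧ κ l' = κ l := ⟨l, ⟨J, hl⟩, rfl⟩
    have h1 : A I (κ l) = u I hex.choose := dif_pos hex
    rw [h1]
    obtain ⟨⟨J', hJ'⟩, h3⟩ := hex.choose_spec
    exact hκ J' J _ hJ' l hl h3 I
  have hAB : A * Bm = 1 := by
    ext I J
    rw [Matrix.mul_apply, Matrix.one_apply, ← hp I J]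
    have h1 : pa (u I) (c J) = ∑ l ∈ (c J).support, A I (κ l) * ((c J l : ℤ) : K) := by
      unfold pa
      rw [Finsupp.linearCombination_apply, Finsupp.sum]
      refine Finset.sum_congr rfl fun l hl => ?_
      rw [hA I J l hl, zsmul_eq_mul, mul_comm]
    rw [h1, ← Finset.sum_fiberwise (c J).support κ]
    refine Finset.sum_congr rfl fun p _ => ?_
    simp only [Bm]
    rw [Finset.mul_sum]
    refine Finset.sum_congr rfl fun l hl => ?_
    rw [(Finset.mem_filter.mp hl).2]
  have h1 : (1 : Matrix Λ Λ K).rank = Fintype.card Λ := Matrix.rank_one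
  rw [← h1, ← hAB]
  exact (Matrix.rank_mul_le_left A Bm).trans (Matrix.rank_le_card_width A)

theorem i_zero {M : Type} [AddCommGroup M] (B : MB G M) : B.i 0 = 1 := by
  have := B.i_add 0 0
  rw [add_zero] at this
  exact (left_eq_mul.mp this)

theorem i_neg {M : Type} [AddCommGroup M] (B : MB G M) (a : M) : B.i (-a) = (B.i a)⁻¹ := by
  rw [eq_inv_iff_mul_eq_one, ← B.i_add, neg_add_cancel, i_zero]

theorem i_comm {M : Type} [AddCommGroup M] (B : MB G M) (a b : M) :
    B.i a * B.i b = B.i b * B.i a := by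
  rw [← B.i_add, ← B.i_add, add_comm]

theorem exists_alpha {M : Type} [AddCommGroup M] (B : MB G M) :
    ∃ α : G → M, (∀ b g, α (B.i b * g) = b + α g) ∧ α 1 = 0 := by
  let s : Setoid G :=
    { r := fun g h => ∃ a, B.i a * g = h
      iseqv :=
        { refl := fun g => ⟨0, by rw [i_zero, one_mul]⟩
          symm := by
            rintro g h ⟨a, ha⟩
            exact ⟨-a, by rw [i_neg, ← ha, inv_mul_cancel_left]⟩
          trans := by
            rintro g h k ⟨a, ha⟩ ⟨b, hb⟩
            exact ⟨b + a, by rw [B.i_add, mul_assoc, ha, hb]⟩ } }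
  have h1 : ∀ g : G, ∃ a, B.i a * (Quotient.mk s g).out = g := by
    intro g
    have : s.r (Quotient.mk s g).out g := Quotient.exact (Quotient.out_eq _)
    exact this
  choose a ha using h1
  have h2 : ∀ b g, a (B.i b * g) = b + a g := by
    intro b g
    have e : Quotient.mk s (B.i b * g) = Quotient.mk s g := by
      apply Quotient.sound
      exact s.iseqv.symm ⟨b, rfl⟩
    apply B.i_inj
    have h3 := ha (B.i b * g)
    rw [e] at h3
    apply mul_right_cancel (b := (Quotient.mk s g).out)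
    rw [h3, B.i_add, mul_assoc, ha g]
  refine ⟨fun g => a g - a 1, fun b g => ?_, sub_self _⟩
  change a (B.i b * g) - a 1 = b + (a g - a 1)
  rw [h2]; abel

theorem perm_coset {M : Type} [AddCommGroup M] (B : MB G M) (U : UA G) {w w' : List U.A}
    (h : w.Perm w') : ∃ a, B.i a * U.ev w = U.ev w' := by
  unfold UA.ev
  induction h with
  | nil => exact ⟨0, by simp [i_zero]⟩
  | @cons x l1 l2 _ ih =>
    obtain ⟨a, ha⟩ := ih
    refine ⟨B.ρ (U.mu x) a, ?_⟩
    rw [← B.conj, List.map_cons, List.map_cons, List.prod_cons, List.prod_cons, ← ha]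
    group
  | swap x y l =>
    obtain ⟨a, ha⟩ := B.comm (U.mu x) (U.mu y)
    refine ⟨a, ?_⟩
    rw [ha]
    simp only [List.map_cons, List.prod_cons]
    group
  | trans _ _ ih1 ih2 =>
    obtain ⟨a, ha⟩ := ih1
    obtain ⟨b, hb⟩ := ih2
    exact ⟨b + a, by rw [B.i_add, mul_assoc, ha, hb]⟩

/-- balls of the word metric -/
def WB (S : Set G) (n : ℕ) : Set G :=
  {g | ∃ l : List G, l.length ≤ n ∧ (∀ x ∈ l, x ∈ S) ∧ l.prod = g}

theorem WB_mono (S : Set G) {m n : ℕ} (h : m ≤ n) : WB S m ⊆ WB S n := by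
  rintro g ⟨l, h1, h2, h3⟩
  exact ⟨l, h1.trans h, h2, h3⟩

theorem WB_conj {S : Set G} (hS : ∀ s ∈ S, s⁻¹ ∈ S) {s g : G} (hs : s ∈ S) {n : ℕ}
    (hg : g ∈ WB S n) : s * g * s⁻¹ ∈ WB S (n + 2) := by
  obtain ⟨l, h1, h2, h3⟩ := hg
  refine ⟨s :: (l ++ [s⁻¹]), ?_, ?_, ?_⟩
  · simp; omega
  · intro x hx
    rw [List.mem_cons, List.mem_append, List.mem_singleton] at hx
    rcases hx with rfl | hx | rfl
    · exact hs
    · exact h2 x hx
    · exact hS s hs
  · rw [List.prod_cons, List.prod_append, List.prod_singleton, h3, mul_assoc]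

theorem len_WB (U : UA G) (hlen : LenF U) {S : Set G} (hS : S.Finite) :
    ∃ C0 : ℕ, 1 ≤ C0 ∧ ∀ n, ∀ g ∈ WB S n, len U g ≤ C0 * (n + 1) := by
  obtain ⟨⟨C, hC⟩, -, -⟩ := hlen
  obtain ⟨L, hL⟩ : ∃ L, ∀ s ∈ S, len U s ≤ L := by
    obtain ⟨L, hL⟩ := (hS.image (len U)).bddAbove
    exact ⟨L, fun s hs => hL ⟨s, hs, rfl⟩⟩
  have key : ∀ l : List G, (∀ x ∈ l, x ∈ S) → len U l.prod ≤ len U 1 + C * L * l.length := by
    intro l
    induction l using List.reverseRecOn with
    | nil => intro _; simp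
    | append_singleton l x ih =>
      intro hx
      rw [List.prod_append, List.prod_singleton, List.length_append, List.length_singleton]
      have h1 := hC l.prod x
      have h2 := ih (fun y hy => hx y (by simp [hy]))
      have h3 : C * len U x ≤ C * L := Nat.mul_le_mul_left _ (hL x (hx x (by simp)))
      calc len U (l.prod * x) ≤ len U l.prod + C * len U x := h1
        _ ≤ (len U 1 + C * L * l.length) + C * L := add_le_add h2 h3
        _ = len U 1 + C * L * (l.length + 1) := by ring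
  refine ⟨len U 1 + C * L + 1, by omega, ?_⟩
  rintro n g ⟨l, h1, h2, rfl⟩
  have := key l h2
  have h4 : C * L * l.length ≤ C * L * n := Nat.mul_le_mul_left _ h1
  nlinarith [Nat.zero_le (len U 1 * n), Nat.zero_le n]

section growth

variable {M : Type} [AddCommGroup M] (B : MB G M) {F : Type} [Field F] {E : Type}
  [AddCommGroup E] [Module F E] (j : M →+ E)

/-- span of the image of a ball -/
def Vn (F : Type) [Field F] {E : Type} [AddCommGroup E] [Module F E] (j : M →+ E)
    (S : Set G) (n : ℕ) : Submodule F E :=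
  Submodule.span F (j '' {a | B.i a ∈ WB S n})

theorem Vn_mono (S : Set G) {m n : ℕ} (h : m ≤ n) : Vn B F j S m ≤ Vn B F j S n :=
  Submodule.span_mono (Set.image_mono fun _ ha => WB_mono S h ha)

theorem top_of_eq (ρE : G → (E →ₗ[F] E)) (hspan : Submodule.span F (Set.range j) = ⊤)
    (hj : ∀ g a, j (B.ρ g a) = ρE g (j a)) {S : Set G} (hS : ∀ s ∈ S, s⁻¹ ∈ S)
    (hgen : ∀ g : G, ∃ l : List G, (∀ x ∈ l, x ∈ S) ∧ l.prod = g)
    {S0 : Finset M} (hS0 : ∀ N : AddSubgroup M, ((S0 : Set M) ⊆ N) →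
      (∀ g, ∀ a ∈ N, B.ρ g a ∈ N) → N = ⊤) {n : ℕ} (hn : ∀ a ∈ S0, B.i a ∈ WB S n)
    (heq : Vn B F j S (n + 2) ≤ Vn B F j S n) : Vn B F j S n = ⊤ := by
  have h1 : ∀ s ∈ S, ∀ x ∈ Vn B F j S n, ρE s x ∈ Vn B F j S n := by
    intro s hs x hx
    have hle : Vn B F j S n ≤ (Vn B F j S n).comap (ρE s) := by
      refine Submodule.span_le.mpr ?_
      rintro _ ⟨a, ha, rfl⟩
      change ρE s (j a) ∈ Vn B F j S n
      rw [← hj]
      apply heq
      refine Submodule.subset_span ⟨_, ?_, rfl⟩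
      change B.i (B.ρ s a) ∈ WB S (n + 2)
      rw [← B.conj]
      exact WB_conj hS hs ha
    exact hle hx
  let N : AddSubgroup M := (Vn B F j S n).toAddSubgroup.comap j
  have hN : ∀ a, a ∈ N ↔ j a ∈ Vn B F j S n := fun a => Iff.rfl
  have h2 : ∀ l : List G, (∀ x ∈ l, x ∈ S) → ∀ a ∈ N, B.ρ l.prod a ∈ N := by
    intro l
    induction l with
    | nil => intro _ a ha; simpa using ha
    | cons s l ih =>
      intro hl a ha
      rw [List.prod_cons, map_mul]
      change B.ρ s (B.ρ l.prod a) ∈ N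
      have h3 := ih (fun x hx => hl x (by simp [hx])) a ha
      rw [hN, hj]
      exact h1 s (hl s (by simp)) _ h3
  have hNt : N = ⊤ := by
    refine hS0 N ?_ ?_
    · intro a ha
      exact Submodule.subset_span ⟨a, hn a ha, rfl⟩
    · intro g a ha
      obtain ⟨l, hl, rfl⟩ := hgen g
      exact h2 l hl a ha
  rw [eq_top_iff, ← hspan]
  refine Submodule.span_le.mpr ?_
  rintro _ ⟨a, rfl⟩
  have : a ∈ N := by rw [hNt]; trivial
  exact this

theorem growth (ρE : G → (E →ₗ[F] E)) (hspan : Submodule.span F (Set.range j) = ⊤)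
    (hj : ∀ g a, j (B.ρ g a) = ρE g (j a)) {S : Set G} (hS : ∀ s ∈ S, s⁻¹ ∈ S)
    (hgen : ∀ g : G, ∃ l : List G, (∀ x ∈ l, x ∈ S) ∧ l.prod = g)
    (hfin : ∀ n, (WB S n).Finite) (hfg : FGS B) (hE : ¬ FiniteDimensional F E) :
    ∃ n1 : ℕ, ∀ k : ℕ, ∃ v : Fin k → M, (∀ t, B.i (v t) ∈ WB S (n1 + 2 * k)) ∧
      LinearIndependent F (fun t => j (v t)) := by
  obtain ⟨S0, hS0⟩ := hfg
  have hTf : ∀ n, {a | B.i a ∈ WB S n}.Finite := fun n =>
    (hfin n).preimage (B.i_inj.injOn)
  have hfd : ∀ n, FiniteDimensional F (Vn B F j S n) := fun n =>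
    FiniteDimensional.span_of_finite F ((hTf n).image j)
  obtain ⟨n1, hn1⟩ : ∃ n1, ∀ a ∈ S0, B.i a ∈ WB S n1 := by
    have : ∀ a : M, ∃ n, B.i a ∈ WB S n := by
      intro a
      obtain ⟨l, hl, h2⟩ := hgen (B.i a)
      exact ⟨l.length, l, le_rfl, hl, h2⟩
    choose f hf using this
    exact ⟨S0.sup f, fun a ha => WB_mono S (Finset.le_sup ha) (hf a)⟩
  have hrank : ∀ k, k ≤ Module.finrank F (Vn B F j S (n1 + 2 * k)) := by
    intro k
    induction k with
    | zero => exact Nat.zero_le _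
    | succ k ih =>
      have hlt : Vn B F j S (n1 + 2 * k) < Vn B F j S (n1 + 2 * (k + 1)) := by
        refine lt_of_le_of_ne (Vn_mono B j S (by omega)) ?_
        intro he
        have htop := top_of_eq B j ρE hspan hj hS hgen hS0 (n := n1 + 2 * k)
          (fun a ha => WB_mono S (by omega) (hn1 a ha)) (by
            rw [show n1 + 2 * k + 2 = n1 + 2 * (k + 1) by ring, ← he])
        apply hE
        have h5 := hfd (n1 + 2 * k)
        rw [htop] at h5
        exact Module.finite_def.mpr ((Submodule.fg_top (⊤ : Submodule F E)).mp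
          (Module.finite_def.mp h5))
      haveI := hfd (n1 + 2 * (k + 1))
      have := Submodule.finrank_lt_finrank_of_lt hlt
      omega
  refine ⟨n1, fun k => ?_⟩
  obtain ⟨b, hb1, hb2, hb3⟩ := exists_linearIndependent F (j '' {a | B.i a ∈ WB S (n1 + 2 * k)})
  have hbf : b.Finite := ((hTf (n1 + 2 * k)).image j).subset hb1
  haveI : Fintype b := hbf.fintype
  have hcard : k ≤ Fintype.card b := by
    have h6 := finrank_span_set_eq_card hb3
    rw [hb2] at h6
    have h7 := hrank k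
    unfold Vn at h7
    rw [h6, Set.toFinset_card] at h7
    exact h7
  obtain ⟨e⟩ : Nonempty (Fin k ↪ b) :=
    Function.Embedding.nonempty_of_card_le (by rw [Fintype.card_fin]; exact hcard)
  have h8 : ∀ t : Fin k, ∃ a, B.i a ∈ WB S (n1 + 2 * k) ∧ j a = e t := by
    intro t
    obtain ⟨a, ha, ha2⟩ := hb1 (e t).2
    exact ⟨a, ha, ha2⟩
  choose v hv1 hv2 using h8
  refine ⟨v, hv1, ?_⟩
  have h9 : (fun t => j (v t)) = (Subtype.val : b → E) ∘ e := by
    funext t; exact hv2 t
  rw [h9]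
  exact hb3.comp e e.injective

theorem dual {ι : Type} {x : ι → E} (hx : LinearIndependent F x) :
    ∃ φ : ι → E →ₗ[F] F, ∀ s t, φ s (x t) = if s = t then 1 else 0 := by
  obtain ⟨g, hg⟩ := LinearMap.exists_extend (hx.repr : _ →ₗ[F] (ι →₀ F))
  refine ⟨fun s => (Finsupp.lapply s).comp g, fun s t => ?_⟩
  have h1 : g (x t) = Finsupp.single t 1 := by
    have h2 := LinearMap.congr_fun hg ⟨x t, Submodule.subset_span ⟨t, rfl⟩⟩
    rw [LinearMap.comp_apply, Submodule.subtype_apply] at h2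
    rw [h2]
    exact hx.repr_eq_single t _ rfl
  change (g (x t)) s = _
  rw [h1, Finsupp.single_apply]
  by_cases hst : s = t
  · subst hst; simp
  · rw [if_neg hst, if_neg (fun e => hst e.symm)]

end growth

end FD11

open FD11

theorem fin_dim {M : Type} [AddCommGroup M] (U : UA G) (B : MB G M) (hlen : LenF U)
    (hbb : BoxB U) (hcup : ∀ (K : Type) [Field K], CupB U K) (hfg : FGS B) : FinDimS B := by
  intro F _ E _ _ j ρE hspan hj
  by_contra hE
  haveI := U.finA
  haveI : Fintype U.A := Fintype.ofFinite _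
  -- generators
  let S : Set G := Set.range U.mu ∪ {x | x⁻¹ ∈ Set.range U.mu}
  have hSf : S.Finite := by
    refine (Set.finite_range U.mu).union ?_
    exact (Set.finite_range U.mu).preimage (inv_injective.injOn)
  have hSi : ∀ s ∈ S, s⁻¹ ∈ S := by
    rintro s (hs | hs)
    · right; change s⁻¹⁻¹ ∈ Set.range U.mu; rwa [inv_inv]
    · left; exact hs
  have hgen : ∀ g : G, ∃ l : List G, (∀ x ∈ l, x ∈ S) ∧ l.prod = g := by
    intro g
    refine ⟨(nf U g).map U.mu, ?_, nf_ev U g⟩
    intro x hx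
    rw [List.mem_map] at hx
    obtain ⟨a, -, rfl⟩ := hx
    exact Or.inl ⟨a, rfl⟩
  obtain ⟨C0, hC0, hWB⟩ := len_WB U hlen hSf
  have hfin : ∀ n, (WB S n).Finite := fun n =>
    (hlen.2.2 (C0 * (n + 1))).subset fun g hg => hWB n g hg
  obtain ⟨n1, hgr⟩ := growth B j ρE hspan hj hSi hgen hfin hfg hE
  obtain ⟨α, hα, hα1⟩ := exists_alpha B
  -- constants
  set r : ℕ := Fintype.card U.A with hr
  obtain ⟨C, W, hW, hbox⟩ := hbb (r + 1)
  haveI : Fintype W := hW.fintype
  set w : ℕ := Fintype.card W with hw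
  set Q : ℕ := C * (C0 * (n1 + 2 * (r + 1) + 1)) + 1 with hQ
  set d : ℕ := Q ^ r * (w + 1) ^ (r + 1) + 1 with hd
  obtain ⟨v, hv, hvi⟩ := hgr ((r + 1) * d)
  set n' : ℕ := C0 * (n1 + 2 * ((r + 1) * d) + 1) with hn'
  have hlenv : ∀ t, len U (B.i (v t)) ≤ n' := fun t => hWB _ _ (hv t)
  have hn'1 : 1 ≤ n' := by
    rw [hn']
    exact Nat.one_le_iff_ne_zero.mpr (Nat.mul_ne_zero (by omega) (by omega))
  obtain ⟨φ, hφ⟩ := dual hvi
  let e : Fin (r + 1) × Fin d ≃ Fin ((r + 1) * d) := finProdFinEquiv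
  let X : Fin ((r + 1) * d) → G → F := fun t g => φ t (j (α g))
  have hX : ∀ t b g, X t (B.i b * g) = X t (B.i b) + X t g := by
    intro t b g
    simp only [X]
    have h1 : α (B.i b) = b := by
      have := hα b 1
      rw [mul_one, hα1, add_zero] at this
      exact this
    rw [hα, h1, map_add, map_add]
  have hXv : ∀ s t, X s (B.i (v t)) = if s = t then 1 else 0 := by
    intro s t
    simp only [X]
    have h1 : α (B.i (v t)) = v t := by
      have := hα (v t) 1
      rw [mul_one, hα1, add_zero] at this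
      exact this
    rw [h1, hφ s t]
    by_cases hst : s = t
    · rw [if_pos hst, if_pos hst]
    · rw [if_neg hst, if_neg hst]
  let u : (Fin (r + 1) → Fin d) → List G → F := fun I =>
    cupd (List.ofFn fun l => X (e (l, I l)))
  let c : (Fin (r + 1) → Fin d) → Ch G := fun J =>
    box U (List.ofFn fun l => B.i (v (e (l, J l))))
  have hp : ∀ I J, pa (u I) (c J) = if I = J then 1 else 0 := by
    intro I J
    have h1 : pa (u I) (c J) = detA (List.ofFn fun l => X (e (l, I l)))
        (List.ofFn fun l => B.i (v (e (l, J l)))) := by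
      refine hcup F _ _ (by rw [List.length_ofFn, List.length_ofFn]) ?_ ?_
      · intro a ha b hb
        rw [List.mem_ofFn] at ha hb
        obtain ⟨k, rfl⟩ := ha
        obtain ⟨l, rfl⟩ := hb
        exact i_comm B _ _
      · intro Y hY b hb g
        rw [List.mem_ofFn] at hY hb
        obtain ⟨k, rfl⟩ := hY
        obtain ⟨l, rfl⟩ := hb
        exact hX _ _ _
    rw [h1, detA_diag]
    · by_cases hIJ : I = J
      · subst hIJ
        rw [if_pos rfl]
        refine Finset.prod_eq_one fun k _ => ?_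
        rw [hXv, if_pos rfl]
      · rw [if_neg hIJ]
        obtain ⟨k, hk⟩ := Function.ne_iff.mp hIJ
        refine Finset.prod_eq_zero (Finset.mem_univ k) ?_
        rw [hXv, if_neg]
        intro he
        have := e.injective he
        exact hk (Prod.mk.inj this).2
    · intro k l hkl
      rw [hXv, if_neg]
      intro he
      have := e.injective he
      exact hkl (Prod.mk.inj this).1
  have hsupp : ∀ J, ∀ l ∈ (c J).support, l.length = r + 1 + 1 ∧
      (∀ x ∈ l, len U x ≤ C * n') ∧ ∀ x ∈ l, ∀ y ∈ l, x⁻¹ * y ∈ W := by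
    intro J
    refine (hbox n' _ hn'1 (by rw [List.length_ofFn]) ?_).2
    intro b hb
    rw [List.mem_ofFn] at hb
    obtain ⟨l, rfl⟩ := hb
    exact hlenv _
  let κ : List G → (U.A → Fin (C * n' + 1)) × (Fin (r + 1) → Option W) := fun l =>
    (fun a => ⟨min ((nf U (l.getD 0 1)).count a) (C * n'), by omega⟩,
      fun k => if h : (l.getD 0 1)⁻¹ * l.getD (k + 1) 1 ∈ W then some ⟨_, h⟩ else none)
  have hcardle := rank_lemma u c κ (by
    intro J J' l hl l' hl' hκ I
    obtain ⟨h1, h2, h3⟩ := hsupp J l hl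
    obtain ⟨h1', h2', h3'⟩ := hsupp J' l' hl'
    have hget : ∀ {l : List G}, l.length = r + 1 + 1 → ∀ k, k < r + 1 + 1 → l.getD k 1 ∈ l := by
      intro l hl k hk
      rw [List.getD_eq_getElem _ _ (by omega)]
      exact List.getElem_mem _
    have hm0 := hget h1 0 (by omega)
    have hm0' := hget h1' 0 (by omega)
    obtain ⟨hκ1, hκ2⟩ := Prod.mk.inj hκ
    have hperm : (nf U (l.getD 0 1)).Perm (nf U (l'.getD 0 1)) := by
      rw [List.perm_iff_count]
      intro a
      have h4 := congrFun hκ1 a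
      rw [Fin.mk.injEq] at h4
      have h5 : (nf U (l.getD 0 1)).count a ≤ C * n' :=
        (List.count_le_length).trans (h2 _ hm0)
      have h6 : (nf U (l'.getD 0 1)).count a ≤ C * n' :=
        (List.count_le_length).trans (h2' _ hm0')
      rw [min_eq_left h5, min_eq_left h6] at h4
      exact h4
    obtain ⟨a, ha⟩ := perm_coset B U hperm
    rw [nf_ev, nf_ev] at ha
    have hl'eq : l' = l.map (B.i a * ·) := by
      refine List.ext_getElem (by rw [List.length_map, h1, h1']) ?_
      intro k hk1 hk2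
      rw [List.getElem_map]
      rw [List.length_map] at hk2
      rw [← List.getD_eq_getElem l' 1 hk1, ← List.getD_eq_getElem l 1 hk2]
      rcases k with _ | k
      · exact ha.symm
      · have hk3 : k < r + 1 := by omega
        have h4 := congrFun hκ2 ⟨k, hk3⟩
        have h5 : (l.getD 0 1)⁻¹ * l.getD (k + 1) 1 ∈ W := h3 _ hm0 _ (hget h1 (k + 1) (by omega))
        have h6 : (l'.getD 0 1)⁻¹ * l'.getD (k + 1) 1 ∈ W :=
          h3' _ hm0' _ (hget h1' (k + 1) (by omega))
        simp only at h4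
        rw [dif_pos h5, dif_pos h6] at h4
        have h7 : (l.getD 0 1)⁻¹ * l.getD (k + 1) 1 = (l'.getD 0 1)⁻¹ * l'.getD (k + 1) 1 :=
          congrArg Subtype.val (Option.some.inj h4)
        calc l'.getD (k + 1) 1 = l'.getD 0 1 * ((l'.getD 0 1)⁻¹ * l'.getD (k + 1) 1) := by group
          _ = (B.i a * l.getD 0 1) * ((l.getD 0 1)⁻¹ * l.getD (k + 1) 1) := by rw [← h7, ha]
          _ = B.i a * l.getD (k + 1) 1 := by group
    rw [hl'eq]
    simp only [u]
    rw [cupd_tr]
    intro Y hY g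
    rw [List.mem_ofFn] at hY
    obtain ⟨k, rfl⟩ := hY
    exact hX _ _ _) (by
    intro I J
    rw [hp I J]
    by_cases hIJ : I = J
    · rw [if_pos hIJ, if_pos hIJ]
    · rw [if_neg hIJ, if_neg hIJ])
  rw [Fintype.card_prod, Fintype.card_fun, Fintype.card_fun, Fintype.card_fun, Fintype.card_fin,
    Fintype.card_fin, Fintype.card_fin, Fintype.card_option, ← hr, ← hw] at hcardle
  -- numerics
  have hd1 : 1 ≤ d := by rw [hd]; omega
  have hQ1 : C * n' + 1 ≤ Q * d := by
    rw [hQ, hn']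
    have h1 : C0 * (n1 + 2 * ((r + 1) * d) + 1) ≤ (C0 * (n1 + 2 * (r + 1) + 1)) * d := by
      rw [mul_assoc]
      refine Nat.mul_le_mul_left _ ?_
      nlinarith [Nat.zero_le n1]
    calc C * (C0 * (n1 + 2 * ((r + 1) * d) + 1)) + 1
        ≤ C * ((C0 * (n1 + 2 * (r + 1) + 1)) * d) + d :=
          add_le_add (Nat.mul_le_mul_left _ h1) hd1
      _ = (C * (C0 * (n1 + 2 * (r + 1) + 1)) + 1) * d := by ring
  have hfinal : d ^ (r + 1) ≤ (Q ^ r * (w + 1) ^ (r + 1)) * d ^ r := by
    calc d ^ (r + 1) ≤ (C * n' + 1) ^ r * (w + 1) ^ (r + 1) := hcardle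
      _ ≤ (Q * d) ^ r * (w + 1) ^ (r + 1) :=
        Nat.mul_le_mul_right _ (Nat.pow_le_pow_left hQ1 r)
      _ = (Q ^ r * (w + 1) ^ (r + 1)) * d ^ r := by rw [mul_pow]; ring
  have hdpos : 0 < d ^ r := pow_pos hd1 r
  rw [pow_succ, mul_comm] at hfinal
  have := Nat.le_of_mul_le_mul_right hfinal hdpos
  omega

end Pool.Agent.TH109.M.J
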