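import Pool.Agent.TH605.AP.WF

/-!
# Circles and Hermitian vectors (job 2839)
-/

set_option autoImplicit false

open Set Topology Filter

namespace Pool.Agent.TH605.AP

namespace Circ11

/-- the Hermitian vector of the circle `h⁻¹ • RL` -/
noncomputable def vec (h : Matrix.GeneralLinearGroup (Fin 2) ℂ) : HV where
  k := (h 0 0).im * (h 1 0).re - (h 0 0).re * (h 1 0).im
  p := -((h 0 0).im * (h 1 1).re + (h 0 1).im * (h 1 0).re - (h 0 0).re * (h 1 1).im
    - (h 0 1).re * (h 1 0).im) / 2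
  q := -((h 0 0).re * (h 1 1).re - (h 0 1).im * (h 1 0).im + (h 0 0).im * (h 1 1).im
    - (h 0 1).re * (h 1 0).re) / 2
  c := (h 0 1).im * (h 1 1).re - (h 0 1).re * (h 1 1).im

lemma coe_mem_RL (z : ℂ) : (z : OnePoint ℂ) ∈ RL ↔ z.im = 0 := by
  constructor
  · rintro (h | ⟨x, hx⟩)
    · exact absurd h (OnePoint.coe_ne_infty z)
    · have h1 : (x : ℂ) = z := OnePoint.coe_injective hx
      rw [← h1, Complex.ofReal_im]
  · intro h
    right
    refine ⟨z.re, ?_⟩
    have h1 : ((z.re : ℝ) : ℂ) = z := Complex.ext (by simp) (by simp [h])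
    exact congrArg OnePoint.some h1

lemma infty_mem_RL : (OnePoint.infty : OnePoint ℂ) ∈ RL := Or.inl rfl

lemma div_im_zero (x y : ℂ) (hy : y ≠ 0) : (x / y).im = 0 ↔ x.im * y.re - x.re * y.im = 0 := by
  have h : Complex.normSq y ≠ 0 := fun h => hy (Complex.normSq_eq_zero.1 h)
  rw [Complex.div_im, ← sub_div, div_eq_zero_iff, or_iff_left h]

lemma E_infty (V : HV) : E V (OnePoint.infty : OnePoint ℂ) = V.k := rfl

lemma E_coe (V : HV) (z : ℂ) : E V (z : OnePoint ℂ) =
    V.k * (z.re ^ 2 + z.im ^ 2) - 2 * (V.p * z.re + V.q * z.im) + V.c := rfl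

lemma smul_mem_RL (h : Matrix.GeneralLinearGroup (Fin 2) ℂ) (z : OnePoint ℂ) :
    h • z ∈ RL ↔ E (vec h) z = 0 := by
  induction z using OnePoint.rec with
  | infty =>
    rw [OnePoint.smul_infty_eq_ite, E_infty]
    split_ifs with h0
    · simp [infty_mem_RL, vec, h0]
    · rw [coe_mem_RL, div_im_zero _ _ h0]
      rfl
  | coe z =>
    rw [OnePoint.smul_some_eq_ite, E_coe]
    have key : (vec h).k * (z.re ^ 2 + z.im ^ 2) - 2 * ((vec h).p * z.re + (vec h).q * z.im)
        + (vec h).c = (h 0 0 * z + h 0 1).im * (h 1 0 * z + h 1 1).re -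
          (h 0 0 * z + h 0 1).re * (h 1 0 * z + h 1 1).im := by
      simp only [vec, Complex.add_im, Complex.add_re, Complex.mul_im, Complex.mul_re]
      ring
    rw [key]
    split_ifs with h0
    · simp [infty_mem_RL, h0]
    · rw [coe_mem_RL, div_im_zero _ _ h0]

lemma mem_image (h : Matrix.GeneralLinearGroup (Fin 2) ℂ) :
    (fun w : OnePoint ℂ => h⁻¹ • w) '' RL = {z | E (vec h) z = 0} := by
  ext z
  rw [Set.mem_ofPred_eq, ← smul_mem_RL]
  constructor
  · rintro ⟨w, hw, rfl⟩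
    simpa using hw
  · intro hz
    exact ⟨h • z, hz, by simp⟩

lemma vec_pos (h : Matrix.GeneralLinearGroup (Fin 2) ℂ) :
    (vec h).k * (vec h).c < (vec h).p ^ 2 + (vec h).q ^ 2 := by
  have h1 : (h : Matrix (Fin 2) (Fin 2) ℂ).det ≠ 0 := h.det_ne_zero
  rw [Matrix.det_fin_two] at h1
  have h2 : 0 < Complex.normSq (h 0 0 * h 1 1 - h 0 1 * h 1 0) := Complex.normSq_pos.2 h1
  have h3 : (vec h).p ^ 2 + (vec h).q ^ 2 - (vec h).k * (vec h).c =
      Complex.normSq (h 0 0 * h 1 1 - h 0 1 * h 1 0) / 4 := by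
    simp only [vec, Complex.normSq_apply, Complex.sub_im, Complex.sub_re, Complex.mul_im,
      Complex.mul_re]
    ring
  have h4 : 0 < (vec h).p ^ 2 + (vec h).q ^ 2 - (vec h).k * (vec h).c := by
    rw [h3]
    positivity
  linarith

lemma cj_eq {z : OnePoint ℂ} (hz : z ∈ RL) : cj z = z := by
  rcases hz with rfl | ⟨x, rfl⟩
  · rfl
  · exact congrArg OnePoint.some (Complex.conj_ofReal x)

/-- the circle with vector `V` proportional to `vec h` -/
lemma isCirc_of (h : Matrix.GeneralLinearGroup (Fin 2) ℂ) (V : HV) (μ : ℝ) (hμ : μ ≠ 0)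
    (hk : (vec h).k = μ * V.k) (hp : (vec h).p = μ * V.p) (hq : (vec h).q = μ * V.q)
    (hc : (vec h).c = μ * V.c) : IsCirc {z | E V z = 0} := by
  refine ⟨h⁻¹, ?_⟩
  rw [mem_image]
  ext z
  rw [Set.mem_ofPred_eq, Set.mem_ofPred_eq]
  have : E (vec h) z = μ * E V z := by
    induction z using OnePoint.rec with
    | infty => rw [E_infty, E_infty, hk]
    | coe z =>
      rw [E_coe, E_coe, hk, hp, hq, hc]
      ring
  rw [this, mul_eq_zero, or_iff_right hμ]

end Circ11

open Circ11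

theorem cf : CF := by
  refine ⟨fun i => ?_, ?_, ?_, ?_⟩
  · fin_cases i
    · refine isCirc_of (Matrix.GeneralLinearGroup.mkOfDetNeZero !![-Complex.I, 1; 1, 0]
        (by simp [Matrix.det_fin_two_of])) _ (-1 / 2) (by norm_num) ?_ ?_ ?_ ?_ <;>
        simp [vec, vC, Matrix.GeneralLinearGroup.mkOfDetNeZero] <;> norm_num
    · refine isCirc_of (Matrix.GeneralLinearGroup.mkOfDetNeZero !![-Complex.I, Complex.I + 1; 1, -1]
        (by simp [Matrix.det_fin_two_of])) _ (-1 / 2) (by norm_num) ?_ ?_ ?_ ?_ <;>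
        simp [vec, vC, Matrix.GeneralLinearGroup.mkOfDetNeZero] <;> norm_num
    · refine isCirc_of 1 _ (-1 / 2) (by norm_num) ?_ ?_ ?_ ?_ <;>
        simp [vec, vC] <;> norm_num
    · refine isCirc_of (Matrix.GeneralLinearGroup.mkOfDetNeZero !![1, Complex.I; 0, 1]
        (by simp [Matrix.det_fin_two_of])) _ (1 / 2) (by norm_num) ?_ ?_ ?_ ?_ <;>
        simp [vec, vC, Matrix.GeneralLinearGroup.mkOfDetNeZero] <;> norm_num
  · rintro V ⟨g0, rfl⟩ g
    refine ⟨g * g0, ?_⟩
    rw [Set.image_image]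
    simp only [mul_smul]
  · rintro V ⟨g0, rfl⟩ i
    refine ⟨M i * cjG g0, ?_⟩
    rw [Set.image_image]
    refine Set.image_congr fun x hx => ?_
    rw [mul_smul, s, cj, OnePoint.map_smul]
    congr 1
    change _ • cj x = _
    rw [cj_eq hx]
    rfl
  · rintro V ⟨g, rfl⟩
    refine ⟨vec g⁻¹, vec_pos _, ?_⟩
    rw [← Circ11.mem_image, inv_inv]

end Pool.Agent.TH605.AP
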