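import Pool.Agent.TH317.CC.Geo

/-!
# Replacing an arc of a closed curve; additivity of the length (job 2576)
-/

set_option autoImplicit false

universe u

namespace Pool.Agent.TH317.CC

namespace ArcSwapAux

lemma coe_add_one (t : ℝ) : ((t + 1 : ℝ) : UnitAddCircle) = (t : UnitAddCircle) := by
  rw [AddCircle.coe_add, AddCircle.coe_period, add_zero]

variable {M : Type u} [MetricSpace M] (f : UnitAddCircle → M)

lemma var_split {a b c : ℝ} (hab : a ≤ b) (hbc : b ≤ c) (g : ℝ → M) :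
    eVariationOn g (Set.Icc a c) = eVariationOn g (Set.Icc a b) + eVariationOn g (Set.Icc b c) := by
  have h := eVariationOn.Icc_add_Icc g (s := Set.univ) hab hbc (Set.mem_univ b)
  simp only [Set.univ_inter] at h
  exact h.symm

lemma var_shift (a b : ℝ) : eVariationOn (fun t : ℝ => f (t : UnitAddCircle)) (Set.Icc (a + 1) (b + 1)) =
    eVariationOn (fun t : ℝ => f (t : UnitAddCircle)) (Set.Icc a b) := by
  have h := eVariationOn.comp_eq_of_monotoneOn (fun t : ℝ => f (t : UnitAddCircle))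
    (t := Set.Icc a b) (fun x : ℝ => x + 1) (fun x _ y _ hxy => by simpa using hxy)
  rw [Set.image_add_const_Icc] at h
  rw [← h]
  congr 1
  funext t
  simp only [Function.comp]
  rw [coe_add_one]

lemma var_shift_nat (n : ℕ) (a b : ℝ) :
    eVariationOn (fun t : ℝ => f (t : UnitAddCircle)) (Set.Icc (a + n) (b + n)) =
    eVariationOn (fun t : ℝ => f (t : UnitAddCircle)) (Set.Icc a b) := by
  induction n with
  | zero => simp
  | succ n ih =>
    rw [Nat.cast_succ, ← add_assoc, ← add_assoc, var_shift, ih]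

lemma var_shift_int (n : ℤ) (a b : ℝ) :
    eVariationOn (fun t : ℝ => f (t : UnitAddCircle)) (Set.Icc (a + n) (b + n)) =
    eVariationOn (fun t : ℝ => f (t : UnitAddCircle)) (Set.Icc a b) := by
  obtain ⟨m, rfl | rfl⟩ := n.eq_nat_or_neg
  · have := var_shift_nat f m a b
    simpa using this
  · have := var_shift_nat f m (a + ((-(m : ℤ) : ℤ) : ℝ)) (b + ((-(m : ℤ) : ℤ) : ℝ))
    rw [← this]
    congr 2 <;> push_cast <;> ring

end ArcSwapAux

open ArcSwapAux

theorem arc_swap {M : Type u} [MetricSpace M] (f : C(UnitAddCircle, M)) (c d : ℝ) (hcd : c < d)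
    (hd : d ≤ c + 1) (G : ℝ → ℝ → M)
    (hG : ContinuousOn (Function.uncurry G) (Set.Icc 0 1 ×ˢ Set.Icc c d))
    (h0 : ∀ t ∈ Set.Icc c d, G 0 t = f (t : UnitAddCircle))
    (hc : ∀ s ∈ Set.Icc (0 : ℝ) 1, G s c = f (c : UnitAddCircle))
    (hd' : ∀ s ∈ Set.Icc (0 : ℝ) 1, G s d = f (d : UnitAddCircle)) :
    ∃ H : C(unitInterval × UnitAddCircle, M), (∀ x, H (0, x) = f x) ∧
      (∀ (s : unitInterval), ∀ t ∈ Set.Icc c d, H (s, (t : UnitAddCircle)) = G s t) ∧
      (∀ (s : unitInterval), ∀ t ∈ Set.Icc d (c + 1),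
        H (s, (t : UnitAddCircle)) = f (t : UnitAddCircle)) := by
  have clampE : ∀ t : ℝ, c ≤ t → t ≤ d → max c (min t d) = t := by
    intro t h1 h2
    rw [min_eq_left h2, max_eq_right h1]
  let h : ℝ × unitInterval → M := fun p =>
    if p.1 ≤ d then G p.2 (max c (min p.1 d)) else f (p.1 : UnitAddCircle)
  have hcont : Continuous h := by
    refine Continuous.if_le ?_ ?_ continuous_fst continuous_const ?_
    · have h1 : Continuous fun p : ℝ × unitInterval => (((p.2 : ℝ), max c (min p.1 d)) : ℝ × ℝ) := by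
        fun_prop
      have h2 : ∀ p : ℝ × unitInterval, (((p.2 : ℝ), max c (min p.1 d)) : ℝ × ℝ) ∈
          Set.Icc (0 : ℝ) 1 ×ˢ Set.Icc c d := by
        intro p
        refine ⟨p.2.2, le_max_left _ _, max_le hcd.le (min_le_right _ _)⟩
      exact hG.comp_continuous h1 h2
    · exact f.continuous.comp ((AddCircle.continuous_mk' (1 : ℝ)).comp continuous_fst)
    · intro p hp
      rw [hp, clampE d hcd.le le_rfl]
      exact hd' _ p.2.2
  let F : C(ℝ, C(unitInterval, M)) := ContinuousMap.curry ⟨h, hcont⟩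
  have hF : ∀ t s, F t s = h (t, s) := fun t s => rfl
  have hlow : ∀ t (s : unitInterval), t ∈ Set.Icc c d → h (t, s) = G s t := by
    intro t s ht
    simp only [h]
    rw [if_pos ht.2, clampE t ht.1 ht.2]
  have hhigh : ∀ t (s : unitInterval), t ∈ Set.Icc d (c + 1) → h (t, s) = f (t : UnitAddCircle) := by
    intro t s ht
    by_cases h1 : t ≤ d
    · have h2 : t = d := le_antisymm h1 ht.1
      subst h2
      rw [hlow t s ⟨hcd.le, le_rfl⟩]
      exact hd' _ s.2
    · simp only [h]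
      rw [if_neg h1]
  have hper : F c = F (c + 1) := by
    ext s
    rw [hF, hF, hlow c s ⟨le_rfl, hcd.le⟩, hhigh (c + 1) s ⟨hd, le_rfl⟩, coe_add_one]
    exact hc _ s.2
  have hl : Continuous (AddCircle.liftIco (1 : ℝ) c F) :=
    AddCircle.liftIco_continuous hper F.continuous.continuousOn
  have hval : ∀ t ∈ Set.Icc c (c + 1), AddCircle.liftIco (1 : ℝ) c F (t : UnitAddCircle) = F t := by
    intro t ht
    rcases lt_or_eq_of_le ht.2 with h1 | h1
    · exact AddCircle.liftIco_coe_apply ⟨ht.1, h1⟩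
    · subst h1
      rw [coe_add_one, ← hper]
      exact AddCircle.liftIco_coe_apply ⟨le_rfl, by linarith⟩
  refine ⟨⟨fun p => AddCircle.liftIco (1 : ℝ) c F p.2 p.1, ?_⟩, ?_, ?_, ?_⟩
  · have h1 : Continuous fun p : unitInterval × UnitAddCircle =>
        ((AddCircle.liftIco (1 : ℝ) c F p.2, p.1) : C(unitInterval, M) × unitInterval) :=
      (hl.comp continuous_snd).prodMk continuous_fst
    exact continuous_eval.comp h1
  · intro x
    obtain ⟨t, ht, rfl⟩ : ∃ t ∈ Set.Ico c (c + 1), (t : UnitAddCircle) = x := by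
      refine ⟨(AddCircle.equivIco (1 : ℝ) c x : ℝ), (AddCircle.equivIco (1 : ℝ) c x).2, ?_⟩
      exact AddCircle.coe_equivIco
    show AddCircle.liftIco (1 : ℝ) c F (t : UnitAddCircle) 0 = _
    rw [hval t ⟨ht.1, ht.2.le⟩, hF]
    rcases le_or_gt t d with h1 | h1
    · rw [hlow t 0 ⟨ht.1, h1⟩]
      exact h0 t ⟨ht.1, h1⟩
    · exact hhigh t 0 ⟨h1.le, ht.2.le⟩
  · intro s t ht
    show AddCircle.liftIco (1 : ℝ) c F (t : UnitAddCircle) s = _
    rw [hval t ⟨ht.1, ht.2.trans hd⟩, hF]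
    exact hlow t s ht
  · intro s t ht
    show AddCircle.liftIco (1 : ℝ) c F (t : UnitAddCircle) s = _
    rw [hval t ⟨hcd.le.trans ht.1, ht.2⟩, hF]
    exact hhigh t s ht

theorem clen_eq {M : Type u} [MetricSpace M] (f : UnitAddCircle → M) (c : ℝ) :
    clen f = eVariationOn (fun t : ℝ => f (t : UnitAddCircle)) (Set.Icc c (c + 1)) := by
  unfold clen
  obtain ⟨r, n, hr0, hr1, hc⟩ : ∃ (r : ℝ) (n : ℤ), 0 ≤ r ∧ r < 1 ∧ c = r + n :=
    ⟨Int.fract c, ⌊c⌋, Int.fract_nonneg c, Int.fract_lt_one c, (Int.fract_add_floor c).symm⟩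
  have e : c + 1 = (r + 1) + n := by rw [hc]; ring
  rw [e, hc, var_shift_int f n r (r + 1), var_split hr1.le (by linarith : (1 : ℝ) ≤ r + 1),
    var_split (c := (1 : ℝ)) hr0 hr1.le]
  have h := var_shift f 0 r
  rw [zero_add] at h
  rw [h, add_comm]

theorem clen_split {M : Type u} [MetricSpace M] (f : UnitAddCircle → M) (c d : ℝ) (hcd : c ≤ d)
    (hd : d ≤ c + 1) :
    clen f = eVariationOn (fun t : ℝ => f (t : UnitAddCircle)) (Set.Icc c d) +
      eVariationOn (fun t : ℝ => f (t : UnitAddCircle)) (Set.Icc d (c + 1)) := by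
  rw [clen_eq f c]
  exact var_split hcd hd _

end Pool.Agent.TH317.CC
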