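import Pool.Agent.TH844.DL.Defs

/-!
# Hankel determinants in a Lagrange basis (Finset version, job DL-ARCH LAGR)
-/

set_option autoImplicit false

open Polynomial

namespace Pool.Agent.TH844.DL

namespace LagrAux

/-- coefficient matrix -/
noncomputable def cf {m : ℕ} (p : Fin m → ℝ[X]) : Matrix (Fin m) (Fin m) ℝ :=
  Matrix.of fun i j => (p i).coeff j

theorem gram_eq {m : ℕ} (T : ℝ[X] →ₗ[ℝ] ℝ) (p : Fin m → ℝ[X])
    (hd : ∀ i, (p i).natDegree < m) :
    (Matrix.of fun i j : Fin m => T (p i * p j)) =
      cf p * (Matrix.of fun i j : Fin m => T (X ^ ((i : ℕ) + (j : ℕ)))) * (cf p).transpose := by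
  ext i j
  rw [Matrix.mul_apply]
  simp only [Matrix.mul_apply, cf, Matrix.of_apply, Matrix.transpose_apply]
  have h1 : p i * p j = ∑ y : Fin m, ∑ x : Fin m,
      ((p i).coeff x * (p j).coeff y) • (X : ℝ[X]) ^ ((x : ℕ) + (y : ℕ)) := by
    conv_lhs => rw [as_sum_range' (p i) m (hd i), as_sum_range' (p j) m (hd j)]
    rw [← Fin.sum_univ_eq_sum_range (fun k => monomial k ((p i).coeff k)),
      ← Fin.sum_univ_eq_sum_range (fun k => monomial k ((p j).coeff k)), Finset.sum_mul_sum,
      Finset.sum_comm]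
    refine Finset.sum_congr rfl fun y _ => Finset.sum_congr rfl fun x _ => ?_
    rw [monomial_mul_monomial, smul_eq_C_mul, C_mul_X_pow_eq_monomial]
  rw [h1, map_sum]
  refine Finset.sum_congr rfl fun y _ => ?_
  rw [map_sum, Finset.sum_mul]
  refine Finset.sum_congr rfl fun x _ => ?_
  rw [map_smul, smul_eq_mul]
  ring

theorem prod_sq (m : ℕ) (f : Fin m → Fin m → ℝ) (hf : ∀ i j, f i j = f j i) :
    ∏ i : Fin m, ∏ j ∈ Finset.univ.erase i, f i j =
      (∏ i : Fin m, ∏ j ∈ Finset.Ioi i, f j i) ^ 2 := by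
  have h1 : ∀ i : Fin m, ∏ j ∈ Finset.univ.erase i, f i j =
      (∏ j ∈ Finset.Ioi i, f i j) * ∏ j ∈ Finset.Iio i, f i j := by
    intro i
    rw [← Finset.prod_union]
    · refine Finset.prod_congr ?_ fun _ _ => rfl
      ext j
      simp only [Finset.mem_erase, Finset.mem_univ, and_true, Finset.mem_union, Finset.mem_Ioi,
        Finset.mem_Iio]
      exact ne_iff_lt_or_gt.trans or_comm
    · rw [Finset.disjoint_left]
      intro j hj hj'
      rw [Finset.mem_Ioi] at hj
      rw [Finset.mem_Iio] at hj'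
      exact lt_asymm hj hj'
  rw [Finset.prod_congr rfl fun i _ => h1 i, Finset.prod_mul_distrib, pow_two]
  congr 1
  · exact Finset.prod_congr rfl fun i _ => Finset.prod_congr rfl fun j _ => hf i j
  · rw [Finset.prod_comm' (t' := Finset.univ) (s' := fun j => Finset.Ioi j)]
    intro i j
    simp

end LagrAux

open LagrAux

theorem A_lagr : S_lagr := by
  intro Y T A hA hT
  set m := Y.card with hm
  set ν : Fin m → ℝ := fun i => ((Y.equivFin).symm i : ℝ) with hν
  have hinj : Function.Injective ν := fun i j hij =>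
    (Y.equivFin).symm.injective (Subtype.ext hij)
  have hmem : ∀ i, ν i ∈ Y := fun i => ((Y.equivFin).symm i).2
  have himg : Finset.univ.image ν = Y := by
    ext y
    rw [Finset.mem_image]
    constructor
    · rintro ⟨i, -, rfl⟩
      exact hmem i
    · intro hy
      exact ⟨Y.equivFin ⟨y, hy⟩, Finset.mem_univ _, by simp [hν]⟩
  have herase : ∀ i, Y.erase (ν i) = (Finset.univ.erase i).image ν := by
    intro i
    rw [Finset.image_erase hinj, himg]
  have hdeg : ∀ i, (lag Y (ν i)).natDegree < m := by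
    intro i
    unfold lag
    rw [natDegree_prod_of_monic _ _ fun j _ => monic_X_sub_C _]
    simp only [natDegree_X_sub_C, Finset.sum_const, smul_eq_mul, mul_one]
    rw [Finset.card_erase_of_mem (hmem i)]
    have := i.2
    omega
  set l : Fin m → ℝ[X] := fun i => lag Y (ν i) with hl
  set H : Matrix (Fin m) (Fin m) ℝ := Matrix.of fun i j : Fin m => T (X ^ ((i : ℕ) + (j : ℕ)))
    with hH
  have hgram := gram_eq T l hdeg
  -- evaluation
  have hev : cf l * (Matrix.vandermonde ν).transpose =
      Matrix.diagonal fun i => (l i).eval (ν i) := by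
    ext i j
    rw [Matrix.mul_apply]
    simp only [cf, Matrix.of_apply, Matrix.transpose_apply, Matrix.vandermonde_apply]
    have h1 : ∑ k : Fin m, (l i).coeff k * (ν j) ^ (k : ℕ) = (l i).eval (ν j) := by
      rw [eval_eq_sum_range' (hdeg i), ← Fin.sum_univ_eq_sum_range
        (fun k => (l i).coeff k * (ν j) ^ k)]
    rw [h1, Matrix.diagonal_apply]
    split_ifs with h
    · rw [h]
    · rw [hl]
      simp only
      unfold lag
      rw [eval_prod]
      refine Finset.prod_eq_zero (i := ν j) (Finset.mem_erase.2 ⟨fun e => h (hinj e).symm, hmem j⟩) ?_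
      simp
  have hV : (Matrix.vandermonde ν).det ≠ 0 := Matrix.det_vandermonde_ne_zero_iff.2 hinj
  set P : ℝ := ∏ i : Fin m, ∏ j ∈ Finset.univ.erase i, |ν i - ν j| with hP
  have hPV : P = |(Matrix.vandermonde ν).det| ^ 2 := by
    rw [hP, prod_sq m (fun i j => |ν i - ν j|) (fun i j => abs_sub_comm _ _),
      Matrix.det_vandermonde, Finset.abs_prod]
    congr 1
    exact Finset.prod_congr rfl fun i _ => (Finset.abs_prod _ _).symm
  have hdiag : |∏ i : Fin m, (l i).eval (ν i)| = P := by
    rw [Finset.abs_prod, hP]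
    refine Finset.prod_congr rfl fun i _ => ?_
    rw [hl]
    simp only
    unfold lag
    rw [eval_prod, herase, Finset.prod_image (fun a _ b _ hab => hinj hab), Finset.abs_prod]
    refine Finset.prod_congr rfl fun j _ => ?_
    rw [eval_sub, eval_X, eval_C]
  have hcf : |(cf l).det| = |(Matrix.vandermonde ν).det| := by
    have h1 := congrArg Matrix.det hev
    rw [Matrix.det_mul, Matrix.det_transpose, Matrix.det_diagonal] at h1
    have h2 := congrArg abs h1
    rw [abs_mul, hdiag, hPV, pow_two] at h2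
    exact mul_right_cancel₀ (abs_ne_zero.2 hV) h2
  have hprod : ∏ y ∈ Y, ∏ z ∈ Y.erase y, |y - z| = P := by
    rw [hP]
    conv_lhs => rw [← himg]
    rw [Finset.prod_image (fun a _ b _ hab => hinj hab)]
    refine Finset.prod_congr rfl fun i _ => ?_
    rw [himg, herase, Finset.prod_image (fun a _ b _ hab => hinj hab)]
  rw [hprod]
  have hdet : |H.det| * P = |(Matrix.of fun i j : Fin m => T (l i * l j)).det| := by
    rw [hgram, Matrix.det_mul, Matrix.det_mul, Matrix.det_transpose, abs_mul, abs_mul, hcf, hPV]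
    ring
  rw [hdet]
  have h1 := Matrix.det_le (A := Matrix.of fun i j : Fin m => T (l i * l j))
    (abv := AbsoluteValue.abs) (x := A) (fun i j => hT _ (hmem i) _ (hmem j))
  rw [Fintype.card_fin, nsmul_eq_mul] at h1
  exact h1

end Pool.Agent.TH844.DL
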