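import Pool.Agent.TH694.FV.Defs2

/-!
# Legs in a model (job 2475)
-/

set_option autoImplicit false

namespace Pool.Agent.TH11.FVLegs

open Pool.Agent.TH694.FV SimpleGraph

section aux
variable {V : Type} {G T : SimpleGraph V} {R : V → V → SimpleGraph V}

lemma append_path {u v w : V} {p : G.Walk u v} {q : G.Walk v w} (hp : p.IsPath) (hq : q.IsPath)
    (h : ∀ a ∈ p.support, a ∈ q.support → a = v) : (p.append q).IsPath := by
  rw [Walk.isPath_def, Walk.support_append]
  rw [List.nodup_append]
  refine ⟨hp.support_nodup, (hq.support_nodup).tail, ?_⟩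
  intro a ha b hb hab
  subst hab
  have h1 := h a ha (List.mem_of_mem_tail hb)
  subst h1
  have h2 := hq.support_nodup
  rw [Walk.support_eq_cons] at h2
  exact (List.nodup_cons.1 h2).1 hb

lemma sup_of_mem {u v : V} (huv : u ≠ v) (r : G.Walk u v) {a : V} (ha : a ∈ r.support) :
    a ∈ G.support := by
  induction r with
  | nil => exact absurd rfl huv
  | cons h p ih =>
    rename_i x y z
    rw [Walk.support_cons, List.mem_cons] at ha
    rcases ha with rfl | ha
    · exact ⟨y, h⟩
    · by_cases hyz : y = z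
      · subst hyz
        cases p with
        | nil =>
          rw [Walk.support_nil, List.mem_singleton] at ha
          subst ha
          exact ⟨x, h.symm⟩
        | cons h' p' =>
          rw [Walk.support_cons, List.mem_cons] at ha
          rcases ha with rfl | ha
          · exact ⟨x, h.symm⟩
          · -- use a general statement
            obtain ⟨n, hn, hn'⟩ := Walk.mem_support_iff_exists_getVert.1 ha
            rcases Nat.eq_zero_or_pos n with h0 | h0
            · subst h0
              rw [Walk.getVert_zero] at hn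
              subst hn
              exact ⟨_, h'.symm⟩
            · obtain ⟨m, rfl⟩ : ∃ m, n = m + 1 := ⟨n - 1, by omega⟩
              have := p'.adj_getVert_succ (i := m) (by omega)
              rw [hn] at this
              exact ⟨_, this.symm⟩
      · exact ih hyz ha

/-- lift of a path with a given first part -/
lemma lift_cons (M : Model G T R) {u v z : V} (h : T.Adj u v) (p : T.Walk v z)
    (hp : (Walk.cons h p).IsPath) (r : (R u v).Walk u v) (hr : r.IsPath)
    (q : G.Walk v z) (hq : q.IsPath) (hlen : p.length ≤ q.length)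
    (hs : ∀ a ∈ q.support, a = v ∨ ∃ d ∈ p.darts, a ∈ (R d.fst d.snd).support) :
    ∃ q' : G.Walk u z, q'.IsPath ∧ (Walk.cons h p).length ≤ q'.length ∧
      ∀ a ∈ q'.support, a ∈ r.support ∨ (a = v ∨ ∃ d ∈ p.darts, a ∈ (R d.fst d.snd).support) := by
  have huv : u ≠ v := h.ne
  have hup : u ∉ p.support := ((Walk.cons_isPath_iff _ _).1 hp).2
  refine ⟨(r.mapLe (M.le u v h)).append q, ?_, ?_, ?_⟩
  · refine append_path ((Walk.mapLe_isPath (M.le u v h)).2 hr) hq ?_
    intro a ha ha'
    rw [Walk.support_mapLe_eq_support] at ha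
    rcases hs a ha' with rfl | ⟨d, hd, hda⟩
    · rfl
    · have h1 := sup_of_mem huv r ha
      have hd1 := p.dart_fst_mem_support_of_mem_darts hd
      have hd2 := p.dart_snd_mem_support_of_mem_darts hd
      have hne : s(u, v) ≠ s(d.fst, d.snd) := by
        intro he
        rw [Sym2.eq_iff] at he
        rcases he with ⟨h2, -⟩ | ⟨h2, -⟩
        · exact hup (h2 ▸ hd1)
        · exact hup (h2 ▸ hd2)
      obtain ⟨h2, h3⟩ := M.disj u v d.fst d.snd a h d.adj hne h1 hda
      rcases h2 with rfl | h2
      · rcases h3 with h3 | h3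
        · exact absurd (h3 ▸ hd1) hup
        · exact absurd (h3 ▸ hd2) hup
      · exact h2
  · rw [Walk.length_append, Walk.length_cons]
    have h1 : 1 ≤ (r.mapLe (M.le u v h)).length := by
      rw [Nat.one_le_iff_ne_zero]
      intro h0
      exact huv (Walk.eq_of_length_eq_zero h0)
    omega
  · intro a ha
    rw [Walk.mem_support_append_iff] at ha
    rcases ha with ha | ha
    · rw [Walk.support_mapLe_eq_support] at ha
      exact Or.inl ha
    · exact Or.inr (hs a ha)

/-- lift of a path -/
lemma lift (M : Model G T R) {u z : V} (p : T.Walk u z) (hp : p.IsPath) :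
    ∃ q : G.Walk u z, q.IsPath ∧ p.length ≤ q.length ∧
      ∀ a ∈ q.support, a = u ∨ ∃ d ∈ p.darts, a ∈ (R d.fst d.snd).support := by
  classical
  induction p with
  | nil =>
    refine ⟨Walk.nil, Walk.IsPath.nil, le_rfl, ?_⟩
    intro a ha
    rw [Walk.support_nil, List.mem_singleton] at ha
    exact Or.inl ha
  | cons h p ih =>
    rename_i x y w
    obtain ⟨q, hq, hlen, hs⟩ := ih ((Walk.cons_isPath_iff _ _).1 hp).1
    obtain ⟨r, hr⟩ := (M.reach x y h).exists_isPath
    obtain ⟨q', h1, h2, h3⟩ := lift_cons M h p hp r hr q hq hlen hs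
    refine ⟨q', h1, h2, ?_⟩
    intro a ha
    have hd : (⟨(x, y), h⟩ : T.Dart) ∈ (Walk.cons h p).darts := by
      rw [Walk.darts_cons]
      exact List.mem_cons_self
    rcases h3 a ha with h4 | h4 | ⟨d, hd', h4⟩
    · exact Or.inr ⟨_, hd, sup_of_mem h.ne r h4⟩
    · subst h4
      exact Or.inr ⟨_, hd, sup_of_mem h.ne r (Walk.end_mem_support r)⟩
    · refine Or.inr ⟨d, ?_, h4⟩
      rw [Walk.darts_cons]
      exact List.mem_cons_of_mem _ hd'

/-- different legs -/
lemma legs_disj (M : Model G T R) {m L : ℕ} {h : V} {z : Fin m → V} {p : ∀ i, T.Walk h (z i)}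
    (hp : Legs T m L h z p) {i j : Fin m} (hij : i ≠ j) {a : V}
    (hi : a = h ∨ ∃ d ∈ (p i).darts, a ∈ (R d.fst d.snd).support)
    (hj : a = h ∨ ∃ d ∈ (p j).darts, a ∈ (R d.fst d.snd).support) : a = h := by
  rcases hi with hi | ⟨d, hd, hda⟩
  · exact hi
  rcases hj with hj | ⟨d', hd', hda'⟩
  · exact hj
  have a1 := (p i).dart_fst_mem_support_of_mem_darts hd
  have a2 := (p i).dart_snd_mem_support_of_mem_darts hd
  have b1 := (p j).dart_fst_mem_support_of_mem_darts hd'
  have b2 := (p j).dart_snd_mem_support_of_mem_darts hd'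
  have hne : s(d.fst, d.snd) ≠ s(d'.fst, d'.snd) := by
    intro he
    rw [Sym2.eq_iff] at he
    have hadj := d.adj.ne
    rcases he with ⟨h1, h2⟩ | ⟨h1, h2⟩
    · have c1 := hp.2.2 i j hij d.fst a1 (h1 ▸ b1)
      have c2 := hp.2.2 i j hij d.snd a2 (h2 ▸ b2)
      exact hadj (c1.trans c2.symm)
    · have c1 := hp.2.2 i j hij d.fst a1 (h1 ▸ b2)
      have c2 := hp.2.2 i j hij d.snd a2 (h2 ▸ b1)
      exact hadj (c1.trans c2.symm)
  obtain ⟨h1, h2⟩ := M.disj _ _ _ _ a d.adj d'.adj hne hda hda'
  refine hp.2.2 i j hij a ?_ ?_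
  · rcases h1 with h1 | h1 <;> rw [h1] <;> assumption
  · rcases h2 with h2 | h2 <;> rw [h2] <;> assumption

/-- a path with only one neighbour of the first vertex -/
lemma short_path {u v : V} (hr : G.Reachable u v) : ∃ r : G.Walk u v, r.IsPath ∧
    ∀ a ∈ r.support, G.Adj u a → a = r.getVert 1 := by
  classical
  obtain ⟨r, hr⟩ := hr.exists_walk_length_eq_dist
  refine ⟨r, r.isPath_of_length_eq_dist hr, ?_⟩
  intro a ha hadj
  have h1 := SimpleGraph.dist_le (Walk.cons hadj (r.dropUntil a ha))
  have h2 : (r.takeUntil a ha).length + (r.dropUntil a ha).length = r.length := by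
    conv_rhs => rw [← r.take_spec ha]
    rw [Walk.length_append]
  have h3 := Walk.getVert_length_takeUntil ha
  rw [Walk.length_cons] at h1
  have h4 : (r.takeUntil a ha).length ≠ 0 := by
    intro h0
    exact hadj.ne (Walk.eq_of_length_eq_zero h0)
  have h5 : (r.takeUntil a ha).length = 1 := by omega
  rw [h5] at h3
  exact h3.symm

end aux

section main

variable {V : Type} [Fintype V] [DecidableEq V] {G T : SimpleGraph V} {R : V → V → SimpleGraph V}

omit [Fintype V] [DecidableEq V] in
/-- Legs of `T` give legs of `G`. -/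
theorem Model.legs (M : Model G T R) {m L : ℕ} {h : V} {z : Fin m → V} {p : ∀ i, T.Walk h (z i)}
    (hp : Legs T m L h z p) : ∃ q : ∀ i, G.Walk h (z i), Legs G m L h z q := by
  choose q h1 h2 h3 using fun i => lift M (p i) (hp.1 i)
  refine ⟨q, h1, fun i => (hp.2.1 i).trans (h2 i), ?_⟩
  intro i j hij a hi hj
  exact legs_disj M hp hij (h3 i a hi) (h3 j a hj)

omit [Fintype V] [DecidableEq V] in
/-- Three legs of `T`, each with only one neighbour of `v`, give three legs of `G` avoiding a
further neighbour of `v`. -/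
theorem Model.legs_extra (M : Model G T R) {L : ℕ} (hL : 1 ≤ L) {v : V} {z : Fin 3 → V}
    {p : ∀ i, T.Walk v (z i)} (hp : Legs T 3 L v z p)
    (hs : ∀ i, ∀ u ∈ (p i).support, T.Adj v u → u = (p i).snd)
    (hfat : (∃ s : Finset V, s.card = 4 ∧ ∀ u ∈ s, T.Adj v u) ∨
      ∃ w a b, T.Adj v w ∧ a ≠ b ∧ (R v w).Adj v a ∧ (R v w).Adj v b) :
    ∃ q : ∀ i, G.Walk v (z i), Legs G 3 L v z q ∧ ∃ b, G.Adj v b ∧ ∀ i, b ∉ (q i).support := by
  classical
  choose q h1 h2 h3 using fun i => lift M (p i) (hp.1 i)
  have hleg : Legs G 3 L v z q := ⟨h1, fun i => (hp.2.1 i).trans (h2 i), fun i j hij a hi hj =>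
    legs_disj M hp hij (h3 i a hi) (h3 j a hj)⟩
  -- an unused neighbour
  have key : ∀ u, T.Adj v u → (∀ i, u ≠ (p i).snd) →
      ∃ b, G.Adj v b ∧ ∀ i, b ∉ (q i).support := by
    intro u hu hne
    have hup : ∀ i, u ∉ (p i).support := fun i hi => hne i (hs i u hi hu)
    obtain ⟨r, hr⟩ := (M.reach v u hu).exists_isPath
    have hnil : 0 < r.length := by
      rw [Nat.pos_iff_ne_zero]
      intro h0
      exact hu.ne (Walk.eq_of_length_eq_zero h0)
    have hadj := r.adj_getVert_succ (i := 0) hnil
    rw [Walk.getVert_zero, zero_add] at hadj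
    refine ⟨r.getVert 1, M.le v u hu hadj, ?_⟩
    intro i hi
    rcases h3 i _ hi with h4 | ⟨d, hd, h4⟩
    · exact hadj.ne h4.symm
    · have a1 := (p i).dart_fst_mem_support_of_mem_darts hd
      have a2 := (p i).dart_snd_mem_support_of_mem_darts hd
      have hne' : s(v, u) ≠ s(d.fst, d.snd) := by
        intro he
        rw [Sym2.eq_iff] at he
        rcases he with ⟨-, h5⟩ | ⟨-, h5⟩
        · exact hup i (h5 ▸ a2)
        · exact hup i (h5 ▸ a1)
      obtain ⟨h5, h6⟩ := M.disj v u _ _ (r.getVert 1) hu d.adj hne' ⟨v, hadj.symm⟩ h4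
      have h7 : r.getVert 1 = u := h5.resolve_left (fun h => hadj.ne h.symm)
      rw [h7] at h6
      rcases h6 with h6 | h6
      · exact hup i (h6 ▸ a1)
      · exact hup i (h6 ▸ a2)
  rcases hfat with ⟨s, hs4, hsa⟩ | ⟨w, a, b, hw, hab, ha, hb⟩
  · obtain ⟨u, hu, hu'⟩ : ∃ u ∈ s, u ∉ (Finset.univ.image fun i : Fin 3 => (p i).snd) := by
      by_contra hcon
      push_neg at hcon
      have h4 := Finset.card_le_card (show s ⊆ _ from hcon)
      have h5 := Finset.card_image_le (s := (Finset.univ : Finset (Fin 3)))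
        (f := fun i : Fin 3 => (p i).snd)
      rw [Finset.card_univ, Fintype.card_fin] at h5
      omega
    refine ⟨q, hleg, key u (hsa u hu) ?_⟩
    intro i hi
    exact hu' (Finset.mem_image.2 ⟨i, Finset.mem_univ _, hi.symm⟩)
  · by_cases hex : ∃ i, w = (p i).snd
    swap
    · push_neg at hex
      exact ⟨q, hleg, key w hw hex⟩
    obtain ⟨i₀, hi₀⟩ := hex
    -- decompose the leg `i₀`
    have hlen0 : 1 ≤ (p i₀).length := hL.trans (hp.2.1 i₀)
    obtain ⟨p', hp'⟩ : ∃ p' : T.Walk w (z i₀), p i₀ = Walk.cons hw p' := by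
      have hpi := hp.1 i₀
      revert hi₀ hlen0
      generalize p i₀ = P
      intro hi₀ hlen0
      cases P with
      | nil => simp at hlen0
      | cons h P' =>
        rw [Walk.snd_cons] at hi₀
        subst hi₀
        exact ⟨P', rfl⟩
    have hpc : (Walk.cons hw p').IsPath := hp' ▸ hp.1 i₀
    obtain ⟨hp'1, hp'2⟩ := (Walk.cons_isPath_iff _ _).1 hpc
    obtain ⟨r, hr, hr1⟩ := short_path (M.reach v w hw)
    obtain ⟨q₁, g1, g2, g3⟩ := lift M p' hp'1
    obtain ⟨q₂, k1, k2, k3⟩ := lift_cons M hw p' hpc r hr q₁ g1 g2 g3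
    obtain ⟨c, hc, hcr⟩ : ∃ c, (R v w).Adj v c ∧ c ∉ r.support := by
      by_contra hcon
      push_neg at hcon
      exact hab ((hr1 a (hcon a ha) ha).trans (hr1 b (hcon b hb) hb).symm)
    have hcw : c ≠ w := fun h => hcr (h ▸ Walk.end_mem_support r)
    have hcv : c ≠ v := hc.ne.symm
    have hcs : c ∈ (R v w).support := ⟨v, hc.symm⟩
    -- the new legs
    have hwp : w ∈ (p i₀).support := by
      rw [hp', Walk.support_cons]
      exact List.mem_cons_of_mem _ (Walk.start_mem_support p')
    have hdw : (⟨(v, w), hw⟩ : T.Dart) ∈ (p i₀).darts := by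
      rw [hp', Walk.darts_cons]
      exact List.mem_cons_self
    have h3' : ∀ x ∈ q₂.support, x = v ∨ ∃ d ∈ (p i₀).darts, x ∈ (R d.fst d.snd).support := by
      intro x hx
      rcases k3 x hx with h4 | h4 | ⟨d, hd, h4⟩
      · exact Or.inr ⟨_, hdw, sup_of_mem hw.ne r h4⟩
      · subst h4
        exact Or.inr ⟨_, hdw, sup_of_mem hw.ne r (Walk.end_mem_support r)⟩
      · refine Or.inr ⟨d, ?_, h4⟩
        rw [hp', Walk.darts_cons]
        exact List.mem_cons_of_mem _ hd
    let Q : ∀ i, G.Walk v (z i) := fun i => if h : i = i₀ then h ▸ q₂ else q i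
    have hQ0 : Q i₀ = q₂ := by simp [Q]
    have hQ1 : ∀ i, i ≠ i₀ → Q i = q i := fun i hi => by simp [Q, hi]
    have h3Q : ∀ i, ∀ x ∈ (Q i).support,
        x = v ∨ ∃ d ∈ (p i).darts, x ∈ (R d.fst d.snd).support := by
      intro i x hx
      by_cases hi : i = i₀
      · subst hi
        rw [hQ0] at hx
        exact h3' x hx
      · rw [hQ1 i hi] at hx
        exact h3 i x hx
    refine ⟨Q, ⟨?_, ?_, ?_⟩, c, M.le v w hw hc, ?_⟩
    · intro i
      by_cases hi : i = i₀
      · subst hi
        rw [hQ0]
        exact k1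
      · rw [hQ1 i hi]
        exact h1 i
    · intro i
      by_cases hi : i = i₀
      · subst hi
        rw [hQ0]
        have := hp.2.1 i
        rw [hp'] at this
        omega
      · rw [hQ1 i hi]
        exact (hp.2.1 i).trans (h2 i)
    · intro i j hij x hi hj
      exact legs_disj M hp hij (h3Q i x hi) (h3Q j x hj)
    · intro i hi
      by_cases hii : i = i₀
      · subst hii
        rw [hQ0] at hi
        rcases k3 c hi with h4 | h4 | ⟨d, hd, h4⟩
        · exact hcr h4
        · exact hcw h4
        · have a1 := p'.dart_fst_mem_support_of_mem_darts hd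
          have a2 := p'.dart_snd_mem_support_of_mem_darts hd
          have hne' : s(v, w) ≠ s(d.fst, d.snd) := by
            intro he
            rw [Sym2.eq_iff] at he
            rcases he with ⟨h5, -⟩ | ⟨h5, -⟩
            · exact hp'2 (h5 ▸ a1)
            · exact hp'2 (h5 ▸ a2)
          obtain ⟨h5, -⟩ := M.disj v w _ _ c hw d.adj hne' hcs h4
          rcases h5 with h5 | h5
          · exact hcv h5
          · exact hcw h5
      · rcases h3Q i c hi with h4 | ⟨d, hd, h4⟩
        · exact hcv h4
        · have a1 := (p i).dart_fst_mem_support_of_mem_darts hd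
          have a2 := (p i).dart_snd_mem_support_of_mem_darts hd
          have hwi : w ∉ (p i).support := by
            intro hwi
            exact hw.ne.symm (hp.2.2 i i₀ hii w hwi hwp)
          have hne' : s(v, w) ≠ s(d.fst, d.snd) := by
            intro he
            rw [Sym2.eq_iff] at he
            rcases he with ⟨-, h5⟩ | ⟨-, h5⟩
            · exact hwi (h5 ▸ a2)
            · exact hwi (h5 ▸ a1)
          obtain ⟨h5, -⟩ := M.disj v w _ _ c hw d.adj hne' hcs h4
          rcases h5 with h5 | h5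
          · exact hcv h5
          · exact hcw h5

omit [Fintype V] [DecidableEq V] in
/-- Legs give a spider. -/
theorem spider_of_legs (l : Fin 4 → ℕ) {h : V} {z : Fin 4 → V} {q : ∀ i, G.Walk h (z i)}
    (hq : Legs G 4 0 h z q) (hl : ∀ i, l i ≤ (q i).length) : (spider l).IsContained G := by
  let f : Option (Σ i : Fin 4, Fin (l i)) → V := fun x => match x with
    | none => h
    | some ⟨i, j⟩ => (q i).getVert (j.val + 1)
  have hj : ∀ i (j : Fin (l i)), j.val + 1 ≤ (q i).length := fun i j => by
    have h1 := j.2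
    have h2 := hl i
    omega
  have hadj : ∀ x y, x ≠ y → (match x, y with
      | none, some ⟨_, j⟩ => j.val = 0
      | some ⟨i, j⟩, some ⟨i', j'⟩ => i = i' ∧ j'.val = j.val + 1
      | _, _ => False : Prop) → G.Adj (f x) (f y) := by
    intro x y hxy hr
    match x, y with
    | none, none => exact hr.elim
    | some ⟨i, j⟩, none => exact hr.elim
    | none, some ⟨i, j⟩ =>
      have hr' : j.val = 0 := hr
      have h1 := (q i).adj_getVert_succ (i := 0) (by have := hj i j; omega)
      rw [Walk.getVert_zero] at h1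
      show G.Adj h ((q i).getVert (j.val + 1))
      rw [hr']
      exact h1
    | some ⟨i, j⟩, some ⟨i', j'⟩ =>
      obtain ⟨hii, hjj⟩ : i = i' ∧ j'.val = j.val + 1 := hr
      subst hii
      show G.Adj ((q i).getVert (j.val + 1)) ((q i).getVert (j'.val + 1))
      rw [hjj]
      exact (q i).adj_getVert_succ (by have := hj i j'; omega)
  have hinj : Function.Injective f := by
    intro x y hxy
    match x, y with
    | none, none => rfl
    | some ⟨i, j⟩, none =>
      exfalso
      have h1 : (q i).getVert (j.val + 1) = h := hxy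
      have h2 := (hq.1 i).getVert_injOn (x₁ := j.val + 1) (x₂ := 0) (hj i j) (Nat.zero_le _)
        (by rw [h1, Walk.getVert_zero])
      omega
    | none, some ⟨i, j⟩ =>
      exfalso
      have h1 : h = (q i).getVert (j.val + 1) := hxy
      have h2 := (hq.1 i).getVert_injOn (x₁ := j.val + 1) (x₂ := 0) (hj i j) (Nat.zero_le _)
        (by rw [← h1, Walk.getVert_zero])
      omega
    | some ⟨i, j⟩, some ⟨i', j'⟩ =>
      have h1 : (q i).getVert (j.val + 1) = (q i').getVert (j'.val + 1) := hxy
      by_cases hii : i = i'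
      · subst hii
        have h2 := (hq.1 i).getVert_injOn (x₁ := j.val + 1) (x₂ := j'.val + 1) (hj i j)
          (hj i j') h1
        have h3 : j = j' := Fin.ext (by omega)
        rw [h3]
      · exfalso
        have h2 := hq.2.2 i i' hii ((q i).getVert (j.val + 1)) (Walk.getVert_mem_support _ _)
          (by rw [h1]; exact Walk.getVert_mem_support _ _)
        have h3 := (hq.1 i).getVert_injOn (x₁ := j.val + 1) (x₂ := 0) (hj i j) (Nat.zero_le _)
          (by rw [h2, Walk.getVert_zero])
        omega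
  refine ⟨⟨⟨f, ?_⟩, hinj⟩⟩
  intro x y hxy
  rw [spider, SimpleGraph.fromRel_adj] at hxy
  obtain ⟨hne, hr | hr⟩ := hxy
  · exact hadj x y hne hr
  · exact (hadj y x hne.symm hr).symm

end main

end Pool.Agent.TH11.FVLegs
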