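import Pool.Agent.TH694.GP.Defs

/-!
# Globally rigid pinning: exchange lemmas for separated sets (job X3)
-/

set_option autoImplicit false

namespace Pool.Agent.TH11.GPX

open Pool.Agent.H598R2.Cnt Pool.Agent.TH694.GP

variable {V : Type*} [DecidableEq V]

theorem Nb_sub {U : Finset V} {Γ : Finset (Finset V)} {X : Finset V} : Nb U Γ X ⊆ U :=
  fun _ hv => (mem_Nb.1 hv).1

theorem Nb_sub_of_sub {U : Finset V} {Γ : Finset (Finset V)} {Y C : Finset V} (h : Y ⊆ C) :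
    Nb U Γ Y ⊆ C ∪ Nb U Γ C := by
  intro v hv
  obtain ⟨h1, h2, x, hx, h3⟩ := mem_Nb.1 hv
  rw [Finset.mem_union]
  by_cases hvC : v ∈ C
  · exact Or.inl hvC
  · exact Or.inr (mem_Nb.2 ⟨h1, hvC, x, h hx, h3⟩)

theorem ne_of_sub {U : Finset V} {Γ : Finset (Finset V)} {Y C : Finset V} (h : Y ⊆ C)
    (hC : C ⊆ U) (hCU : C ∪ Nb U Γ C ≠ U) : Y ∪ Nb U Γ Y ≠ U := by
  intro he
  apply hCU
  refine Finset.Subset.antisymm (Finset.union_subset hC Nb_sub) ?_
  rw [← he]
  intro v hv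
  rcases Finset.mem_union.1 hv with hv | hv
  · exact Finset.mem_union_left _ (h hv)
  · have := Nb_sub_of_sub h hv
    rcases Finset.mem_union.1 this with h1 | h1
    · exact Finset.mem_union_left _ h1
    · refine Finset.mem_union_right _ ?_
      rw [he]
      exact h1

/-- a set which crosses a minimal `X` -/
theorem cross_struct {U : Finset V} {Γ : Finset (Finset V)} {X X' : Finset V} (hX : Sepd U Γ X)
    (hmin : ∀ Y, Y ⊂ X → ¬ Sepd U Γ Y) (hX' : Sepd U Γ X') (hi : (X ∩ X').Nonempty)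
    (hn : (X \ X').Nonempty) :
    3 ≤ (Nb U Γ (X ∩ X')).card ∧ (Nb U Γ (X ∪ X')).card ≤ 1 := by
  have hss : X ∩ X' ⊂ X := by
    refine Finset.ssubset_iff_subset_ne.2 ⟨Finset.inter_subset_left, fun he => ?_⟩
    obtain ⟨x, hx⟩ := hn
    rw [Finset.mem_sdiff] at hx
    rw [← he] at hx
    exact hx.2 (Finset.mem_inter.1 hx.1).2
  have h3 : 3 ≤ (Nb U Γ (X ∩ X')).card := by
    by_contra hcon
    exact hmin _ hss ⟨hss.subset.trans hX.1, hi, by omega,
      ne_of_sub Finset.inter_subset_left hX.1 hX.2.2.2⟩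
  refine ⟨h3, ?_⟩
  have h4 := Nb_submod U Γ X X'
  have h5 := hX.2.2.1
  have h6 := hX'.2.2.1
  omega

/-- a separated set `C` contains, besides `P`, nothing or something not separated by `P` -/
theorem unhit {U : Finset V} {Γ : Finset (Finset V)} {P C : Finset V} (hH : Hit U Γ P)
    (hC : C ⊆ U) (hCU : C ∪ Nb U Γ C ≠ U) (hne : (C \ P).Nonempty) :
    3 ≤ (Nb U Γ C).card + (P ∩ C).card := by
  by_contra hcon
  have h1 : Nb U Γ (C \ P) ⊆ Nb U Γ C ∪ (P ∩ C) := by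
    intro v hv
    obtain ⟨h1, h2, x, hx, h3⟩ := mem_Nb.1 hv
    rw [Finset.mem_union, Finset.mem_inter]
    rw [Finset.mem_sdiff] at hx
    by_cases hvC : v ∈ C
    · refine Or.inr ⟨?_, hvC⟩
      by_contra hP
      exact h2 (Finset.mem_sdiff.2 ⟨hvC, hP⟩)
    · exact Or.inl (mem_Nb.2 ⟨h1, hvC, x, hx.1, h3⟩)
  have h2 := (Finset.card_le_card h1).trans (Finset.card_union_le _ _)
  obtain ⟨x, hx⟩ := hH (C \ P) ⟨Finset.sdiff_subset.trans hC, hne, by omega,
    ne_of_sub Finset.sdiff_subset hC hCU⟩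
  rw [Finset.mem_inter, Finset.mem_sdiff] at hx
  exact hx.1.2 hx.2

theorem Nb_diff {U : Finset V} {Γ : Finset (Finset V)} {X X' : Finset V} (hXU : X ⊆ U) :
    Nb U Γ (X \ (X' ∪ Nb U Γ X')) ⊆ (X ∩ Nb U Γ X') ∪ (Nb U Γ X \ X') := by
  intro v hv
  obtain ⟨h1, h2, x, hx, h3⟩ := mem_Nb.1 hv
  rw [Finset.mem_sdiff, Finset.mem_union] at hx h2
  push Not at hx
  obtain ⟨hx1, hx2, hx3⟩ := hx
  have hvX' : v ∉ X' := by
    intro h
    exact hx3 (mem_Nb.2 ⟨hXU hx1, hx2, v, h, by rwa [Finset.pair_comm]⟩)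
  rw [Finset.mem_union, Finset.mem_inter, Finset.mem_sdiff]
  by_cases hvX : v ∈ X
  · refine Or.inl ⟨hvX, ?_⟩
    by_contra hcon
    apply h2
    refine ⟨hvX, ?_⟩
    rintro (h | h)
    · exact hvX' h
    · exact hcon h
  · exact Or.inr ⟨mem_Nb.2 ⟨h1, hvX, x, hx1, h3⟩, hvX'⟩

/-- exchange of one element of `P ∩ X` keeps the hitting property -/
theorem hit_swap {U : Finset V} {Γ : Finset (Finset V)} {P X : Finset V} (hPU : P ⊆ U)
    (h4 : 4 ≤ P.card) (hH : Hit U Γ P) (hX : Sepd U Γ X)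
    (hmin : ∀ Y, Y ⊂ X → ¬ Sepd U Γ Y) (h2 : (Nb U Γ X).card = 2) {ρ r : V} (hρ : ρ ∈ X)
    (hρP : ρ ∈ P) (hr : r ∈ X) (hrP : r ∉ P)
    (h : (P ∩ X).card = 1 ∨ ∀ s ∈ Nb U Γ X, ∃ w ∈ U \ (X ∪ Nb U Γ X), {s, w} ∈ Γ) :
    Hit U Γ (insert r (P.erase ρ)) := by
  intro X' hX'
  by_contra hem
  have hno : ∀ x ∈ X', x ∉ insert r (P.erase ρ) := fun x hx hx' =>
    hem ⟨x, Finset.mem_inter.2 ⟨hx, hx'⟩⟩
  have hrX' : r ∉ X' := fun hh => hno r hh (Finset.mem_insert_self _ _)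
  have honly : ∀ x ∈ X', x ∈ P → x = ρ := by
    intro x hx hxP
    by_contra hne
    exact hno x hx (Finset.mem_insert_of_mem (Finset.mem_erase.2 ⟨hne, hxP⟩))
  have hρX' : ρ ∈ X' := by
    obtain ⟨x, hx⟩ := hH X' hX'
    rw [Finset.mem_inter] at hx
    have := honly x hx.1 hx.2
    rw [← this]
    exact hx.1
  obtain ⟨h3, hC1⟩ := cross_struct hX hmin hX' ⟨ρ, Finset.mem_inter.2 ⟨hρ, hρX'⟩⟩
    ⟨r, Finset.mem_sdiff.2 ⟨hr, hrX'⟩⟩
  have hXU := hX.1
  have hX'U := hX'.1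
  have hN' := hX'.2.2.1
  have hCU : X ∪ X' ⊆ U := Finset.union_subset hXU hX'U
  have hPC : P ∩ (X ∪ X') = P ∩ X := by
    ext x
    rw [Finset.mem_inter, Finset.mem_inter, Finset.mem_union]
    constructor
    · rintro ⟨hP, hx | hx⟩
      · exact ⟨hP, hx⟩
      · exact ⟨hP, by rw [honly x hx hP]; exact hρ⟩
    · rintro ⟨hP, hx⟩
      exact ⟨hP, Or.inl hx⟩
  -- the main contradiction
  have key : ¬ ((P ∩ X).card + (Nb U Γ (X ∪ X')).card ≤ 2) := by
    intro hle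
    by_cases hU : (X ∪ X') ∪ Nb U Γ (X ∪ X') = U
    · have h5 : P ⊆ (P ∩ (X ∪ X')) ∪ Nb U Γ (X ∪ X') := by
        intro x hx
        have hxU := hPU hx
        rw [← hU, Finset.mem_union] at hxU
        rw [Finset.mem_union, Finset.mem_inter]
        rcases hxU with hx' | hx'
        · exact Or.inl ⟨hx, hx'⟩
        · exact Or.inr hx'
      have h6 := (Finset.card_le_card h5).trans (Finset.card_union_le _ _)
      rw [hPC] at h6
      omega
    · have h5 := unhit hH hCU hU ⟨r, Finset.mem_sdiff.2 ⟨Finset.mem_union_left _ hr, hrP⟩⟩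
      rw [hPC] at h5
      omega
  -- the three numbers
  have e1 : (Nb U Γ (X ∩ X')).card ≤ (X ∩ Nb U Γ X').card + (Nb U Γ X ∩ X').card +
      (Nb U Γ X ∩ Nb U Γ X').card := by
    have h5 : Nb U Γ (X ∩ X') ⊆ (X ∩ Nb U Γ X') ∪ (Nb U Γ X ∩ X') ∪ (Nb U Γ X ∩ Nb U Γ X') := by
      intro v hv
      obtain ⟨g1, g2, x, hx, g3⟩ := mem_Nb.1 hv
      rw [Finset.mem_inter] at hx g2
      rw [Finset.mem_union, Finset.mem_union, Finset.mem_inter, Finset.mem_inter, Finset.mem_inter]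
      by_cases hvX : v ∈ X
      · have hvX' : v ∉ X' := fun hh => g2 ⟨hvX, hh⟩
        exact Or.inl (Or.inl ⟨hvX, mem_Nb.2 ⟨g1, hvX', x, hx.2, g3⟩⟩)
      · have hvN : v ∈ Nb U Γ X := mem_Nb.2 ⟨g1, hvX, x, hx.1, g3⟩
        by_cases hvX' : v ∈ X'
        · exact Or.inl (Or.inr ⟨hvN, hvX'⟩)
        · exact Or.inr ⟨hvN, mem_Nb.2 ⟨g1, hvX', x, hx.2, g3⟩⟩
    refine (Finset.card_le_card h5).trans ((Finset.card_union_le _ _).trans ?_)
    have := Finset.card_union_le (X ∩ Nb U Γ X') (Nb U Γ X ∩ X')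
    omega
  have e2 : (X ∩ Nb U Γ X').card + (Nb U Γ X ∩ Nb U Γ X').card ≤ (Nb U Γ X').card := by
    rw [← Finset.card_union_of_disjoint]
    · refine Finset.card_le_card (Finset.union_subset Finset.inter_subset_right
        Finset.inter_subset_right)
    · rw [Finset.disjoint_left]
      intro v hv hv'
      rw [Finset.mem_inter] at hv hv'
      exact (mem_Nb.1 hv'.1).2.1 hv.1
  have e3 : (Nb U Γ X ∩ X').card + (Nb U Γ X ∩ Nb U Γ X').card ≤ (Nb U Γ X).card := by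
    rw [← Finset.card_union_of_disjoint]
    · refine Finset.card_le_card (Finset.union_subset Finset.inter_subset_left
        Finset.inter_subset_left)
    · rw [Finset.disjoint_left]
      intro v hv hv'
      rw [Finset.mem_inter] at hv hv'
      exact (mem_Nb.1 hv'.2).2.1 hv.2
  have e4 : (Nb U Γ X \ X').card + (Nb U Γ X ∩ X').card = (Nb U Γ X).card :=
    Finset.card_sdiff_add_card_inter _ _
  have e5 : (Nb U Γ X' \ X).card + (X ∩ Nb U Γ X').card = (Nb U Γ X').card := by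
    rw [Finset.inter_comm]
    exact Finset.card_sdiff_add_card_inter _ _
  by_cases hab : (X ∩ Nb U Γ X').card ≤ (Nb U Γ X ∩ X').card
  · -- `X ⊆ X' ∪ Nb X'`
    have hD : X ⊆ X' ∪ Nb U Γ X' := by
      by_contra hcon
      have hDne : (X \ (X' ∪ Nb U Γ X')).Nonempty := by
        obtain ⟨x, hx1, hx2⟩ := Finset.not_subset.1 hcon
        exact ⟨x, Finset.mem_sdiff.2 ⟨hx1, hx2⟩⟩
      have hDss : X \ (X' ∪ Nb U Γ X') ⊂ X := by
        refine Finset.ssubset_iff_subset_ne.2 ⟨Finset.sdiff_subset, fun he => ?_⟩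
        have h5 := hρ
        rw [← he, Finset.mem_sdiff] at h5
        exact h5.2 (Finset.mem_union_left _ hρX')
      have h5 := (Finset.card_le_card (Nb_diff (Γ := Γ) (X' := X') hXU)).trans
        (Finset.card_union_le _ _)
      exact hmin _ hDss ⟨Finset.sdiff_subset.trans hXU, hDne, by omega,
        ne_of_sub Finset.sdiff_subset hXU hX.2.2.2⟩
    have h5 : X \ X' ⊆ X ∩ Nb U Γ X' := by
      intro x hx
      rw [Finset.mem_sdiff] at hx
      rw [Finset.mem_inter]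
      refine ⟨hx.1, ?_⟩
      rcases Finset.mem_union.1 (hD hx.1) with h6 | h6
      · exact absurd h6 hx.2
      · exact h6
    have h6 := Finset.card_le_card h5
    have hrm : r ∈ X \ X' := Finset.mem_sdiff.2 ⟨hr, hrX'⟩
    have h7 : P ∩ X ⊆ insert ρ ((X \ X').erase r) := by
      intro x hx
      rw [Finset.mem_inter] at hx
      rw [Finset.mem_insert, Finset.mem_erase, Finset.mem_sdiff]
      by_cases hxX' : x ∈ X'
      · exact Or.inl (honly x hxX' hx.1)
      · exact Or.inr ⟨fun e => hrP (e ▸ hx.1), hx.2, hxX'⟩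
    have h8 := (Finset.card_le_card h7).trans (Finset.card_insert_le _ _)
    rw [Finset.card_erase_of_mem hrm] at h8
    have h9 : 0 < (X \ X').card := Finset.card_pos.2 ⟨r, hrm⟩
    have h10 : Nb U Γ (X ∪ X') ⊆ (Nb U Γ X \ X') ∪ (Nb U Γ X' \ X) := by
      intro v hv
      obtain ⟨g1, g2, x, hx, g3⟩ := mem_Nb.1 hv
      rw [Finset.mem_union] at g2
      push Not at g2
      rw [Finset.mem_union, Finset.mem_sdiff, Finset.mem_sdiff]
      rcases Finset.mem_union.1 hx with hx | hx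
      · exact Or.inl ⟨mem_Nb.2 ⟨g1, g2.1, x, hx, g3⟩, g2.2⟩
      · exact Or.inr ⟨mem_Nb.2 ⟨g1, g2.2, x, hx, g3⟩, g2.1⟩
    have h11 := (Finset.card_le_card h10).trans (Finset.card_union_le _ _)
    apply key
    omega
  · rcases h with h | h
    · exact key (by omega)
    · have hNX : Nb U Γ X' ⊆ X := by
        have h5 : (Nb U Γ X' \ X).card = 0 := by omega
        rw [Finset.card_eq_zero, Finset.sdiff_eq_empty_iff_subset] at h5
        exact h5
      have hD' : X' ⊆ X ∪ Nb U Γ X := by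
        by_contra hcon
        have hDne : (X' \ (X ∪ Nb U Γ X)).Nonempty := by
          obtain ⟨x, hx1, hx2⟩ := Finset.not_subset.1 hcon
          exact ⟨x, Finset.mem_sdiff.2 ⟨hx1, hx2⟩⟩
        have h5 := (Finset.card_le_card (Nb_diff (Γ := Γ) (X' := X) hX'U)).trans
          (Finset.card_union_le _ _)
        rw [Finset.inter_comm X'] at h5
        obtain ⟨x, hx⟩ := hH _ ⟨Finset.sdiff_subset.trans hX'U, hDne, by omega,
          ne_of_sub Finset.sdiff_subset hX'U hX'.2.2.2⟩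
        rw [Finset.mem_inter, Finset.mem_sdiff] at hx
        have h6 := honly x hx.1.1 hx.2
        rw [h6] at hx
        exact hx.1.2 (Finset.mem_union_left _ hρ)
      have hβ : 0 < (Nb U Γ X ∩ X').card := by omega
      obtain ⟨u, hu⟩ := Finset.card_pos.1 hβ
      rw [Finset.mem_inter] at hu
      obtain ⟨w, hw, huw⟩ := h u hu.1
      rw [Finset.mem_sdiff] at hw
      have hwX' : w ∉ X' := fun hh => hw.2 (hD' hh)
      have hwN : w ∈ Nb U Γ X' := mem_Nb.2 ⟨hw.1, hwX', u, hu.2, by rwa [Finset.pair_comm]⟩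
      exact hw.2 (Finset.mem_union_left _ (hNX hwN))

end Pool.Agent.TH11.GPX
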