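import Pool.Agent.TH317.CC.Arr

/-!
# Existence of generic arrangements of chart lines (job 2752)
-/

set_option autoImplicit false

universe u v w

namespace Pool.Agent.TH317.CC

open Filter Topology

namespace GenArr

/-- the point of the unit square with `o`-coordinate `c` -/
def pt (o : Bool) (c t : ℝ) : ℝ × ℝ := if o then (c, t) else (t, c)

/-- the direction -/
def dr (o : Bool) : ℝ × ℝ := if o then (0, 1) else (1, 0)

/-- the coordinate -/
def pr (o : Bool) : ℝ × ℝ →L[ℝ] ℝ :=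
  if o then ContinuousLinearMap.fst ℝ ℝ ℝ else ContinuousLinearMap.snd ℝ ℝ ℝ

lemma pr_pt (o : Bool) (c t : ℝ) : pr o (pt o c t) = c := by
  cases o <;> rfl

lemma pr_pt' (o : Bool) (c t : ℝ) : pr (!o) (pt o c t) = t := by
  cases o <;> rfl

lemma pt_mem {o : Bool} {c t : ℝ} (hc : c ∈ Set.Icc (0 : ℝ) 1) (ht : t ∈ Set.Icc (0 : ℝ) 1) :
    pt o c t ∈ I2 := by
  cases o
  · exact ⟨⟨ht.1, hc.1⟩, ⟨ht.2, hc.2⟩⟩
  · exact ⟨⟨hc.1, ht.1⟩, ⟨hc.2, ht.2⟩⟩

lemma pt_cont (o : Bool) (c : ℝ) : Continuous (pt o c) := by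
  cases o
  · exact continuous_id.prodMk continuous_const
  · exact continuous_const.prodMk continuous_id

lemma pt_deriv (o : Bool) (c t : ℝ) : HasDerivAt (pt o c) (dr o) t := by
  cases o
  · exact (hasDerivAt_id' t).prodMk (hasDerivAt_const t c)
  · exact (hasDerivAt_const t c).prodMk (hasDerivAt_id' t)

lemma det2_dr (o : Bool) {v : ℝ × ℝ} (hv : pr o v ≠ 0) : det2 (dr o) v ≠ 0 := by
  cases o
  · have e : det2 (dr false) v = pr false v := by
      show 1 * v.2 - 0 * v.1 = v.2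
      ring
    rw [e]
    exact hv
  · have e : det2 (dr true) v = -pr true v := by
      show 0 * v.2 - 1 * v.1 = -v.1
      ring
    rw [e]
    exact neg_ne_zero.2 hv

lemma det2_map (L : ℝ × ℝ →L[ℝ] ℝ × ℝ) (u v : ℝ × ℝ) : det2 (L u) (L v) = L.det * det2 u v := by
  have h1 : L.det = (L (1, 0)).1 * (L (0, 1)).2 - (L (0, 1)).1 * (L (1, 0)).2 := by
    have h : L.det = LinearMap.det (L : ℝ × ℝ →ₗ[ℝ] ℝ × ℝ) := rfl
    rw [h, ← LinearMap.det_toMatrix (Module.Basis.finTwoProd ℝ), Matrix.det_fin_two]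
    simp [LinearMap.toMatrix_apply]
  have h2 : ∀ w : ℝ × ℝ, L w = w.1 • L (1, 0) + w.2 • L (0, 1) := by
    intro w
    rw [← map_smul, ← map_smul, ← map_add]
    congr 1
    ext <;> simp
  rw [h1, h2 u, h2 v]
  simp only [det2, Prod.fst_add, Prod.snd_add, Prod.smul_fst, Prod.smul_snd, smul_eq_mul]
  ring

lemma det2_anti (u v : ℝ × ℝ) : det2 u v = -det2 v u := by
  unfold det2
  ring

lemma I2_compact : IsCompact I2 := isCompact_Icc

variable {M : Type u} [MetricSpace M] {n : ℕ} (C : BoxCharts M n)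

/-- the line with `o`-coordinate `c` in the chart `i` -/
noncomputable def gam (a : Fin n × Bool × ℝ) (t : ℝ) : M := (C.e a.1).symm (pt a.2.1 a.2.2 t)

/-- the tangent vector -/
noncomputable def tv (j : Fin n) (a : Fin n × Bool × ℝ) (t : ℝ) : ℝ × ℝ :=
  fderiv ℝ (fun p => C.e j ((C.e a.1).symm p)) (pt a.2.1 a.2.2 t) (dr a.2.1)

/-- transversal and finitely many crossings -/
def OKp (a b : Fin n × Bool × ℝ) : Prop :=
  {q : ℝ × ℝ | q.1 ∈ Set.Icc (0 : ℝ) 1 ∧ q.2 ∈ Set.Icc (0 : ℝ) 1 ∧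
    gam C a q.1 = gam C b q.2}.Finite ∧
  ∀ t ∈ Set.Icc (0 : ℝ) 1, ∀ t' ∈ Set.Icc (0 : ℝ) 1, gam C a t = gam C b t' →
    ∀ j, gam C a t ∈ (C.e j).source → det2 (tv C j a t) (tv C j b t') ≠ 0

lemma OKp.symm {a b : Fin n × Bool × ℝ} (h : OKp C a b) : OKp C b a := by
  refine ⟨?_, ?_⟩
  · refine (h.1.image Prod.swap).subset ?_
    rintro ⟨t, t'⟩ ⟨h1, h2, h3⟩
    exact ⟨(t', t), ⟨h2, h1, h3.symm⟩, rfl⟩
  · intro t ht t' ht' htt j hj
    rw [det2_anti]
    refine neg_ne_zero.2 (h.2 t' ht' t ht htt.symm j ?_)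
    rw [← htt]
    exact hj

lemma gam_inj {i : Fin n} {o : Bool} {c c' t t' : ℝ} (hc : c ∈ Set.Icc (0 : ℝ) 1)
    (hc' : c' ∈ Set.Icc (0 : ℝ) 1) (ht : t ∈ Set.Icc (0 : ℝ) 1) (ht' : t' ∈ Set.Icc (0 : ℝ) 1)
    (h : gam C (i, o, c) t = gam C (i, o, c') t') : c = c' := by
  have h1 := (C.e i).symm.injOn (C.box i (pt_mem (o := o) hc ht)) (C.box i (pt_mem (o := o) hc' ht')) h
  have h2 := congrArg (pr o) h1
  rwa [pr_pt, pr_pt] at h2

/-- Sard in dimension one -/
theorem sard (i : Fin n) (o : Bool) (i' : Fin n) (o' : Bool) {c' : ℝ}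
    (hc' : c' ∈ Set.Icc (0 : ℝ) 1) : ∃ B : Set ℝ, MeasureTheory.volume B = 0 ∧
      ∀ c ∈ Set.Icc (0 : ℝ) 1, c ∉ B → OKp C (i, o, c) (i', o', c') := by
  set e := C.e i with he
  set e' := C.e i' with he'
  set φ : ℝ × ℝ → ℝ × ℝ := fun p => e (e'.symm p) with hφ
  have hopen : IsOpen (e'.symm.trans e).source := (e'.symm.trans e).open_source
  have hφd : ∀ p ∈ (e'.symm.trans e).source, DifferentiableAt ℝ φ p := fun p hp =>
    ((C.smooth i' i).differentiableOn one_ne_zero p hp).differentiableAt (hopen.mem_nhds hp)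
  have hsrc : ∀ p, p ∈ (e'.symm.trans e).source ↔ p ∈ e'.target ∧ e'.symm p ∈ e.source := by
    intro p
    rw [OpenPartialHomeomorph.trans_source]
    rfl
  set G : ℝ → ℝ × ℝ := fun t => φ (pt o' c' t) with hG
  set V : ℝ → ℝ × ℝ := fun t => fderiv ℝ φ (pt o' c' t) (dr o') with hV
  have hGd : ∀ t, pt o' c' t ∈ (e'.symm.trans e).source → HasDerivAt G (V t) t := fun t ht =>
    (hφd _ ht).hasFDerivAt.comp_hasDerivAt t (pt_deriv o' c' t)
  set g : ℝ → ℝ := fun t => pr o (G t) with hg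
  have hgd : ∀ t, pt o' c' t ∈ (e'.symm.trans e).source → HasDerivAt g (pr o (V t)) t :=
    fun t ht => (pr o).hasFDerivAt.comp_hasDerivAt t (hGd t ht)
  -- the compact set of the parameters
  set K : Set M := e.symm '' I2 with hK
  have hKc : IsClosed K := (I2_compact.image_of_continuousOn
    (e.continuousOn_symm.mono (C.box i))).isClosed
  have hγc : ContinuousOn (fun t => e'.symm (pt o' c' t)) (Set.Icc 0 1) := by
    refine e'.continuousOn_symm.comp (pt_cont o' c').continuousOn fun t ht => ?_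
    exact C.box i' (pt_mem hc' ht)
  set T : Set ℝ := Set.Icc 0 1 ∩ (fun t => e'.symm (pt o' c' t)) ⁻¹' K with hT
  have hTc : IsCompact T := isCompact_Icc.of_isClosed_subset
    (hγc.preimage_isClosed_of_isClosed isClosed_Icc hKc) Set.inter_subset_left
  have hTs : ∀ t ∈ T, pt o' c' t ∈ (e'.symm.trans e).source := by
    rintro t ⟨ht, p, hp, hpe⟩
    rw [hsrc]
    refine ⟨C.box i' (pt_mem hc' ht), ?_⟩
    have hpe' : e.symm p = e'.symm (pt o' c' t) := hpe
    rw [← hpe']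
    exact e.map_target (C.box i hp)
  set Z : Set ℝ := {t | t ∈ T ∧ pr o (V t) = 0} with hZ
  refine ⟨g '' Z, ?_, ?_⟩
  · refine MeasureTheory.addHaar_image_eq_zero_of_det_fderivWithin_eq_zero MeasureTheory.volume
      (f' := fun t => ContinuousLinearMap.toSpanSingleton ℝ (pr o (V t))) (fun t ht => ?_)
      (fun t ht => ?_)
    · exact (hgd t (hTs t ht.1)).hasFDerivAt.hasFDerivWithinAt
    · rw [ht.2]
      simp
  · intro c hc hcB
    -- the crossings
    have hcross : ∀ t ∈ Set.Icc (0 : ℝ) 1, ∀ t' ∈ Set.Icc (0 : ℝ) 1,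
        gam C (i, o, c) t = gam C (i', o', c') t' → t' ∈ T ∧ G t' = pt o c t := by
      intro t ht t' ht' h
      have h' : e.symm (pt o c t) = e'.symm (pt o' c' t') := h
      have hp := pt_mem (o := o) hc ht
      refine ⟨⟨ht', pt o c t, hp, h'⟩, ?_⟩
      show e (e'.symm (pt o' c' t')) = pt o c t
      rw [← h']
      exact e.right_inv (C.box i hp)
    have hne : ∀ t' ∈ T, g t' = c → pr o (V t') ≠ 0 := by
      intro t' ht' hgc h0
      exact hcB ⟨t', ⟨ht', h0⟩, hgc⟩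
    have hF : {t' | t' ∈ T ∧ g t' = c}.Finite := by
      by_contra hinf
      obtain ⟨x, hx, hacc⟩ := Set.Infinite.exists_accPt_of_subset_isCompact hinf hTc
        (fun t ht => ht.1)
      rw [accPt_iff_frequently] at hacc
      have hgx := hgd x (hTs x hx)
      by_cases hxc : g x = c
      · have h1 := hgx.eventually_ne (c := c) (hne x hx hxc)
        rw [eventually_nhdsWithin_iff] at h1
        obtain ⟨y, ⟨hy1, hy2⟩, hy3⟩ := (hacc.and_eventually h1).exists
        exact hy3 hy1 hy2.2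
      · have h1 := hgx.continuousAt.eventually_ne hxc
        obtain ⟨y, ⟨hy1, hy2⟩, hy3⟩ := (hacc.and_eventually h1).exists
        exact hy3 hy2.2
    refine ⟨?_, ?_⟩
    · refine (hF.image fun t' => ((pr (!o) (G t'), t') : ℝ × ℝ)).subset ?_
      rintro ⟨t, t'⟩ ⟨ht, ht', h⟩
      obtain ⟨h1, h2⟩ := hcross t ht t' ht' h
      refine ⟨t', ⟨h1, ?_⟩, ?_⟩
      · show pr o (G t') = c
        rw [h2, pr_pt]
      · show ((pr (!o) (G t'), t') : ℝ × ℝ) = (t, t')
        rw [h2, pr_pt']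
    · intro t ht t' ht' h j hj
      obtain ⟨h1, h2⟩ := hcross t ht t' ht' h
      have hv : pr o (V t') ≠ 0 := hne t' h1 (by show pr o (G t') = c; rw [h2, pr_pt])
      have hp := pt_mem (o := o) hc ht
      have hpj : pt o c t ∈ (e.symm.trans (C.e j)).source := by
        rw [OpenPartialHomeomorph.trans_source]
        exact ⟨C.box i hp, hj⟩
      have hdet := C.orient i j (pt o c t) hpj
      set ψ : ℝ × ℝ → ℝ × ℝ := fun p => C.e j (e.symm p) with hψ
      have hψd : DifferentiableAt ℝ ψ (pt o c t) :=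
        ((C.smooth i j).differentiableOn one_ne_zero _ hpj).differentiableAt
          ((e.symm.trans (C.e j)).open_source.mem_nhds hpj)
      have hs := hTs t' h1
      have hchain : tv C j (i', o', c') t' = fderiv ℝ ψ (pt o c t) (V t') := by
        have hev : (fun p => C.e j (e'.symm p)) =ᶠ[𝓝 (pt o' c' t')] fun p => ψ (φ p) := by
          filter_upwards [hopen.mem_nhds hs] with p hp
          have h3 := ((hsrc p).1 hp).2
          show C.e j (e'.symm p) = C.e j (e.symm (e (e'.symm p)))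
          rw [e.left_inv h3]
        have hG2 : φ (pt o' c' t') = pt o c t := h2
        have hψd' : HasFDerivAt ψ (fderiv ℝ ψ (pt o c t)) (φ (pt o' c' t')) := by
          rw [hG2]
          exact hψd.hasFDerivAt
        have hcomp := hψd'.comp (pt o' c' t') (hφd _ hs).hasFDerivAt
        have h4 : fderiv ℝ (fun p => C.e j (e'.symm p)) (pt o' c' t') =
            (fderiv ℝ ψ (pt o c t)).comp (fderiv ℝ φ (pt o' c' t')) := by
          rw [hev.fderiv_eq]
          exact hcomp.fderiv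
        show fderiv ℝ (fun p => C.e j (e'.symm p)) (pt o' c' t') (dr o') = _
        rw [h4]
        rfl
      have hnew : tv C j (i, o, c) t = fderiv ℝ ψ (pt o c t) (dr o) := rfl
      rw [hnew, hchain, det2_map]
      exact mul_ne_zero hdet.ne' (det2_dr o hv)

variable (m : ℕ)

/-- the parameters of a line -/
noncomputable def par (s : Fin n → Bool → ℝ) (l : LineIx n m) : Fin n × Bool × ℝ :=
  (l.1, l.2.1, lineC m s l)

lemma line_eq (s : Fin n → Bool → ℝ) (l : LineIx n m) (t : ℝ) :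
    line C m s l t = gam C (par m s l) t := rfl

lemma tanv_eq (s : Fin n → Bool → ℝ) (j : Fin n) (l : LineIx n m) (t : ℝ) :
    tanv C m s j l t = tv C j (par m s l) t := rfl

/-- the point `x` is on the line `l` -/
def On (s : Fin n → Bool → ℝ) (l : LineIx n m) (x : M) : Prop :=
  ∃ t ∈ Set.Icc (0 : ℝ) 1, gam C (par m s l) t = x

variable {m}

lemma lineC_mem (hm : 1 ≤ m) {s : Fin n → Bool → ℝ} (l : LineIx n m)
    (hs : 0 < s l.1 l.2.1 ∧ s l.1 l.2.1 < 1) : lineC m s l ∈ Set.Icc (0 : ℝ) 1 := by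
  unfold lineC
  have hm' : (0 : ℝ) < m := by exact_mod_cast hm
  have hk : ((l.2.2 : ℕ) : ℝ) + 1 ≤ m := by exact_mod_cast l.2.2.2
  have hk0 : (0 : ℝ) ≤ ((l.2.2 : ℕ) : ℝ) := Nat.cast_nonneg _
  constructor
  · exact div_nonneg (by linarith [hs.1]) hm'.le
  · rw [div_le_one hm']
    linarith [hs.2]

/-- the conditions for the pencils in `A` -/
structure QA (m : ℕ) (A : Finset (Fin n × Bool)) (s : Fin n → Bool → ℝ) : Prop where
  off : ∀ i o, 0 < s i o ∧ s i o < 1
  pair : ∀ l l' : LineIx n m, (l.1, l.2.1) ∈ A → (l'.1, l'.2.1) ∈ A → l ≠ l' →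
    OKp C (par m s l) (par m s l')
  triple : ∀ l l' l'' : LineIx n m, (l.1, l.2.1) ∈ A → (l'.1, l'.2.1) ∈ A → (l''.1, l''.2.1) ∈ A →
    l ≠ l' → l' ≠ l'' → l ≠ l'' → ∀ x, ¬ (On C m s l x ∧ On C m s l' x ∧ On C m s l'' x)

lemma null_affine {B : Set ℝ} (hB : MeasureTheory.volume B = 0) (hm : 1 ≤ m) (k : ℕ) :
    MeasureTheory.volume {σ : ℝ | ((k : ℝ) + σ) / m ∈ B} = 0 := by
  have hm' : (0 : ℝ) < m := by exact_mod_cast hm
  have e : {σ : ℝ | ((k : ℝ) + σ) / m ∈ B} =
      (fun σ => (k : ℝ) + σ) ⁻¹' ((fun x => (m : ℝ)⁻¹ * x) ⁻¹' B) := by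
    ext σ
    simp only [Set.mem_preimage, Set.mem_ofPred_eq]
    rw [div_eq_inv_mul]
  rw [e, MeasureTheory.measure_preimage_add, Real.volume_preimage_mul_left (inv_ne_zero hm'.ne'),
    hB, mul_zero]

/-- one more pencil -/
theorem step (hm : 1 ≤ m) (A : Finset (Fin n × Bool)) (i : Fin n) (o : Bool) (hq : (i, o) ∉ A)
    (s : Fin n → Bool → ℝ) (hs : QA C m A s) : ∃ s', QA C m (insert (i, o) A) s' := by
  classical
  have hm' : (0 : ℝ) < m := by exact_mod_cast hm
  -- the bad values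
  choose B hB0 hB using fun l' : LineIx n m =>
    sard C i o l'.1 l'.2.1 (lineC_mem hm l' (hs.off l'.1 l'.2.1))
  let B2 : LineIx n m × LineIx n m → Set ℝ := fun p =>
    if (p.1.1, p.1.2.1) ∈ A ∧ (p.2.1, p.2.2.1) ∈ A ∧ p.1 ≠ p.2 then
      (fun q : ℝ × ℝ => pr o (C.e i (gam C (par m s p.1) q.1))) ''
        {q : ℝ × ℝ | q.1 ∈ Set.Icc (0 : ℝ) 1 ∧ q.2 ∈ Set.Icc (0 : ℝ) 1 ∧
          gam C (par m s p.1) q.1 = gam C (par m s p.2) q.2} else ∅
  have hB2 : ∀ p, MeasureTheory.volume (B2 p) = 0 := by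
    intro p
    simp only [B2]
    split_ifs with h
    · exact ((hs.pair p.1 p.2 h.1 h.2.1 h.2.2).1.image _).measure_zero _
    · exact MeasureTheory.measure_empty
  let Bad : Set ℝ := (⋃ l', B l') ∪ ⋃ p, B2 p
  have hBad : MeasureTheory.volume Bad = 0 :=
    MeasureTheory.measure_union_null (MeasureTheory.measure_iUnion_null hB0)
      (MeasureTheory.measure_iUnion_null hB2)
  let Bad' : Set ℝ := ⋃ k : Fin m, {σ : ℝ | (((k : ℕ) : ℝ) + σ) / m ∈ Bad}
  have hBad' : MeasureTheory.volume Bad' = 0 :=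
    MeasureTheory.measure_iUnion_null fun k => null_affine hBad hm k
  obtain ⟨σ, hσ, hσB⟩ : ∃ σ ∈ Set.Ioo (0 : ℝ) 1, σ ∉ Bad' := by
    by_contra hcon
    push Not at hcon
    have h1 : MeasureTheory.volume (Set.Ioo (0 : ℝ) 1) ≤ MeasureTheory.volume Bad' :=
      MeasureTheory.measure_mono hcon
    rw [hBad', Real.volume_Ioo] at h1
    norm_num at h1
  have hσk : ∀ k : Fin m, (((k : ℕ) : ℝ) + σ) / m ∉ Bad := fun k hk =>
    hσB (Set.mem_iUnion.2 ⟨k, hk⟩)
  let s' : Fin n → Bool → ℝ := fun a b => if (a, b) = (i, o) then σ else s a b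
  have hoff : ∀ a b, 0 < s' a b ∧ s' a b < 1 := by
    intro a b
    simp only [s']
    split_ifs
    · exact hσ
    · exact hs.off a b
  have hold : ∀ l : LineIx n m, (l.1, l.2.1) ∈ A → par m s' l = par m s l := by
    intro l hl
    have hne : (l.1, l.2.1) ≠ (i, o) := fun h => hq (h ▸ hl)
    unfold par lineC
    simp only [s', if_neg hne]
  have hnew : ∀ k : Fin m, par m s' ((i, o, k) : LineIx n m) =
      (i, o, (((k : ℕ) : ℝ) + σ) / m) := by
    intro k
    unfold par lineC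
    simp only [s', if_true]
  have hcmem : ∀ k : Fin m, (((k : ℕ) : ℝ) + σ) / m ∈ Set.Icc (0 : ℝ) 1 := by
    intro k
    have h := lineC_mem hm ((i, o, k) : LineIx n m) (s := s') (hoff i o)
    have h2 := congrArg (fun a : Fin n × Bool × ℝ => a.2.2) (hnew k)
    simp only [par] at h2
    rwa [h2] at h
  -- decomposition of a line of the new pencil
  have hform : ∀ l : LineIx n m, (l.1, l.2.1) = (i, o) → l = (i, o, l.2.2) := by
    rintro ⟨a, b, k⟩ h
    simp only [Prod.mk.injEq] at h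
    obtain ⟨rfl, rfl⟩ := h
    rfl
  -- two lines of the new pencil are disjoint
  have h2new : ∀ l l' : LineIx n m, (l.1, l.2.1) = (i, o) → (l'.1, l'.2.1) = (i, o) → l ≠ l' →
      ∀ t ∈ Set.Icc (0 : ℝ) 1, ∀ t' ∈ Set.Icc (0 : ℝ) 1,
        gam C (par m s' l) t ≠ gam C (par m s' l') t' := by
    intro l l' hl hl' hne t ht t' ht' h
    rw [hform l hl, hform l' hl', hnew, hnew] at h
    have h1 := gam_inj C (hcmem _) (hcmem _) ht ht' h
    rw [div_left_inj' hm'.ne', add_left_inj, Nat.cast_inj] at h1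
    apply hne
    rw [hform l hl, hform l' hl', Fin.ext h1]
  have h1new : ∀ l l' l'' : LineIx n m, (l.1, l.2.1) = (i, o) → (l'.1, l'.2.1) ∈ A →
      (l''.1, l''.2.1) ∈ A → l' ≠ l'' → ∀ x,
        ¬ (On C m s' l x ∧ On C m s' l' x ∧ On C m s' l'' x) := by
    rintro l l' l'' hl hl' hl'' hne x ⟨⟨t, ht, h1⟩, ⟨t', ht', h2⟩, ⟨t'', ht'', h3⟩⟩
    rw [hold l' hl'] at h2
    rw [hold l'' hl''] at h3
    rw [hform l hl, hnew] at h1
    apply hσk l.2.2
    refine Or.inr (Set.mem_iUnion.2 ⟨(l', l''), ?_⟩)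
    simp only [B2]
    rw [if_pos ⟨hl', hl'', hne⟩]
    refine ⟨(t', t''), ⟨ht', ht'', h2.trans h3.symm⟩, ?_⟩
    show pr o (C.e i (gam C (par m s l') t')) = _
    rw [h2, ← h1]
    show pr o (C.e i ((C.e i).symm (pt o ((((l.2.2 : Fin m) : ℕ) + σ) / m) t))) = _
    rw [(C.e i).right_inv (C.box i (pt_mem (hcmem _) ht)), pr_pt]
  have hpn : ∀ l l' : LineIx n m, (l.1, l.2.1) = (i, o) → (l'.1, l'.2.1) ∈ A →
      OKp C (par m s' l) (par m s' l') := by
    intro l l' hl hl'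
    rw [hold l' hl', hform l hl, hnew]
    exact hB l' _ (hcmem _) fun h => hσk l.2.2 (Or.inl (Set.mem_iUnion.2 ⟨l', h⟩))
  refine ⟨s', hoff, ?_, ?_⟩
  · intro l l' hl hl' hne
    rcases Finset.mem_insert.1 hl with hl | hl <;> rcases Finset.mem_insert.1 hl' with hl' | hl'
    · refine ⟨?_, fun t ht t' ht' h => absurd h (h2new l l' hl hl' hne t ht t' ht')⟩
      convert Set.finite_empty
      rw [Set.eq_empty_iff_forall_notMem]
      rintro ⟨t, t'⟩ ⟨ht, ht', h⟩
      exact h2new l l' hl hl' hne t ht t' ht' h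
    · exact hpn l l' hl hl'
    · exact (hpn l' l hl' hl).symm
    · rw [hold l hl, hold l' hl']
      exact hs.pair l l' hl hl' hne
  · intro l l' l'' hl hl' hl'' h1 h2 h3 x hx
    obtain ⟨hx1, hx2, hx3⟩ := hx
    have h2n : ∀ l l' : LineIx n m, (l.1, l.2.1) = (i, o) → (l'.1, l'.2.1) = (i, o) → l ≠ l' →
        On C m s' l x → On C m s' l' x → False := by
      rintro l l' hl hl' hne ⟨t, ht, h⟩ ⟨t', ht', h'⟩
      exact h2new l l' hl hl' hne t ht t' ht' (h.trans h'.symm)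
    rcases Finset.mem_insert.1 hl with hl | hl <;> rcases Finset.mem_insert.1 hl' with hl' | hl' <;>
      rcases Finset.mem_insert.1 hl'' with hl'' | hl''
    · exact h2n l l' hl hl' h1 hx1 hx2
    · exact h2n l l' hl hl' h1 hx1 hx2
    · exact h2n l l'' hl hl'' h3 hx1 hx3
    · exact h1new l l' l'' hl hl' hl'' h2 x ⟨hx1, hx2, hx3⟩
    · exact h2n l' l'' hl' hl'' h2 hx2 hx3
    · exact h1new l' l l'' hl' hl hl'' h3 x ⟨hx2, hx1, hx3⟩
    · exact h1new l'' l l' hl'' hl hl' h1 x ⟨hx3, hx1, hx2⟩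
    · have e1 : ∀ l : LineIx n m, (l.1, l.2.1) ∈ A → On C m s' l x → On C m s l x := by
        rintro l hl ⟨t, ht, h⟩
        rw [hold l hl] at h
        exact ⟨t, ht, h⟩
      exact hs.triple l l' l'' hl hl' hl'' h1 h2 h3 x ⟨e1 l hl hx1, e1 l' hl' hx2, e1 l'' hl'' hx3⟩

end GenArr

open GenArr

theorem exists_generic {M : Type u} [MetricSpace M] {n : ℕ} (C : BoxCharts M n) (m : ℕ)
    (hm : 1 ≤ m) : ∃ s, Generic C m s := by
  classical
  have key : ∀ A : Finset (Fin n × Bool), ∃ s, QA C m A s := by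
    intro A
    induction A using Finset.induction_on with
    | empty =>
      refine ⟨fun _ _ => 1 / 2, fun _ _ => by norm_num, ?_, ?_⟩
      · intro l l' hl
        exact absurd hl (Finset.notMem_empty _)
      · intro l l' l'' hl
        exact absurd hl (Finset.notMem_empty _)
    | insert q A hq ih =>
      obtain ⟨s, hs⟩ := ih
      exact step C hm A q.1 q.2 hq s hs
  obtain ⟨s, hs⟩ := key Finset.univ
  refine ⟨s, hs.off, ?_, ?_, ?_⟩
  · intro l l' hne
    exact (hs.pair l l' (Finset.mem_univ _) (Finset.mem_univ _) hne).1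
  · intro l l' hne
    exact (hs.pair l l' (Finset.mem_univ _) (Finset.mem_univ _) hne).2
  · intro l l' l'' h1 h2 h3 t ht t' ht' t'' ht'' h
    exact hs.triple l l' l'' (Finset.mem_univ _) (Finset.mem_univ _) (Finset.mem_univ _) h1 h2 h3
      (line C m s l t) ⟨⟨t, ht, rfl⟩, ⟨t', ht', h.1.symm⟩, ⟨t'', ht'', h.2.symm⟩⟩

end Pool.Agent.TH317.CC
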