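import Pool.Agent.TH37.HG.Stmts

set_option autoImplicit false

namespace Pool.Agent.TH11.HGMC

open Pool.Agent.TH37.HG
open Pool.Agent.Helper294.HallC (PC FGM Stb Noe)

section sub

variable {Q A : Type} [Group Q] [AddCommGroup A] [DistribMulAction Q A]

/-- the submodule generated by `r` -/
def RR (Q : Type) {A : Type} [Group Q] [AddCommGroup A] [DistribMulAction Q A] (r : A) :
    AddSubgroup A :=
  AddSubgroup.closure {a | ∃ g : Q, a = g • r}

theorem RR_stb (r : A) : ∀ g : Q, ∀ x ∈ RR Q r, g • x ∈ RR Q r := by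
  intro g x hx
  induction hx using AddSubgroup.closure_induction with
  | mem x hx =>
    obtain ⟨h, rfl⟩ := hx
    exact AddSubgroup.subset_closure ⟨g * h, (mul_smul g h r).symm⟩
  | zero => rw [smul_zero]; exact zero_mem _
  | add x y _ _ hx hy => rw [smul_add]; exact add_mem hx hy
  | neg x _ hx => rw [smul_neg]; exact neg_mem hx

/-- the action on the submodule -/
def actR (r : A) : DistribMulAction Q (RR Q r) where
  smul g x := ⟨g • x.1, RR_stb r g x.1 x.2⟩
  one_smul x := Subtype.ext (one_smul Q x.1)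
  mul_smul g h x := Subtype.ext (mul_smul g h x.1)
  smul_zero g := Subtype.ext (smul_zero g)
  smul_add g x y := Subtype.ext (smul_add g x.1 y.1)

theorem mem_RR (r : A) : r ∈ RR Q r :=
  AddSubgroup.subset_closure ⟨1, (one_smul Q r).symm⟩

theorem RR_top (r : A) (B : AddSubgroup (RR Q r))
    (h : ∀ g : Q, (⟨g • r, RR_stb r g r (mem_RR r)⟩ : RR Q r) ∈ B) : B = ⊤ := by
  rw [eq_top_iff]
  rintro ⟨x, hx⟩ -
  have hle : RR Q r ≤ B.map (RR Q r).subtype := by
    refine (AddSubgroup.closure_le _).mpr ?_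
    rintro _ ⟨g, rfl⟩
    exact ⟨_, h g, rfl⟩
  obtain ⟨y, hy, hxy⟩ := hle hx
  have : y = ⟨x, hx⟩ := Subtype.ext hxy
  rw [← this]; exact hy

end sub

theorem order_aux {Q A : Type} [Group Q] [AddCommGroup A] [DistribMulAction Q A] (w : Q)
    (e : ℕ) (he : 0 < e) (hA : ∀ x : A, e • x = 0) (b : ℕ)
    (hb : ∀ x : A, (fun x : A => w • x - x)^[b] x = 0) :
    ∃ M : ℕ, 0 < M ∧ ∀ x : A, w ^ M • x = x := by
  let W : AddMonoid.End A := DistribMulAction.toAddMonoidEnd Q A w
  let u : AddMonoid.End A := W - 1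
  have hWx : ∀ (n : ℕ) (x : A), (W ^ n) x = w ^ n • x := by
    intro n x
    have : W ^ n = DistribMulAction.toAddMonoidEnd Q A (w ^ n) := (map_pow _ w n).symm
    rw [this]; rfl
  have hux : ∀ (n : ℕ) (x : A), (u ^ n) x = (fun x : A => w • x - x)^[n] x := by
    intro n
    induction n with
    | zero => intro x; rfl
    | succ n ih =>
      intro x
      rw [pow_succ, Function.iterate_succ_apply]
      change (u ^ n) (u x) = _
      rw [ih]
      rfl
  have hub : u ^ b = 0 := by
    ext x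
    rw [hux, hb]; rfl
  have hec : ((e : ℕ) : AddMonoid.End A) = 0 := by
    ext x
    have : ((e : ℕ) : AddMonoid.End A) x = e • x := by
      rw [AddMonoid.End.natCast_apply]
    rw [this, hA]; rfl
  have hmod : ∀ a : ℕ, ((a : ℕ) : AddMonoid.End A) = ((a % e : ℕ) : AddMonoid.End A) := by
    intro a
    conv_lhs => rw [← Nat.div_add_mod a e]
    rw [Nat.cast_add, Nat.cast_mul, hec, zero_mul, zero_add]
  have hpow : ∀ n : ℕ, W ^ n = ∑ m ∈ Finset.range b, u ^ m * ((n.choose m % e : ℕ) : AddMonoid.End A) := by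
    intro n
    have hc : Commute u 1 := Commute.one_right u
    have hW : W = u + 1 := (sub_add_cancel W 1).symm
    rw [hW, hc.add_pow]
    have h1 : ∀ m ∈ Finset.range (n + 1), u ^ m * 1 ^ (n - m) * ((n.choose m : ℕ) : AddMonoid.End A)
        = u ^ m * ((n.choose m : ℕ) : AddMonoid.End A) := by
      intro m _
      rw [one_pow, mul_one]
    rw [Finset.sum_congr rfl h1]
    have h2 : ∑ m ∈ Finset.range (n + 1), u ^ m * ((n.choose m : ℕ) : AddMonoid.End A) =
        ∑ m ∈ Finset.range (n + 1 + b), u ^ m * ((n.choose m : ℕ) : AddMonoid.End A) := by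
      refine Finset.sum_subset (Finset.range_mono (by omega)) ?_
      intro m _ hm
      rw [Finset.mem_range, not_lt] at hm
      rw [Nat.choose_eq_zero_of_lt (by omega), Nat.cast_zero, mul_zero]
    have h3 : ∑ m ∈ Finset.range b, u ^ m * ((n.choose m : ℕ) : AddMonoid.End A) =
        ∑ m ∈ Finset.range (n + 1 + b), u ^ m * ((n.choose m : ℕ) : AddMonoid.End A) := by
      refine Finset.sum_subset (Finset.range_mono (by omega)) ?_
      intro m _ hm
      rw [Finset.mem_range, not_lt] at hm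
      rw [← Nat.sub_add_cancel hm, pow_add, hub, mul_zero, zero_mul]
    rw [h2, ← h3]
    exact Finset.sum_congr rfl fun m _ => by rw [← hmod]
  let f : ℕ → (Fin b → Fin e) := fun n m => ⟨n.choose m % e, Nat.mod_lt _ he⟩
  obtain ⟨i, j, hij, hf⟩ := Finite.exists_ne_map_eq_of_infinite f
  have key : W ^ i = W ^ j := by
    rw [hpow, hpow]
    refine Finset.sum_congr rfl fun m hm => ?_
    have := congrFun hf ⟨m, Finset.mem_range.mp hm⟩
    have h2 : i.choose m % e = j.choose m % e := congrArg Fin.val this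
    rw [h2]
  have fin : ∀ i j : ℕ, i < j → W ^ i = W ^ j → ∃ M : ℕ, 0 < M ∧ ∀ x : A, w ^ M • x = x := by
    intro i j hij hW
    refine ⟨j - i, by omega, fun x => ?_⟩
    have h1 : w ^ i • x = w ^ j • x := by rw [← hWx, ← hWx, hW]
    have h2 : w ^ j • x = w ^ i • w ^ (j - i) • x := by
      rw [← mul_smul, ← pow_add]
      congr 2
      omega
    rw [h2] at h1
    exact (MulAction.injective (w ^ i) h1).symm
  rcases lt_or_gt_of_ne hij with h | h
  · exact fin i j h key
  · exact fin j i h key.symm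

theorem mc (hS : SimpStmt) (hZ : SimzStmt) (hF : FitStmt) : McStmt := by
  intro Q A _ _ _ hPC hFG r hr
  letI := actR (Q := Q) r
  have hval : ∀ (g : Q) (x : RR Q r), ((g • x : RR Q r) : A) = g • (x : A) := fun g x => rfl
  let r0 : RR Q r := ⟨r, mem_RR r⟩
  have hr0 : ∀ g : Q, (⟨g • r, RR_stb r g r (mem_RR r)⟩ : RR Q r) = g • r0 := fun g => rfl
  have hsim : SimM Q (RR Q r) := by
    refine ⟨⟨r0, fun h => hr.1 (congrArg Subtype.val h)⟩, ?_⟩
    intro B hB hne
    have h1 : r ∈ B.map (RR Q r).subtype := by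
      refine hr.2 _ ?_ ?_
      · rintro g _ ⟨x, hx, rfl⟩
        exact ⟨g • x, hB g x hx, rfl⟩
      · intro h
        apply hne
        rw [eq_bot_iff]
        intro x hx
        have : (x : A) ∈ (⊥ : AddSubgroup A) := by
          rw [← h]; exact ⟨x, hx, rfl⟩
        rw [AddSubgroup.mem_bot] at this ⊢
        exact Subtype.ext this
    obtain ⟨y, hy, hyr⟩ := h1
    have hy0 : y = r0 := Subtype.ext hyr
    rw [hy0] at hy
    refine RR_top r B fun g => ?_
    rw [hr0]
    exact hB g r0 hy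
  have hfg : FGM Q (RR Q r) := by
    refine ⟨{r0}, RR_top r _ fun g => ?_⟩
    rw [hr0]
    exact AddSubgroup.subset_closure ⟨g, r0, Finset.mem_singleton_self _, rfl⟩
  obtain ⟨p, hp, hpR⟩ := hS Q (RR Q r) hPC hfg hsim
  have hN : Noe Q A := Pool.Agent.Helper294.HallC.noe_of_fg hPC hFG
  have hpr : p • r = 0 := congrArg Subtype.val (hpR r0)
  -- exponent
  obtain ⟨n, hn⟩ := hF Q A hN r hr (nsmulAddMonoidHom p) (fun g x => by
    change p • (g • x) = g • (p • x)
    rw [smul_comm]) hpr
  have hpn : ∀ x : A, p ^ n • x = 0 := by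
    have : ∀ (k : ℕ) (x : A), (nsmulAddMonoidHom p : A →+ A)^[k] x = p ^ k • x := by
      intro k
      induction k with
      | zero => intro x; simp
      | succ k ih =>
        intro x
        rw [Function.iterate_succ_apply, ih, pow_succ, mul_nsmul']
        rfl
    intro x
    rw [← this]
    exact hn x
  have he : 0 < p ^ n := pow_pos hp.pos n
  refine ⟨⟨p ^ n, he, hpn⟩, ?_⟩
  intro z hz
  obtain ⟨m, hm, hzm⟩ := hZ Q (RR Q r) hPC hfg hsim p hp hpR z hz
  have hzr : z ^ m • r = r := congrArg Subtype.val (hzm r0)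
  have hzc : ∀ g : Q, z ^ m * g = g * z ^ m := fun g => (Commute.pow_left (hz g) m)
  let φ : A →+ A := DistribMulAction.toAddMonoidHom A (z ^ m) - AddMonoidHom.id A
  have hφ : ∀ x, φ x = z ^ m • x - x := fun x => rfl
  obtain ⟨b, hb⟩ := hF Q A hN r hr φ (fun g x => by
    rw [hφ, hφ, smul_sub, ← mul_smul, ← mul_smul, hzc]) (by rw [hφ, hzr, sub_self])
  obtain ⟨M, hM, hM2⟩ := order_aux (z ^ m) (p ^ n) he hpn b (fun x => hb x)
  exact ⟨m * M, Nat.mul_pos hm hM, fun x => by rw [pow_mul]; exact hM2 x⟩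

end Pool.Agent.TH11.HGMC
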