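import Mathlib
import Pool.Agent.TH109.M.Defs

set_option autoImplicit false
open scoped Classical
namespace Pool.Agent.TH109.M.J
open Pool.Agent.Helper943.LM (UA wpow)
open Pool.Agent.TH109.M
variable {G : Type} [Group G]

namespace PL11

open Pool.Agent.Helper943.LM (wpow_zero wpow_succ wpow_add wpow_length)

theorem prefix_iter {α : Type} {X u : List α} (k : ℕ) (h : u <+: wpow X k ++ u) (j : ℕ) :
    u <+: wpow X (k * j) ++ u := by
  induction j with
  | zero => rw [Nat.mul_zero, wpow_zero, List.nil_append]
  | succ j ih =>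
    rw [Nat.mul_succ, Nat.add_comm, wpow_add, List.append_assoc]
    exact h.trans ((List.prefix_append_right_inj _).mpr ih)

variable {U : UA G} {ℓ : ℕ}

theorem ret {s : U.S} {X u Y Y' : List U.A} (hX : U.run s X = s) (hX0 : 0 < X.length) {k : ℕ}
    (hk : 1 ≤ k) (h : u ++ Y = wpow X k ++ (u ++ Y')) : Cn U (U.run s u) s := by
  have h1 : u <+: wpow X k ++ u := by
    have h2 : u <+: wpow X k ++ (u ++ Y') := ⟨Y, h⟩
    have h3 : wpow X k ++ u <+: wpow X k ++ (u ++ Y') := by
      rw [← List.append_assoc]; exact List.prefix_append _ _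
    exact List.prefix_of_prefix_length_le h2 h3 (by simp)
  have h4 := prefix_iter k h1 u.length
  have h5 : u <+: wpow X (k * u.length) := by
    refine List.prefix_of_prefix_length_le h4 (List.prefix_append _ _) ?_
    rw [wpow_length]
    calc u.length = 1 * u.length * 1 := by ring
      _ ≤ k * u.length * X.length := Nat.mul_le_mul (Nat.mul_le_mul_right _ hk) hX0
  obtain ⟨y, hy⟩ := h5
  refine ⟨y, ?_⟩
  rw [← UA.run_append, hy, UA.run_wpow U hX]

/-- the pumped word -/
noncomputable def Wd (U : UA G) (ℓ : ℕ) : List (List U.A) → U.S → List ℕ → List U.A → List U.A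
  | [], _, _, q => q
  | u :: us, s, ms, q =>
      u ++ (wpow (lp U ℓ (U.run s u)) (ms.headD 0) ++ Wd U ℓ us (U.run s u) ms.tail q)

/-- the states at the cuts -/
def sts (U : UA G) : List (List U.A) → U.S → List U.S
  | [], _ => []
  | u :: us, s => U.run s u :: sts U us (U.run s u)

/-- good cuts -/
def Gd (U : UA G) : List (List U.A) → U.S → List U.A → Prop
  | [], s, q => U.run s q ∈ U.acc
  | u :: us, s, q => Cy U (U.run s u) ∧ (∀ s' ∈ sts U us (U.run s u), ¬ Cn U s' (U.run s u)) ∧
      Gd U us (U.run s u) q

/-- reachable -/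
def Rch (U : UA G) (s : U.S) : Prop := ∃ p, U.run U.s0 p = s

theorem Rch.run {s : U.S} (h : Rch U s) (u : List U.A) : Rch U (U.run s u) := by
  obtain ⟨p, rfl⟩ := h
  exact ⟨p ++ u, UA.run_append U _ _ _⟩

theorem Gd.acc {us : List (List U.A)} {s : U.S} {q : List U.A} (h : Gd U us s q) :
    ∃ v, U.run s v ∈ U.acc := by
  induction us generalizing s with
  | nil => exact ⟨q, h⟩
  | cons u us ih =>
    obtain ⟨v, hv⟩ := ih h.2.2
    exact ⟨u ++ v, by rwa [UA.run_append]⟩

theorem Gd.live {u : List U.A} {us : List (List U.A)} {s : U.S} {q : List U.A}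
    (h : Gd U (u :: us) s q) (hr : Rch U s) : U.live (U.run s u) :=
  ⟨hr.run u, h.2.2.acc⟩

theorem Gd.lp (hL : LoopS U ℓ) {u : List U.A} {us : List (List U.A)} {s : U.S} {q : List U.A}
    (h : Gd U (u :: us) s q) (hr : Rch U s) :
    U.run (U.run s u) (lp U ℓ (U.run s u)) = U.run s u ∧ (lp U ℓ (U.run s u)).length = ℓ :=
  hL.2.1 _ (h.live hr) h.1

theorem Wd_acc (hL : LoopS U ℓ) {us : List (List U.A)} {s : U.S} {q : List U.A}
    (h : Gd U us s q) (hr : Rch U s) (ms : List ℕ) : U.run s (Wd U ℓ us s ms q) ∈ U.acc := by
  induction us generalizing s ms with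
  | nil => exact h
  | cons u us ih =>
    simp only [Wd]
    rw [UA.run_append, UA.run_append, UA.run_wpow U (h.lp hL hr).1]
    exact ih h.2.2 (hr.run u) _

theorem Wd_length (hL : LoopS U ℓ) {us : List (List U.A)} {s : U.S} {q : List U.A}
    (h : Gd U us s q) (hr : Rch U s) (ms : List ℕ) (hms : ms.length = us.length) :
    (Wd U ℓ us s ms q).length = (us.flatten ++ q).length + ms.sum * ℓ := by
  induction us generalizing s ms with
  | nil =>
    rw [List.length_nil, List.length_eq_zero_iff] at hms
    subst hms
    simp [Wd]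
  | cons u us ih =>
    obtain ⟨m, ms, rfl⟩ : ∃ m ms', ms = m :: ms' := List.exists_cons_of_length_eq_add_one hms
    simp only [Wd, List.headD_cons, List.tail_cons, List.flatten_cons, List.sum_cons]
    rw [List.length_append, List.length_append, ih h.2.2 (hr.run u) ms (by simpa using hms),
      wpow_length, (h.lp hL hr).2]
    simp only [List.length_append]
    ring

theorem Wd_inj (hL : LoopS U ℓ) {us : List (List U.A)} {s : U.S} {q : List U.A}
    (h : Gd U us s q) (hr : Rch U s) (ms ms' : List ℕ) (hms : ms.length = us.length)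
    (hms' : ms'.length = us.length) (he : Wd U ℓ us s ms q = Wd U ℓ us s ms' q) : ms = ms' := by
  induction us generalizing s ms ms' with
  | nil =>
    rw [List.length_nil, List.length_eq_zero_iff] at hms hms'
    rw [hms, hms']
  | cons u us ih =>
    obtain ⟨m, ms, rfl⟩ : ∃ m ms', ms = m :: ms' := List.exists_cons_of_length_eq_add_one hms
    obtain ⟨m', ms', rfl⟩ : ∃ m ms'', ms' = m :: ms'' := List.exists_cons_of_length_eq_add_one hms'
    simp only [Wd, List.headD_cons, List.tail_cons] at he
    have he1 := List.append_cancel_left he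
    have hX := h.lp hL hr
    have key : ∀ (a b : ℕ) (l l' : List ℕ), a < b → l.length = us.length → l'.length = us.length →
        wpow (lp U ℓ (U.run s u)) a ++ Wd U ℓ us (U.run s u) l q =
          wpow (lp U ℓ (U.run s u)) b ++ Wd U ℓ us (U.run s u) l' q → False := by
      intro a b l l' hab hl hl' e
      obtain ⟨k, rfl⟩ : ∃ k, b = a + (k + 1) := ⟨b - a - 1, by omega⟩
      rw [wpow_add, List.append_assoc] at e
      have e1 := List.append_cancel_left e
      cases us with
      | nil =>
        simp only [Wd] at e1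
        have e2 := congrArg List.length e1
        rw [List.length_append, wpow_length, hX.2] at e2
        have : 0 < (k + 1) * ℓ := Nat.mul_pos (Nat.succ_pos k) hL.1
        omega
      | cons u' us =>
        simp only [Wd] at e1
        have e2 := ret hX.1 (by rw [hX.2]; exact hL.1) (Nat.succ_le_succ (Nat.zero_le k)) e1
        exact h.2.1 _ (by simp [sts]) e2
    rcases lt_trichotomy m m' with hlt | rfl | hgt
    · exact (key m m' ms ms' hlt (by simpa using hms) (by simpa using hms') he1).elim
    · rw [ih h.2.2 (hr.run u) ms ms' (by simpa using hms) (by simpa using hms')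
        (List.append_cancel_left he1)]
    · exact (key m' m ms' ms hgt (by simpa using hms') (by simpa using hms) he1.symm).elim

theorem conv (U : UA G) : ∀ (n : ℕ) (ts : List ℕ) (s : U.S) (v : List U.A), ts.length = n →
    ts.Pairwise (· < ·) → (∀ t ∈ ts, t ≤ v.length ∧ Cy U (U.run s (v.take t))) →
    ts.Pairwise (fun t t' => ¬ Cn U (U.run s (v.take t')) (U.run s (v.take t))) →
    U.run s v ∈ U.acc → ∃ (us : List (List U.A)) (q : List U.A), us.length = n ∧
      us.flatten ++ q = v ∧ sts U us s = ts.map (fun t => U.run s (v.take t)) ∧ Gd U us s q := by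
  intro n
  induction n with
  | zero =>
    intro ts s v hn _ _ _ h
    rw [List.length_eq_zero_iff] at hn
    subst hn
    exact ⟨[], v, rfl, rfl, rfl, h⟩
  | succ n ih =>
    intro ts s v hn hp hc hd hacc
    obtain ⟨t, ts, rfl⟩ : ∃ t ts', ts = t :: ts' := List.exists_cons_of_length_eq_add_one hn
    have hn' : ts.length = n := by simpa using hn
    rw [List.pairwise_cons] at hp hd
    have ht := hc t (by simp)
    have key : ∀ t' ∈ ts, U.run (U.run s (v.take t)) ((v.drop t).take (t' - t)) =
        U.run s (v.take t') := by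
      intro t' ht'
      have h1 := hp.1 t' ht'
      rw [← UA.run_append, ← List.take_add, Nat.add_sub_cancel' h1.le]
    obtain ⟨us, q, h1, h2, h3, h4⟩ := ih (ts.map (· - t)) (U.run s (v.take t)) (v.drop t)
      (by rw [List.length_map, hn']) (by
        rw [List.pairwise_map]
        refine hp.2.imp_of_mem ?_
        intro a b ha hb hab
        have := hp.1 a ha
        omega) (by
        intro t'' ht''
        rw [List.mem_map] at ht''
        obtain ⟨t', ht', rfl⟩ := ht''
        have h5 := hc t' (by simp [ht'])
        rw [key t' ht', List.length_drop]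
        exact ⟨by omega, h5.2⟩) (by
        rw [List.pairwise_map]
        refine hd.2.imp_of_mem ?_
        intro a b ha hb hab
        rw [key a ha, key b hb]
        exact hab) (by rw [← UA.run_append, List.take_append_drop]; exact hacc)
    have h3' : sts U us (U.run s (v.take t)) = ts.map (fun t => U.run s (v.take t)) := by
      rw [h3, List.map_map]
      refine List.map_congr_left ?_
      intro t' ht'
      exact key t' ht'
    refine ⟨v.take t :: us, q, by rw [List.length_cons, h1], ?_, ?_, ht.2, ?_, h4⟩
    · rw [List.flatten_cons, List.append_assoc, h2, List.take_append_drop]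
    · simp only [sts, List.map_cons]
      rw [h3']
    · rw [h3']
      intro s' hs'
      rw [List.mem_map] at hs'
      obtain ⟨t', ht', rfl⟩ := hs'
      exact hd.1 t' ht'

/-- the starting times of the powers -/
def tm (K : ℕ) {α : Type} : ℕ → List (List α) → List ℕ
  | _, [] => []
  | off, u :: us => (off + u.length) :: tm K (off + u.length + K) us

theorem tm_ge (K : ℕ) {α : Type} (us : List (List α)) : ∀ off, ∀ t ∈ tm K off us, off ≤ t := by
  induction us with
  | nil => intro off t ht; simp [tm] at ht
  | cons u us ih =>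
    intro off t ht
    simp only [tm, List.mem_cons] at ht
    rcases ht with rfl | ht
    · omega
    · have := ih _ t ht
      omega

theorem tm_pairwise (K : ℕ) (hK : 0 < K) {α : Type} (us : List (List α)) :
    ∀ off, (tm K off us).Pairwise (· < ·) := by
  induction us with
  | nil => intro off; simp [tm]
  | cons u us ih =>
    intro off
    simp only [tm]
    rw [List.pairwise_cons]
    refine ⟨fun t ht => ?_, ih _⟩
    have := tm_ge K us _ t ht
    omega

theorem tm_length (K : ℕ) {α : Type} (us : List (List α)) : ∀ off, (tm K off us).length = us.length := by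
  induction us with
  | nil => intro off; rfl
  | cons u us ih => intro off; simp only [tm, List.length_cons, ih]

theorem times (hL : LoopS U ℓ) (n : ℕ) {us : List (List U.A)} {q : List U.A} :
    ∀ (s : U.S) (p w' : List U.A), Gd U us s q → U.run U.s0 p = s →
      w' = p ++ Wd U ℓ us s (List.replicate us.length n) q →
      (tm (n * ℓ) p.length us).map (st U w') = sts U us s ∧
      ∀ t ∈ tm (n * ℓ) p.length us, t + n * ℓ ≤ w'.length ∧ Cy U (st U w' t) ∧
        Cn U (st U w' (t + n * ℓ)) (st U w' t) := by
  induction us with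
  | nil => intro s p w' _ _ _; exact ⟨rfl, fun t ht => by simp [tm] at ht⟩
  | cons u us ih =>
    intro s p w' hG hp hw'
    have hr : Rch U s := ⟨p, hp⟩
    have hX := hG.lp hL hr
    set X := lp U ℓ (U.run s u) with hXd
    simp only [Wd, List.length_cons, List.replicate_succ, List.headD_cons, List.tail_cons] at hw'
    rw [← hXd] at hw'
    have e1 : st U w' (p.length + u.length) = U.run s u := by
      unfold st
      rw [hw', ← List.append_assoc, ← List.length_append, List.take_left, UA.run_append, hp]
    have e2 : st U w' (p.length + u.length + n * ℓ) = U.run s u := by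
      unfold st
      have : p.length + u.length + n * ℓ = (p ++ (u ++ wpow X n)).length := by
        rw [List.length_append, List.length_append, wpow_length, hX.2]; ring
      rw [this, hw']
      have : p ++ (u ++ (wpow X n ++ Wd U ℓ us (U.run s u) (List.replicate us.length n) q)) =
          (p ++ (u ++ wpow X n)) ++ Wd U ℓ us (U.run s u) (List.replicate us.length n) q := by
        simp only [List.append_assoc]
      rw [this, List.take_left, UA.run_append, UA.run_append, hp, UA.run_wpow U hX.1]
    obtain ⟨h1, h2⟩ := ih (U.run s u) (p ++ (u ++ wpow X n)) w' hG.2.2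
      (by rw [UA.run_append, UA.run_append, hp, UA.run_wpow U hX.1])
      (by rw [hw']; simp only [List.append_assoc])
    have e3 : (p ++ (u ++ wpow X n)).length = p.length + u.length + n * ℓ := by
      rw [List.length_append, List.length_append, wpow_length, hX.2]; ring
    rw [e3] at h1 h2
    refine ⟨?_, ?_⟩
    · simp only [tm, List.map_cons, sts]
      rw [e1, h1]
    · intro t ht
      simp only [tm, List.mem_cons] at ht
      rcases ht with rfl | ht
      · refine ⟨?_, ?_, ?_⟩
        · rw [hw']
          simp only [List.length_append, wpow_length]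
          rw [hX.2]
          omega
        · rw [e1]; exact hG.1
        · rw [e1, e2]; exact ⟨[], rfl⟩
      · exact h2 t ht

theorem sts_pairwise {us : List (List U.A)} {s : U.S} {q : List U.A} (h : Gd U us s q) :
    (sts U us s).Pairwise (fun s s' => ¬ Cn U s' s) := by
  induction us generalizing s with
  | nil => simp [sts]
  | cons u us ih =>
    simp only [sts]
    rw [List.pairwise_cons]
    exact ⟨h.2.1, ih h.2.2⟩

end PL11

open PL11

theorem pump (U : UA G) (ℓ : ℕ) (hL : LoopS U ℓ) (hfin : ∀ n : ℕ, {g : G | len U g ≤ n}.Finite)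
    (w : List U.A) (hw : w ∈ U.L) (D : ℕ)
    (ts : List ℕ) (hlen : ts.length = D) (hts : ts.Pairwise (· < ·))
    (hcy : ∀ t ∈ ts, t ≤ w.length ∧ Cy U (st U w t))
    (hdis : ts.Pairwise (fun t t' => ¬ Cn U (st U w t') (st U w t))) :
    ∃ C : ℕ, ∀ n : ℕ, 1 ≤ n → n ^ D ≤ {g : G | len U g ≤ C * n}.ncard ∧
      ∃ w' ∈ U.L, w'.length ≤ C * n ∧ ∃ (ts' : List ℕ) (es' : List G), es'.length = D ∧
        ts'.Pairwise (· < ·) ∧ es'.Nodup ∧
        List.Forall₂ (fun t e => Sg U ℓ (n * ℓ) w' e t) ts' es' := by
  obtain ⟨us, q, hus, hq, hst, hG⟩ := conv U D ts U.s0 w hlen hts hcy hdis hw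
  have hr : Rch U U.s0 := ⟨[], rfl⟩
  have hbd : ∀ (n : ℕ) (ms : List ℕ), 1 ≤ n → ms.length = us.length → (∀ m ∈ ms, m ≤ n) →
      (Wd U ℓ us U.s0 ms q).length ≤ (w.length + D * ℓ + 1) * n := by
    intro n ms hn h1 h2
    rw [Wd_length hL hG hr ms h1, hq]
    have h3 : ms.sum ≤ D * n := by
      have := List.sum_le_card_nsmul ms n h2
      rw [h1, hus, smul_eq_mul] at this
      exact this
    have h4 : ms.sum * ℓ ≤ D * n * ℓ := Nat.mul_le_mul_right _ h3
    nlinarith [Nat.mul_le_mul_left w.length hn]
  refine ⟨w.length + D * ℓ + 1, fun n hn => ⟨?_, ?_⟩⟩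
  · -- counting
    set C := w.length + D * ℓ + 1 with hC
    haveI : Finite {g : G | len U g ≤ C * n} := (hfin (C * n)).to_subtype
    let Φ : (Fin D → Fin n) → {g : G | len U g ≤ C * n} := fun f =>
      ⟨U.ev (Wd U ℓ us U.s0 (List.ofFn fun k => (f k : ℕ)) q), by
        change len U _ ≤ C * n
        unfold len
        rw [nf_eq U (Wd_acc hL hG hr _)]
        refine hbd n _ hn (by rw [List.length_ofFn, hus]) ?_
        intro m hm
        rw [List.mem_ofFn] at hm
        obtain ⟨k, rfl⟩ := hm
        exact (f k).2.le⟩
    have hΦ : Function.Injective Φ := by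
      intro f f' hff
      have h1 := congrArg Subtype.val hff
      have h2 := UA.ev_inj U (Wd_acc hL hG hr _) (Wd_acc hL hG hr _) h1
      have h3 := Wd_inj hL hG hr _ _ (by rw [List.length_ofFn, hus])
        (by rw [List.length_ofFn, hus]) h2
      have h4 := List.ofFn_injective h3
      funext k
      exact Fin.ext (congrFun h4 k)
    have h1 := Nat.card_le_card_of_injective Φ hΦ
    rw [Nat.card_fun, Nat.card_fin, Nat.card_fin, Nat.card_coe_set_eq] at h1
    exact h1
  · refine ⟨Wd U ℓ us U.s0 (List.replicate us.length n) q, Wd_acc hL hG hr _,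
      hbd n _ hn (List.length_replicate) (fun m hm => (List.eq_of_mem_replicate hm).le), ?_⟩
    set w' := Wd U ℓ us U.s0 (List.replicate us.length n) q with hw'
    obtain ⟨h1, h2⟩ := times hL n U.s0 [] w' hG rfl rfl
    have hK : 0 < n * ℓ := Nat.mul_pos hn hL.1
    rw [List.length_nil] at h1 h2
    have hp := tm_pairwise (n * ℓ) hK us 0
    refine ⟨tm (n * ℓ) 0 us, (tm (n * ℓ) 0 us).map (EV U ℓ w'), ?_, hp, ?_, ?_⟩
    · rw [List.length_map, tm_length, hus]
    · unfold List.Nodup
      rw [List.pairwise_map]
      have h3 : (tm (n * ℓ) 0 us).Pairwise (fun t t' => ¬ Cn U (st U w' t') (st U w' t)) := by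
        have := sts_pairwise hG
        rw [← h1, List.pairwise_map] at this
        exact this
      refine (hp.and h3).imp_of_mem ?_
      intro a b ha hb hab heq
      exact hab.2 (hL.2.2.2.2 w' (Wd_acc hL hG hr _) a b hab.1.le (h2 a ha).2.1 (h2 b hb).2.1 heq)
    · rw [List.forall₂_map_right_iff, List.forall₂_same]
      intro t ht
      obtain ⟨h3, h4, h5⟩ := h2 t ht
      exact ⟨h3, h4, h5, rfl⟩

end Pool.Agent.TH109.M.J
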