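import Pool.Agent.TH614.HS.Defs3

/-! # The two polynomial identities behind the product formula (job 3829, for helper614) -/

set_option autoImplicit false

namespace Pool.Agent.TH11.J3829

open Pool.Agent.TH614.HS

theorem PRI : S_PRI := by
  intro K _ th a0 a1 a2 a3 a4 a5 b0 b1 b2 b3 b4 b5 c P0 P1 P2 R0 R1 R2 Y Z s ta hth hiso
    hm12 hm20 hm01 hm45 hm53 hm34 hm03 hm04 hm05 hm13 hm14 hm15 hm23 hm24 hm25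
    A B E A' B' E' BB CC CD CC' CD' hE hA hB hE' hA' hB' hBB hCC hCD hCC' hCD'
  have key1 : B ^ 2 - 4 * A * E =
      16 * (a1 * b3 - b1 * a3) * (a2 * b3 - b2 * a3) * s + 16 * (a1 * b2 - a2 * b1) ^ 2 * s ^ 2 + 8 * (a1 * b3 - b1 * a3) * (a3 * b4 - a4 * b3) * s ^ 2 * th + 8 * (a2 * b3 - b2 * a3) * (a5 * b3 - a3 * b5) * s ^ 2 * th + 16 * (a3 * b4 - a4 * b3) * (a5 * b3 - a3 * b5) * s ^ 3 + 4 * (a0 * b3 - b0 * a3) ^ 2 * s ^ 4 - 16 * (a1 * b2 - a2 * b1) * (a1 * b4 - b1 * a4) * s ^ 3 * th - 16 * (a1 * b2 - a2 * b1) * (a2 * b5 - b2 * a5) * s ^ 3 * th + 32 * (a1 * b4 - b1 * a4) * (a2 * b5 - b2 * a5) * s ^ 4 + 32 * (a1 * b5 - b1 * a5) * (a2 * b4 - b2 * a4) * s ^ 4 + 16 * (a0 * b1 - a1 * b0) * (a2 * b0 - a0 * b2) * s ^ 5 + 8 * (a1 * b2 - a2 *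 b1) * (a4 * b5 - a5 * b4) * s ^ 4 * th ^ 2 - 16 * (a1 * b4 - b1 * a4) * (a4 * b5 - a5 * b4) * s ^ 5 * th + 4 * (a1 * b4 - b1 * a4) ^ 2 * s ^ 4 * th ^ 2 - 8 * (a1 * b5 - b1 * a5) * (a2 * b4 - b2 * a4) * s ^ 4 * th ^ 2 - 16 * (a2 * b5 - b2 * a5) * (a4 * b5 - a5 * b4) * s ^ 5 * th + 4 * (a2 * b5 - b2 * a5) ^ 2 * s ^ 4 * th ^ 2 + 16 * (a4 * b5 - a5 * b4) ^ 2 * s ^ 6 + 8 * (a0 * b1 - a1 * b0) * (a0 * b4 - b0 * a4) * s ^ 6 * th + 16 * (a0 * b4 - b0 * a4) * (a0 * b5 - b0 * a5) * s ^ 7 + 8 * (a0 * b5 - b0 * a5) * (a2 * b0 - a0 * b2) * s ^ 6 * th := by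
    rw [hA, hB, hE]; ring
  have key2 : B * B' - 2 * A * E' - 2 * E * A' =
      -2 * (a2 * b3 - b2 * a3) ^ 2 - 16 * (a1 * b3 - b1 * a3) * (a2 * b4 - b2 * a4) * s * ta - 16 * (a1 * b4 - b1 * a4) * (a2 * b3 - b2 * a3) * s * ta - 8 * (a0 * b3 - b0 * a3) * (a1 * b3 - b1 * a3) * ta ^ 3 + 4 * (a1 * b2 - a2 * b1) * (a2 * b4 - b2 * a4) * s ^ 2 * th + 4 * (a1 * b3 - b1 * a3) * (a3 * b4 - a4 * b3) * ta ^ 2 * th - 8 * (a2 * b4 - b2 * a4) * (a2 * b5 - b2 * a5) * s ^ 3 + 16 * (a0 * b1 - a1 * b0) * (a1 * b2 - a2 * b1) * s * ta ^ 3 + 8 * (a0 * b1 - a1 * b0) * (a2 * b3 - b2 * a3) * s * ta ^ 2 * th - 8 * (a1 * b2 - a2 * b1) * (a1 * b4 - b1 * a4) * s * ta ^ 2 * th - 8 * (a1 * b3 - b1 * a3) * (a2 * b0 - a0 * b2) * s * ta ^ 2 * th - 8 * (a1 * b4 - b1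 * a4) * (a3 * b4 - a4 * b3) * s ^ 2 * ta * th + 2 * (a2 * b0 - a0 * b2) ^ 2 * s ^ 4 + 8 * (a2 * b3 - b2 * a3) * (a4 * b5 - a5 * b4) * s ^ 2 * ta * th - 8 * (a2 * b4 - b2 * a4) * (a5 * b3 - a3 * b5) * s ^ 2 * ta * th + 16 * (a3 * b4 - a4 * b3) * (a4 * b5 - a5 * b4) * s ^ 3 * ta + 2 * (a5 * b3 - a3 * b5) ^ 2 * ta ^ 4 - 8 * (a0 * b3 - b0 * a3) * (a0 * b4 - b0 * a4) * s ^ 4 * ta - 8 * (a1 * b5 - b1 * a5) * (a2 * b5 - b2 * a5) * s * ta ^ 4 - 8 * (a0 * b1 - a1 * b0) * (a1 * b4 - b1 * a4) * s ^ 2 * ta ^ 3 * th + 4 * (a0 * b1 - a1 * b0) * (a3 * b4 - a4 * b3) * s ^ 2 * ta ^ 2 * th ^ 2 - 4 * (a0 * b4 - b0 * a4) * (a1 * b3 - b1 * a3) * s ^ 2 * ta ^ 2 * th ^ 2 - 16 * (a0 * b4 - b0 * a4) * (a1 * b5 - b1 * a5) * s ^ 3 * ta ^ 3 - 8 * (a0 * b4 - b0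 * a4) * (a5 * b3 - a3 * b5) * s ^ 3 * ta ^ 2 * th + 8 * (a0 * b5 - b0 * a5) * (a1 * b2 - a2 * b1) * s ^ 2 * ta ^ 3 * th - 16 * (a0 * b5 - b0 * a5) * (a1 * b4 - b1 * a4) * s ^ 3 * ta ^ 3 + 4 * (a0 * b5 - b0 * a5) * (a2 * b3 - b2 * a3) * s ^ 2 * ta ^ 2 * th ^ 2 + 8 * (a0 * b5 - b0 * a5) * (a3 * b4 - a4 * b3) * s ^ 3 * ta ^ 2 * th + 4 * (a1 * b2 - a2 * b1) * (a4 * b5 - a5 * b4) * s ^ 2 * ta ^ 2 * th ^ 2 - 8 * (a1 * b4 - b1 * a4) * (a4 * b5 - a5 * b4) * s ^ 3 * ta ^ 2 * th + 4 * (a1 * b4 - b1 * a4) ^ 2 * s ^ 2 * ta ^ 2 * th ^ 2 - 8 * (a1 * b5 - b1 * a5) * (a2 * b0 - a0 * b2) * s ^ 2 * ta ^ 3 * th - 4 * (a1 * b5 - b1 * a5) * (a2 * b4 - b2 * a4) * s ^ 2 * ta ^ 2 * th ^ 2 - 4 * (a2 * b0 - a0 * b2) * (a5 * b3 - a3 * b5) * s ^ 2 * ta ^ 2 * th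 ^ 2 + 4 * (a0 * b1 - a1 * b0) * (a0 * b4 - b0 * a4) * s ^ 4 * ta ^ 2 * th + 4 * (a1 * b5 - b1 * a5) * (a4 * b5 - a5 * b4) * s ^ 2 * ta ^ 4 * th - 2 * (a0 * b5 - b0 * a5) ^ 2 * s ^ 4 * ta ^ 4 := by
    rw [hA, hB, hE, hA', hB', hE']; ring
  constructor
  · rw [key1, hCC, hCD]
    simp only [hm12, hm20, hm01, hm45, hm53, hm34, hm03, hm04, hm05, hm13, hm14, hm15, hm23, hm24, hm25]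
    linear_combination (8 * P0 * R0 * Y * Z * c ^ 2 * s ^ 4 - 8 * P1 * P2 * R1 * R2 * c ^ 2 * s ^ 4 + 8 * P1 * R1 * Y * Z * c ^ 2 * s ^ 4 + 4 * P1 ^ 2 * R1 ^ 2 * c ^ 2 * s ^ 4 + 8 * P2 * R2 * Y * Z * c ^ 2 * s ^ 4 + 4 * P2 ^ 2 * R2 ^ 2 * c ^ 2 * s ^ 4 + 8 * Y ^ 2 * Z ^ 2 * c ^ 2 * s ^ 4) * hth +
      (-12 * P0 * R0 * c ^ 2 * s ^ 4 + 12 * P1 * R1 * c ^ 2 * s ^ 4 + 12 * P2 * R2 * c ^ 2 * s ^ 4 + 16 * R0 * Y * c ^ 2 * s ^ 3 * th + 44 * Y * Z * c ^ 2 * s ^ 4 - 16 * P0 * Z * c ^ 2 * s ^ 5 * th) * hiso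
  · rw [key2, hBB, hCC, hCD, hCC', hCD']
    simp only [hm12, hm20, hm01, hm45, hm53, hm34, hm03, hm04, hm05, hm13, hm14, hm15, hm23, hm24, hm25]
    linear_combination (-2 * P2 ^ 2 * R0 ^ 2 * c ^ 2 - 8 * P0 * P2 * R0 ^ 2 * c ^ 2 * s * ta - 8 * P2 * R0 * Y * Z * c ^ 2 * s * ta - 8 * P2 ^ 2 * R0 * R2 * c ^ 2 * s * ta - 4 * P0 * P1 * R0 * R1 * c ^ 2 * s ^ 2 * ta ^ 2 - 16 * P0 * P2 * R0 * R2 * c ^ 2 * s ^ 2 * ta ^ 2 - 4 * P0 * R0 * Y * Z * c ^ 2 * s ^ 2 * ta ^ 2 - 8 * P0 ^ 2 * R0 ^ 2 * c ^ 2 * s ^ 2 * ta ^ 2 - 4 * P1 * P2 * R1 * R2 * c ^ 2 * s ^ 2 * ta ^ 2 + 12 * P1 * R1 * Y * Z * c ^ 2 * s ^ 2 * ta ^ 2 + 4 * P1 ^ 2 * R1 ^ 2 * c ^ 2 * s ^ 2 * ta ^ 2 - 4 * P2 * R2 * Y * Z * c ^ 2 * s ^ 2 * ta ^ 2 - 8 * P2 ^ 2 * R2 ^ 2 * c ^ 2 * s ^ 2 *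 ta ^ 2 + 4 * Y ^ 2 * Z ^ 2 * c ^ 2 * s ^ 2 * ta ^ 2 - 8 * P0 * P2 * R2 ^ 2 * c ^ 2 * s ^ 3 * ta ^ 3 - 8 * P0 * R2 * Y * Z * c ^ 2 * s ^ 3 * ta ^ 3 - 8 * P0 ^ 2 * R0 * R2 * c ^ 2 * s ^ 3 * ta ^ 3 - 2 * P0 ^ 2 * R2 ^ 2 * c ^ 2 * s ^ 4 * ta ^ 4) * hth +
      (-24 * P2 * R0 * c ^ 2 * s * ta - 24 * P0 * R0 * c ^ 2 * s ^ 2 * ta ^ 2 + 12 * P1 * R1 * c ^ 2 * s ^ 2 * ta ^ 2 - 24 * P2 * R2 * c ^ 2 * s ^ 2 * ta ^ 2 - 16 * P2 * Z * c ^ 2 * s ^ 2 * ta * th + 16 * R0 * Y * c ^ 2 * s * ta ^ 2 * th + 28 * Y * Z * c ^ 2 * s ^ 2 * ta ^ 2 - 24 * P0 * R2 * c ^ 2 * s ^ 3 * ta ^ 3 - 16 * P0 * Z * c ^ 2 * s ^ 3 * ta ^ 2 * th + 16 * R2 * Y * c ^ 2 * s ^ 2 * ta ^ 3 * th) * hiso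

end Pool.Agent.TH11.J3829
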