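import Pool.Agent.TH317.CC.Riem

/-!
# Second order midpoint inequality for a C^2 family of quadratic forms (job 2802)
-/

set_option autoImplicit false

universe u

namespace Pool.Agent.TH317.CC

open Set Manifold Bundle
open scoped ContDiff Topology

namespace Midpt

variable {E : Type} [NormedAddCommGroup E] [NormedSpace ℝ E]

/-- a positive definite form is bounded from below -/
lemma pos_bound [FiniteDimensional ℝ E] (B : E →L[ℝ] E →L[ℝ] ℝ) (hpos : ∀ v ≠ 0, 0 < B v v) :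
    ∃ μ > 0, ∀ v, μ * ‖v‖ ^ 2 ≤ B v v := by
  rcases subsingleton_or_nontrivial E with hE | hE
  · refine ⟨1, one_pos, fun v => ?_⟩
    rw [Subsingleton.elim v 0]
    simp
  · have hc : IsCompact (Metric.sphere (0 : E) 1) := isCompact_sphere 0 1
    have hne : (Metric.sphere (0 : E) 1).Nonempty := NormedSpace.sphere_nonempty.2 zero_le_one
    have hcont : ContinuousOn (fun v => B v v) (Metric.sphere (0 : E) 1) := by
      have : Continuous fun v => B v v := by fun_prop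
      exact this.continuousOn
    obtain ⟨u, hu, hmin⟩ := hc.exists_isMinOn hne hcont
    have hu0 : u ≠ 0 := by
      rintro rfl
      simp at hu
    refine ⟨B u u, hpos u hu0, fun v => ?_⟩
    by_cases hv : v = 0
    · subst hv
      simp
    · have hv' : ‖v‖ ≠ 0 := norm_ne_zero_iff.2 hv
      have hw : ‖v‖⁻¹ • v ∈ Metric.sphere (0 : E) 1 := by
        rw [mem_sphere_zero_iff_norm, norm_smul, norm_inv, norm_norm, inv_mul_cancel₀ hv']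
      have h1 := hmin hw
      simp only [Set.mem_ofPred_eq, map_smul, ContinuousLinearMap.smul_apply, smul_eq_mul] at h1
      have h2 : B u u * ‖v‖ ^ 2 ≤ (‖v‖⁻¹ * (‖v‖⁻¹ * B v v)) * ‖v‖ ^ 2 :=
        mul_le_mul_of_nonneg_right h1 (by positivity)
      refine h2.trans (le_of_eq ?_)
      field_simp

/-- the algebra of the midpoint inequality -/
lemma algebra {P P' Q : E →L[ℝ] E →L[ℝ] ℝ} {lam K1 K2 : ℝ} (hlam : 0 < lam)
    (hK1 : 0 ≤ K1) (hK2 : 0 ≤ K2) {h : ℝ} (hh : 0 ≤ h)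
    (hP : ∀ v w, P v w = P w v) (hP' : ∀ v w, P' v w = P' w v)
    (hlow : ∀ v, lam * ‖v‖ ^ 2 ≤ P v v) (hlow' : ∀ v, lam * ‖v‖ ^ 2 ≤ P' v v)
    (hd : ‖P' - P‖ ≤ K1 * h) (hm : ‖(1 / 2 : ℝ) • (P + P') - Q‖ ≤ K2 * h ^ 2) (v v' : E) :
    Q ((1 / 2 : ℝ) • (v + v')) ((1 / 2 : ℝ) • (v + v')) ≤
      P v v / 2 + P' v' v' / 2 - lam * ‖v - v'‖ ^ 2 / 8
        + (K1 ^ 2 / (2 * lam) + K2) * h ^ 2 * (‖v‖ ^ 2 + ‖v'‖ ^ 2) := by
  set μ : E := (1 / 2 : ℝ) • (v + v') with hμ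
  set w : E := v' - v with hw
  have ev : v = μ - (1 / 2 : ℝ) • w := by
    rw [hμ, hw]
    module
  have ev' : v' = μ + (1 / 2 : ℝ) • w := by
    rw [hμ, hw]
    module
  have hww : ‖v - v'‖ = ‖w‖ := by rw [hw, norm_sub_rev]
  have hμn : ‖μ‖ ^ 2 ≤ (‖v‖ ^ 2 + ‖v'‖ ^ 2) := by
    have h1 : ‖μ‖ ≤ (1 / 2) * (‖v‖ + ‖v'‖) := by
      rw [hμ, norm_smul, Real.norm_of_nonneg (by norm_num)]
      exact mul_le_mul_of_nonneg_left (norm_add_le _ _) (by norm_num)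
    have h2 := norm_nonneg μ
    have h3 := norm_nonneg v
    have h4 := norm_nonneg v'
    nlinarith [sq_nonneg (‖v‖ - ‖v'‖)]
  -- the expansion
  have hexp : P v v / 2 + P' v' v' / 2 = ((1 / 2 : ℝ) • (P + P')) μ μ +
      (1 / 8) * (P w w + P' w w) + (1 / 2) * (P' - P) μ w := by
    have e1 : P v v = P μ μ - P μ w + (1 / 4) * P w w := by
      rw [ev]
      simp only [map_sub, map_smul, ContinuousLinearMap.sub_apply, ContinuousLinearMap.smul_apply,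
        smul_eq_mul]
      rw [hP w μ]
      ring
    have e2 : P' v' v' = P' μ μ + P' μ w + (1 / 4) * P' w w := by
      rw [ev']
      simp only [map_add, map_smul, ContinuousLinearMap.add_apply, ContinuousLinearMap.smul_apply,
        smul_eq_mul]
      rw [hP' w μ]
      ring
    rw [e1, e2]
    simp only [ContinuousLinearMap.add_apply, ContinuousLinearMap.smul_apply,
      ContinuousLinearMap.sub_apply, smul_eq_mul]
    ring
  have h1 : Q μ μ ≤ ((1 / 2 : ℝ) • (P + P')) μ μ + K2 * h ^ 2 * ‖μ‖ ^ 2 := by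
    have h2 := ((1 / 2 : ℝ) • (P + P') - Q).le_opNorm₂ μ μ
    rw [ContinuousLinearMap.sub_apply, ContinuousLinearMap.sub_apply, Real.norm_eq_abs] at h2
    have h3 := (abs_le.1 h2).1
    have h4 : ‖(1 / 2 : ℝ) • (P + P') - Q‖ * ‖μ‖ * ‖μ‖ ≤ K2 * h ^ 2 * ‖μ‖ * ‖μ‖ := by gcongr
    nlinarith
  have h2 : |(P' - P) μ w| ≤ K1 * h * ‖μ‖ * ‖w‖ := by
    have h3 := (P' - P).le_opNorm₂ μ w
    rw [Real.norm_eq_abs] at h3
    refine h3.trans ?_
    gcongr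
  have h3 := (abs_le.1 h2).1
  have h4 := hlow w
  have h5 := hlow' w
  have young : (1 / 2) * (K1 * h * ‖μ‖ * ‖w‖) ≤ lam / 8 * ‖w‖ ^ 2 +
      K1 ^ 2 / (2 * lam) * h ^ 2 * ‖μ‖ ^ 2 := by
    have e : lam / 8 * ‖w‖ ^ 2 + K1 ^ 2 / (2 * lam) * h ^ 2 * ‖μ‖ ^ 2 -
        (1 / 2) * (K1 * h * ‖μ‖ * ‖w‖) =
        (lam / 8) * (‖w‖ - 2 * (K1 * h * ‖μ‖) / lam) ^ 2 := by
      field_simp
      ring
    have e2 : 0 ≤ (lam / 8) * (‖w‖ - 2 * (K1 * h * ‖μ‖) / lam) ^ 2 := by positivity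
    linarith
  have h6 : (K1 ^ 2 / (2 * lam) + K2) * h ^ 2 * ‖μ‖ ^ 2 ≤
      (K1 ^ 2 / (2 * lam) + K2) * h ^ 2 * (‖v‖ ^ 2 + ‖v'‖ ^ 2) :=
    mul_le_mul_of_nonneg_left hμn (by positivity)
  rw [hexp, hww]
  nlinarith

/-- second order expansion on a ball where the derivative is Lipschitz -/
lemma taylor {F : Type} [NormedAddCommGroup F] [NormedSpace ℝ F] {G : E → F} {x₀ : E} {R K : ℝ}
    (hd : ∀ p ∈ Metric.ball x₀ R, DifferentiableAt ℝ G p) (hK : 0 ≤ K)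
    (hL : ∀ p ∈ Metric.ball x₀ R, ∀ q ∈ Metric.ball x₀ R,
      ‖fderiv ℝ G p - fderiv ℝ G q‖ ≤ K * ‖p - q‖) {m p : E} (hm : m ∈ Metric.ball x₀ R)
    (hp : p ∈ Metric.ball x₀ R) :
    ‖G p - G m - fderiv ℝ G m (p - m)‖ ≤ K * ‖p - m‖ * ‖p - m‖ := by
  have hseg : segment ℝ m p ⊆ Metric.ball x₀ R := (convex_ball x₀ R).segment_subset hm hp
  refine (convex_segment m p).norm_image_sub_le_of_norm_hasFDerivWithin_le'
    (f' := fderiv ℝ G) (fun z hz => (hd z (hseg hz)).hasFDerivAt.hasFDerivWithinAt)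
    (fun z hz => ?_) (left_mem_segment ℝ m p) (right_mem_segment ℝ m p)
  refine (hL z (hseg hz) m hm).trans ?_
  refine mul_le_mul_of_nonneg_left ?_ hK
  obtain ⟨a, b, ha, hb, hab, rfl⟩ := hz
  have e : a • m + b • p - m = b • (p - m) := by
    have : a = 1 - b := by linarith
    rw [this]
    module
  rw [e, norm_smul, Real.norm_of_nonneg hb]
  exact mul_le_of_le_one_left (norm_nonneg _) (by linarith)

/-- second order midpoint bound near a point, for a general target space -/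
lemma mid_bound {F : Type} [NormedAddCommGroup F] [NormedSpace ℝ F] {G : E → F} {x₀ : E} {R₀ : ℝ}
    (hR₀ : 0 < R₀) (hG : ContDiffOn ℝ 2 G (Metric.ball x₀ R₀)) :
    ∃ R > 0, R ≤ R₀ ∧ ∃ K1 ≥ (0 : ℝ), ∃ K2 ≥ (0 : ℝ),
      ∀ p ∈ Metric.ball x₀ R, ∀ p' ∈ Metric.ball x₀ R,
        ‖G p' - G p‖ ≤ K1 * ‖p - p'‖ ∧
        ‖(1 / 2 : ℝ) • (G p + G p') - G ((1 / 2 : ℝ) • (p + p'))‖ ≤ K2 * ‖p - p'‖ ^ 2 := by
  have hnb : Metric.ball x₀ R₀ ∈ 𝓝 x₀ := Metric.ball_mem_nhds x₀ hR₀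
  have hGat : ContDiffAt ℝ 2 G x₀ := hG.contDiffAt hnb
  have hF : ContDiffOn ℝ 1 (fderiv ℝ G) (Metric.ball x₀ R₀) :=
    hG.fderiv_of_isOpen Metric.isOpen_ball (by norm_num)
  have hFat : ContDiffAt ℝ 1 (fderiv ℝ G) x₀ := hF.contDiffAt hnb
  obtain ⟨K1, t1, ht1, hL1⟩ := (hGat.of_le (by norm_num : (1 : WithTop ℕ∞) ≤ 2)).exists_lipschitzOnWith
  obtain ⟨K2, t2, ht2, hL2⟩ := hFat.exists_lipschitzOnWith
  obtain ⟨R1, hR1, hball⟩ := Metric.mem_nhds_iff.1 (Filter.inter_mem ht1 ht2)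
  refine ⟨min R1 R₀, lt_min hR1 hR₀, min_le_right _ _, K1, K1.coe_nonneg, K2, K2.coe_nonneg, ?_⟩
  intro p hp p' hp'
  set R := min R1 R₀ with hR
  have hsub : Metric.ball x₀ R ⊆ Metric.ball x₀ R₀ := Metric.ball_subset_ball (min_le_right _ _)
  have hsub1 : ∀ q ∈ Metric.ball x₀ R, q ∈ t1 ∧ q ∈ t2 := fun q hq =>
    hball (Metric.ball_subset_ball (min_le_left _ _) hq)
  set m : E := (1 / 2 : ℝ) • (p + p') with hmdef
  have hm : m ∈ Metric.ball x₀ R := by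
    have h1 := (convex_ball x₀ R) hp hp' (by norm_num : (0 : ℝ) ≤ 1 / 2)
      (by norm_num : (0 : ℝ) ≤ 1 / 2) (by norm_num)
    rw [hmdef, smul_add]
    exact h1
  have hd : ∀ q ∈ Metric.ball x₀ R, DifferentiableAt ℝ G q := fun q hq =>
    (hG.differentiableOn two_ne_zero q (hsub hq)).differentiableAt
      (Metric.isOpen_ball.mem_nhds (hsub hq))
  have hLip : ∀ a ∈ Metric.ball x₀ R, ∀ b ∈ Metric.ball x₀ R,
      ‖fderiv ℝ G a - fderiv ℝ G b‖ ≤ K2 * ‖a - b‖ := by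
    intro a ha b hb
    have h1 := hL2.dist_le_mul a (hsub1 a ha).2 b (hsub1 b hb).2
    rwa [dist_eq_norm, dist_eq_norm] at h1
  have hT1 := taylor hd K2.coe_nonneg hLip hm hp
  have hT2 := taylor hd K2.coe_nonneg hLip hm hp'
  have e1 : p - m = -((1 / 2 : ℝ) • (p' - p)) := by rw [hmdef]; module
  have e2 : p' - m = (1 / 2 : ℝ) • (p' - p) := by rw [hmdef]; module
  rw [e1, map_neg, norm_neg, norm_smul, Real.norm_of_nonneg (by norm_num)] at hT1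
  rw [e2, norm_smul, Real.norm_of_nonneg (by norm_num)] at hT2
  constructor
  · have h1 := hL1.dist_le_mul p' (hsub1 p' hp').1 p (hsub1 p hp).1
    rwa [dist_eq_norm, dist_eq_norm, norm_sub_rev p' p] at h1
  · have e3 : (1 / 2 : ℝ) • (G p + G p') - G m =
        (1 / 2 : ℝ) • ((G p - G m - -(fderiv ℝ G m ((1 / 2 : ℝ) • (p' - p)))) +
          (G p' - G m - fderiv ℝ G m ((1 / 2 : ℝ) • (p' - p)))) := by
      module
    rw [e3, norm_smul, Real.norm_of_nonneg (by norm_num)]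
    have h1 := norm_add_le (G p - G m - -(fderiv ℝ G m ((1 / 2 : ℝ) • (p' - p))))
      (G p' - G m - fderiv ℝ G m ((1 / 2 : ℝ) • (p' - p)))
    have h2 : ‖p' - p‖ = ‖p - p'‖ := norm_sub_rev _ _
    rw [h2] at hT1 hT2
    have h3 : 0 ≤ (K2 : ℝ) * ‖p - p'‖ ^ 2 := by positivity
    have h4 : (K2 : ℝ) * (1 / 2 * ‖p - p'‖) * (1 / 2 * ‖p - p'‖) =
      (1 / 4) * ((K2 : ℝ) * ‖p - p'‖ ^ 2) := by ring
    rw [h4] at hT1 hT2
    linarith

end Midpt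

open Midpt

theorem midpoint_ineq {E : Type} [NormedAddCommGroup E] [NormedSpace ℝ E]
    [FiniteDimensional ℝ E] (x₀ : E) (R₀ : ℝ) (hR₀ : 0 < R₀) (G : E → E →L[ℝ] E →L[ℝ] ℝ)
    (hG : ContDiffOn ℝ 2 G (Metric.ball x₀ R₀))
    (hsymm : ∀ p ∈ Metric.ball x₀ R₀, ∀ v w, G p v w = G p w v)
    (hpos : ∀ p ∈ Metric.ball x₀ R₀, ∀ v ≠ 0, 0 < G p v v) :
    ∃ R > 0, R ≤ R₀ ∧ ∃ lam > 0, ∃ Lam : ℝ, ∃ C > 0,
      (∀ p ∈ Metric.ball x₀ R, ∀ v, lam * ‖v‖ ^ 2 ≤ G p v v ∧ G p v v ≤ Lam * ‖v‖ ^ 2) ∧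
      ∀ p ∈ Metric.ball x₀ R, ∀ p' ∈ Metric.ball x₀ R, ∀ v v' : E,
        G ((1 / 2 : ℝ) • (p + p')) ((1 / 2 : ℝ) • (v + v')) ((1 / 2 : ℝ) • (v + v')) ≤
          G p v v / 2 + G p' v' v' / 2 - lam * ‖v - v'‖ ^ 2 / 8
            + C * ‖p - p'‖ ^ 2 * (‖v‖ ^ 2 + ‖v'‖ ^ 2) := by
  have hx₀ : x₀ ∈ Metric.ball x₀ R₀ := Metric.mem_ball_self hR₀
  have hnb : Metric.ball x₀ R₀ ∈ 𝓝 x₀ := Metric.ball_mem_nhds x₀ hR₀
  obtain ⟨R2, hR2, hR20, K1, hK1, K2, hK2, hbd⟩ := mid_bound hR₀ hG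
  obtain ⟨μ, hμ, hμb⟩ := pos_bound (G x₀) (hpos x₀ hx₀)
  obtain ⟨R1, hR1, hR1e⟩ : ∃ R1 > 0, K1 * R1 < μ / 2 := by
    refine ⟨μ / (2 * (K1 + 1)), by positivity, ?_⟩
    rw [← sub_pos]
    have e : μ / 2 - K1 * (μ / (2 * (K1 + 1))) = μ / (2 * (K1 + 1)) := by
      field_simp
      ring
    rw [e]
    positivity
  have hx₁ : x₀ ∈ Metric.ball x₀ R2 := Metric.mem_ball_self hR2
  have hsub1 : ∀ q ∈ Metric.ball x₀ (min R1 R2), ‖G q - G x₀‖ < μ / 2 := fun q hq => by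
    have h1 := (hbd x₀ hx₁ q (Metric.ball_subset_ball (min_le_right _ _) hq)).1
    have h2 : ‖x₀ - q‖ ≤ R1 := by
      rw [← dist_eq_norm, dist_comm]
      exact (Metric.mem_ball.1 (Metric.ball_subset_ball (min_le_left _ _) hq)).le
    have h3 := mul_le_mul_of_nonneg_left h2 hK1
    exact (h1.trans h3).trans_lt hR1e
  have hsub2 : Metric.ball x₀ (min R1 R2) ⊆ Metric.ball x₀ R2 :=
    Metric.ball_subset_ball (min_le_right _ _)
  have hsub : Metric.ball x₀ (min R1 R2) ⊆ Metric.ball x₀ R₀ :=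
    hsub2.trans (Metric.ball_subset_ball hR20)
  have hlow : ∀ q ∈ Metric.ball x₀ (min R1 R2), ∀ v, μ / 2 * ‖v‖ ^ 2 ≤ G q v v ∧
      G q v v ≤ (‖G x₀‖ + μ / 2) * ‖v‖ ^ 2 := by
    intro p hp v
    have h1 := hsub1 p hp
    have h2 := (G p - G x₀).le_opNorm₂ v v
    rw [ContinuousLinearMap.sub_apply, ContinuousLinearMap.sub_apply, Real.norm_eq_abs] at h2
    have h3 := abs_le.1 h2
    have h4 : ‖G p - G x₀‖ * ‖v‖ * ‖v‖ ≤ μ / 2 * ‖v‖ * ‖v‖ := by gcongr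
    have h5 := (G x₀).le_opNorm₂ v v
    rw [Real.norm_eq_abs] at h5
    have h6 := (abs_le.1 h5).2
    have h7 := hμb v
    constructor <;> nlinarith [h3.1, h3.2]
  refine ⟨min R1 R2, lt_min hR1 hR2, (min_le_right _ _).trans hR20, μ / 2, by positivity,
    ‖G x₀‖ + μ / 2, K1 ^ 2 / (2 * (μ / 2)) + K2 + 1, by positivity, hlow, ?_⟩
  intro p hp p' hp' v v'
  have hb := hbd p (hsub2 hp) p' (hsub2 hp')
  have h := algebra (P := G p) (P' := G p') (Q := G ((1 / 2 : ℝ) • (p + p'))) (lam := μ / 2)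
    (K1 := K1) (K2 := K2) (by positivity) hK1 hK2 (norm_nonneg (p - p')) (hsymm p (hsub hp))
    (hsymm p' (hsub hp')) (fun v => (hlow p hp v).1) (fun v => (hlow p' hp' v).1) hb.1 hb.2 v v'
  refine h.trans ?_
  have h9 : 0 ≤ ‖p - p'‖ ^ 2 * (‖v‖ ^ 2 + ‖v'‖ ^ 2) := by positivity
  nlinarith

end Pool.Agent.TH317.CC
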